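import Pool.Agent.Lib.MP_745d3a_ag.SB.J0b

/-!
Translations.

* `euler_hom`: sum of monomials; `E (monomial e c) = (∑ e i) • monomial e c`.
* `gradMap`: the symmetry as a `K`-linear map: `φ (c • m) = φ (C c • m) = lin A (C c) • φ m = c • φ m`.
* `sym_mul`, `sym_smul`, `sym_one`: `lin_mul`: `φ' (φ (f • m)) = lin A' (lin A f) • φ' (φ m) =
  lin (A * A') f • ..`. For a scalar `c ≠ 0`: the map `ψ m = ∑ c ^ d • m_d` on the pieces (`d : ℤ`, `c ^ d` a zpow)
  satisfies `ψ (f • m) = lin (c • 1) f • ψ m` and is bijective (inverse for `c⁻¹`); `(c • 1) * A = c • A`,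
  so `sym_smul` follows from `sym_mul` and the case `A = 1`. To define `ψ`:
  `DirectSum.toAddMonoid` after `DirectSum.decomposeAddEquiv`, or `ψ m = ∑ d ∈ support, c ^ d • m_d`;
  for `f` homogeneous of degree `k` and `m ∈ 𝓜 d`, `f • m ∈ 𝓜 (k + d)` and `lin (c • 1) f = c ^ k • f`
  (monomials).
-/

set_option autoImplicit false
set_option linter.unusedSectionVars false
set_option linter.unusedSimpArgs false
set_option linter.unusedVariables false

open MvPolynomial

namespace Pool.Agent.Lib.MP_745d3a_ag.PF.SB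

section

variable {K : Type*} [Field K] [CharZero K]

private lemma K0_mul {E : Derivation K (MvPolynomial (Fin 5) K) (MvPolynomial (Fin 5) K)}
    {a b : MvPolynomial (Fin 5) K} {m n : ℕ} (ha : E a = (m : K) • a) (hb : E b = (n : K) • b) :
    E (a * b) = ((m + n : ℕ) : K) • (a * b) := by
  rw [Derivation.leibniz, ha, hb, smul_eq_mul, smul_eq_mul, mul_smul_comm, mul_smul_comm,
    mul_comm b a, Nat.cast_add, add_smul, add_comm]

private lemma K0_pow {E : Derivation K (MvPolynomial (Fin 5) K) (MvPolynomial (Fin 5) K)}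
    (hE : ∀ i, E (X i) = X i) (i : Fin 5) (n : ℕ) :
    E (X i ^ n) = (n : K) • (X i ^ n : MvPolynomial (Fin 5) K) := by
  induction n with
  | zero =>
    rw [pow_zero, Derivation.map_one_eq_zero, Nat.cast_zero, zero_smul]
  | succ n ih =>
    rw [pow_succ]
    exact K0_mul ih (by rw [hE, Nat.cast_one, one_smul])

private lemma K0_prod {E : Derivation K (MvPolynomial (Fin 5) K) (MvPolynomial (Fin 5) K)}
    (hE : ∀ i, E (X i) = X i) (e : Fin 5 → ℕ) (s : Finset (Fin 5)) :
    E (∏ i ∈ s, X i ^ e i) = ((∑ i ∈ s, e i : ℕ) : K) •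
      (∏ i ∈ s, X i ^ e i : MvPolynomial (Fin 5) K) := by
  induction s using Finset.induction_on with
  | empty =>
    rw [Finset.prod_empty, Finset.sum_empty, Derivation.map_one_eq_zero, Nat.cast_zero, zero_smul]
  | insert i s hi ih =>
    rw [Finset.prod_insert hi, Finset.sum_insert hi]
    exact K0_mul (K0_pow hE i (e i)) ih

private lemma K0_monomial {E : Derivation K (MvPolynomial (Fin 5) K) (MvPolynomial (Fin 5) K)}
    (hE : ∀ i, E (X i) = X i) (e : Fin 5 →₀ ℕ) (c : K) :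
    E (monomial e c) = ((∑ i, e i : ℕ) : K) • (monomial e c : MvPolynomial (Fin 5) K) := by
  have h1 : (monomial e c : MvPolynomial (Fin 5) K) = c • ∏ i, X i ^ e i := by
    rw [MvPolynomial.monomial_eq, Finsupp.prod_fintype _ _ (fun i => pow_zero _), C_mul']
  rw [h1, Derivation.map_smul, K0_prod hE, smul_comm]

theorem euler_hom {E : Derivation K (MvPolynomial (Fin 5) K) (MvPolynomial (Fin 5) K)}
    (hE : ∀ i, E (X i) = X i) {f : MvPolynomial (Fin 5) K} {d : ℤ}
    (hf : IsWeightedHomogeneous (fun _ : Fin 5 => (1 : ℤ)) f d) : E f = (d : K) • f := by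
  conv_lhs => rw [f.as_sum]
  conv_rhs => rw [f.as_sum]
  rw [map_sum, Finset.smul_sum]
  refine Finset.sum_congr rfl fun e he => ?_
  rw [K0_monomial hE]
  have h1 : Finsupp.weight (fun _ : Fin 5 => (1 : ℤ)) e = d := hf (mem_support_iff.mp he)
  have h2 : ((∑ i, e i : ℕ) : ℤ) = d := by
    rw [← h1, Finsupp.weight_apply, Finsupp.sum_fintype]
    · simp
    · intro i
      exact zero_smul ℕ _
  rw [← h2, Int.cast_natCast]

variable {M : Type*} [AddCommGroup M] [Module (MvPolynomial (Fin 5) K) M]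
  (𝓜 : ℤ → AddSubgroup M)

/-- The invertible matrices `A` with a bijective `lin A`-semilinear map of `M` which preserves
the degrees. -/
def IsSym (A : Matrix (Fin 5) (Fin 5) K) : Prop :=
  IsUnit A.det ∧ ∃ φ : M ≃+ M, (∀ (f : MvPolynomial (Fin 5) K) (m : M),
    φ (f • m) = lin A f • φ m) ∧ ∀ d, ∀ m ∈ 𝓜 d, φ m ∈ 𝓜 d

theorem sym_one : IsSym 𝓜 (1 : Matrix (Fin 5) (Fin 5) K) := by
  refine ⟨by rw [Matrix.det_one]; exact isUnit_one, AddEquiv.refl M, fun f m => ?_,
    fun d m hm => hm⟩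
  rw [lin_one]
  rfl

theorem sym_mul {A A' : Matrix (Fin 5) (Fin 5) K} (h : IsSym 𝓜 A) (h' : IsSym 𝓜 A') :
    IsSym 𝓜 (A * A') := by
  obtain ⟨h1, φ, h2, h3⟩ := h
  obtain ⟨h1', φ', h2', h3'⟩ := h'
  refine ⟨by rw [Matrix.det_mul]; exact h1.mul h1', φ.trans φ', fun f m => ?_,
    fun d m hm => h3' d _ (h3 d m hm)⟩
  show φ' (φ (f • m)) = lin (A * A') f • φ' (φ m)
  rw [h2, h2', lin_mul]

end

end Pool.Agent.Lib.MP_745d3a_ag.PF.SB
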