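import Pool.Agent.Lib.MP_745d3a_ag.SB.Defs

/-!
Existence of a homogeneous presentation.

`exists_hom_gen` (PFMod.lean) gives homogeneous generators of `M`; the kernel of `(Fin p → S) → M`
is finitely generated (`S` is Noetherian, `hx.noeth`) and stable under `ε' c i = E (c i) + a i • c i`.
Its elements are sums of homogeneous elements of the kernel (components of an element of the kernel
are in the kernel: `ε` of the components, `eig_indep`), so it has finitely many homogeneous
generators: `exists_hom_gen` for the `S`-module `ker π` with the restriction of `ε'`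
(or take the components of finitely many generators).
-/

set_option autoImplicit false
set_option linter.unusedSectionVars false
set_option linter.unusedSimpArgs false
set_option linter.unusedVariables false

open MvPolynomial

namespace Pool.Agent.Lib.MP_745d3a_ag.PF.SB

section

variable {K S ι M : Type*} [Field K] [CharZero K] [CommRing S] [Algebra K S] {x : ι → S}
  {E : Derivation K S S} [AddCommGroup M] [Module K M] [Module S M] [IsScalarTower K S M]
  {ε : M →ₗ[K] M}

private lemma p1_gen (hx : Coord K x) (hE : IsEuler x E) (cE : IsConn E ε)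
    (dE : Diag ε) [Module.Finite S M] :
    ∃ (n : ℕ) (h : Fin n → M) (d : Fin n → ℤ), (∀ i, ε (h i) = (d i : K) • h i) ∧
      Submodule.span S (Set.range h) = ⊤ := by
  obtain ⟨n, m, hm⟩ := Module.Finite.exists_fin (R := S) (M := M)
  obtain ⟨h, h1, h2⟩ := exists_hom_gen hx hE cE dE n m (fun v => by
    rw [hm]
    exact Submodule.mem_sup_left Submodule.mem_top)
  choose d hd using h1
  exact ⟨n, h, d, hd, h2⟩

/-- The grading operator of a graded free module. -/
private def p1_ep (E : Derivation K S S) {p : ℕ} (a : Fin p → ℤ) :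
    (Fin p → S) →ₗ[K] (Fin p → S) where
  toFun v i := E (v i) + (a i : K) • v i
  map_add' v w := by
    funext i
    simp only [Pi.add_apply, map_add, smul_add]
    abel
  map_smul' c v := by
    funext i
    simp only [Pi.smul_apply, RingHom.id_apply]
    rw [E.map_smul, smul_add, smul_comm c]

private lemma p1_ep_apply (E : Derivation K S S) {p : ℕ} (a : Fin p → ℤ) (v : Fin p → S)
    (i : Fin p) : p1_ep E a v i = E (v i) + (a i : K) • v i := rfl

private lemma p1_ep_conn (E : Derivation K S S) {p : ℕ} (a : Fin p → ℤ) :
    IsConn E (p1_ep E a) := by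
  intro c v
  funext i
  rw [p1_ep_apply]
  simp only [Pi.add_apply, Pi.smul_apply, smul_eq_mul]
  rw [p1_ep_apply, Derivation.leibniz]
  simp only [smul_eq_mul, mul_add, mul_smul_comm]
  rw [mul_comm (v i) (E c)]
  abel

private lemma p1_ep_diag (hx : Coord K x) (hE : IsEuler x E) {p : ℕ} (a : Fin p → ℤ) :
    Diag (p1_ep E a) := by
  classical
  intro v
  choose s hs hs' using fun i => exists_comp (euler_diag hx hE) (v i)
  refine ⟨Finset.univ.biUnion fun i => (s i).map (addRightEmbedding (a i)),
    fun e i => comp (E : S →ₗ[K] S) (e - a i) (v i), ?_, ?_⟩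
  · intro e
    funext i
    have h1 : E (comp (E : S →ₗ[K] S) (e - a i) (v i)) =
        ((e - a i : ℤ) : K) • comp (E : S →ₗ[K] S) (e - a i) (v i) :=
      comp_eig (euler_diag hx hE) (e - a i) (v i)
    show E (comp (E : S →ₗ[K] S) (e - a i) (v i)) +
      (a i : K) • comp (E : S →ₗ[K] S) (e - a i) (v i) = _
    rw [h1, ← add_smul]
    simp only [Pi.smul_apply]
    congr 1
    push_cast
    ring
  · funext i
    rw [Finset.sum_apply]
    have h1 : ∑ e ∈ (s i).map (addRightEmbedding (a i)),
        comp (E : S →ₗ[K] S) (e - a i) (v i) = v i := by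
      rw [Finset.sum_map]
      conv_rhs => rw [hs i]
      refine Finset.sum_congr rfl fun e _ => ?_
      rw [addRightEmbedding_apply, add_sub_cancel_right]
    conv_lhs => rw [← h1]
    refine Finset.sum_subset ?_ ?_
    · intro e he
      exact Finset.mem_biUnion.mpr ⟨i, Finset.mem_univ i, he⟩
    · intro e _ he
      refine hs' i _ fun h2 => he ?_
      rw [Finset.mem_map]
      exact ⟨e - a i, h2, by rw [addRightEmbedding_apply, sub_add_cancel]⟩

theorem exists_prs [Finite ι] (hx : Coord K x) (hE : IsEuler x E) (cE : IsConn E ε)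
    (dE : Diag ε) [Module.Finite S M] :
    ∃ (p q : ℕ) (m : Fin p → M) (r : Fin q → Fin p → S) (a : Fin p → ℤ) (b : Fin q → ℤ),
      Prs E ε m r a b := by
  have : IsNoetherianRing S := hx.noeth
  obtain ⟨p, m, a, hm, hspan⟩ := p1_gen hx hE cE dE
  set π : (Fin p → S) →ₗ[S] M := Fintype.linearCombination S m with hπ
  have hπa : ∀ v, π v = ∑ i, v i • m i := fun v => by
    rw [hπ, Fintype.linearCombination_apply]
  have hcomm : ∀ v, π (p1_ep E a v) = ε (π v) := by
    intro v
    rw [hπa, hπa, map_sum]
    refine Finset.sum_congr rfl fun i _ => ?_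
    rw [cE, hm, p1_ep_apply, add_smul, smul_assoc, smul_comm (v i)]
  have hst : ∀ v ∈ LinearMap.ker π, p1_ep E a v ∈ LinearMap.ker π := by
    intro v hv
    rw [LinearMap.mem_ker] at hv ⊢
    rw [hcomm, hv, map_zero]
  let εN : (LinearMap.ker π) →ₗ[K] (LinearMap.ker π) :=
    { toFun := fun v => ⟨p1_ep E a v, hst v v.2⟩
      map_add' := fun v w => by
        apply Subtype.ext
        show p1_ep E a ((v : Fin p → S) + w) = _
        rw [map_add]
        rfl
      map_smul' := fun c v => by
        apply Subtype.ext
        show p1_ep E a (c • (v : Fin p → S)) = _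
        rw [map_smul]
        rfl }
  have hεN : ∀ v : LinearMap.ker π, ((εN v : LinearMap.ker π) : Fin p → S) =
      p1_ep E a (v : Fin p → S) := fun _ => rfl
  have cN : IsConn E εN := by
    intro c v
    apply Subtype.ext
    exact p1_ep_conn E a c (v : Fin p → S)
  let A : (LinearMap.ker π) →ₗ[K] (Fin p → S) := (LinearMap.ker π).subtype.restrictScalars K
  have dN : Diag εN := Diag.of_injective (p1_ep_diag hx hE a) A
    (fun v w h => Subtype.ext h) (fun v => rfl)
  obtain ⟨q, r', b, hr', hspan'⟩ := p1_gen hx hE cN dN
  refine ⟨p, q, m, fun j => (r' j : Fin p → S), a, b, hm, hspan, ?_, ?_⟩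
  · intro j i
    have h1 : p1_ep E a (r' j : Fin p → S) = (b j : K) • (r' j : Fin p → S) := by
      rw [← hεN, hr']
      rfl
    have h2 := congrFun h1 i
    rw [p1_ep_apply] at h2
    rw [Int.cast_sub, sub_smul, eq_sub_iff_add_eq]
    exact h2
  · intro c
    have h1 : Submodule.span S (Set.range fun j => (r' j : Fin p → S)) = LinearMap.ker π := by
      have h2 : Submodule.span S (Set.range fun j => (r' j : Fin p → S)) =
          (Submodule.span S (Set.range r')).map (LinearMap.ker π).subtype := by
        rw [Submodule.map_span, ← Set.range_comp]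
        rfl
      rw [h2, hspan', Submodule.map_subtype_top]
    rw [h1, LinearMap.mem_ker, hπa]

end

end Pool.Agent.Lib.MP_745d3a_ag.PF.SB
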