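import Pool.Agent.Lib.MP_745d3a_ag.PFFin

/-!
Symmetries of rank two modules: definitions.
-/

set_option autoImplicit false
set_option linter.unusedSectionVars false
set_option linter.unusedSimpArgs false
set_option linter.unusedVariables false

open MvPolynomial

namespace Pool.Agent.Lib.MP_745d3a_ag.PF.SB

/-- `Φ` is semilinear over `G`. -/
def SL {K S V : Type*} [Field K] [CommRing S] [Algebra K S] [AddCommGroup V] [Module K V]
    [Module S V] (G : S →ₗ[K] S) (Φ : V →ₗ[K] V) : Prop := ∀ (a : S) (v : V), Φ (a • v) = G a • Φ v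

/-- `Φ` is diagonalisable. -/
def DiagK {K V : Type*} [Field K] [AddCommGroup V] [Module K V] (Φ : V →ₗ[K] V) : Prop :=
  ⨆ μ : K, Module.End.eigenspace (Φ : Module.End K V) μ = ⊤

/-- `V` is spanned by generalised eigenvectors of `Φ`. -/
def GenK {K V : Type*} [Field K] [AddCommGroup V] [Module K V] (Φ : V →ₗ[K] V) : Prop :=
  ⨆ μ : K, Module.End.maxGenEigenspace (Φ : Module.End K V) μ = ⊤

/-- `Φ` is locally unipotent. -/
def Unip {K V : Type*} [Field K] [AddCommGroup V] [Module K V] (Φ : V →ₗ[K] V) : Prop :=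
  ∀ v, ∃ k : ℕ, ((Φ - LinearMap.id : V →ₗ[K] V) ^ k) v = 0

/-- A homogeneous presentation of `M`: generators `m i` of degree `a i`, relations `r j` of
degree `b j`. -/
structure Prs {K S M : Type*} [Field K] [CommRing S] [Algebra K S] [AddCommGroup M]
    [Module K M] [Module S M] (E : Derivation K S S) (ε : M →ₗ[K] M) {p q : ℕ}
    (m : Fin p → M) (r : Fin q → Fin p → S) (a : Fin p → ℤ) (b : Fin q → ℤ) : Prop where
  hm : ∀ i, ε (m i) = (a i : K) • m i
  span : Submodule.span S (Set.range m) = ⊤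
  hr : ∀ j i, E (r j i) = ((b j - a i : ℤ) : K) • r j i
  ker : ∀ c : Fin p → S, ∑ i, c i • m i = 0 ↔ c ∈ Submodule.span S (Set.range r)

/-- All monomials of `a` have weight `k`, if `x i` has weight `z i`. -/
def MonW {K S ι : Type*} [Field K] [CommRing S] [Algebra K S] {x : ι → S} (hx : Coord K x)
    {G : Type*} [AddCommMonoid G] (z : ι → G) (k : G) (a : S) : Prop :=
  ∀ e ∈ (hx.equiv.symm a).support, Finsupp.weight z e = k

end Pool.Agent.Lib.MP_745d3a_ag.PF.SB
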