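import Mathlib

/-!
Traces of matrices of finite order: `u ^ n = 1` and `trace u = 5` imply `u = 1` (`5 x 5` complex matrices).
-/

set_option autoImplicit false
set_option linter.unusedSectionVars false
set_option linter.unusedSimpArgs false
set_option linter.unusedVariables false

namespace Pool.Agent.Lib.MP_745d3a_ag.PF.SB

open Polynomial in
private theorem F0_root_pow {n : ℕ} {u : Matrix (Fin 5) (Fin 5) ℂ} (hu : u ^ n = 1)
    {z : ℂ} (hz : z ∈ u.charpoly.roots) : z ^ n = 1 := by
  have h1 : z ∈ spectrum ℂ u := by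
    rw [Matrix.mem_spectrum_iff_isRoot_charpoly]
    exact isRoot_of_mem_roots hz
  have h2 := spectrum.pow_mem_pow u n h1
  rw [hu, spectrum.one_eq] at h2
  simpa using h2

private theorem F0_re_sum_le (s : Multiset ℂ) (h1 : ∀ z ∈ s, ‖z‖ = 1) :
    s.sum.re ≤ (Multiset.card s : ℝ) := by
  induction s using Multiset.induction_on with
  | empty => simp
  | cons a t ih =>
    have h2 := ih (fun z hz => h1 z (Multiset.mem_cons_of_mem hz))
    have h3 : a.re ≤ 1 := by
      have := Complex.re_le_norm a
      rw [h1 a (Multiset.mem_cons_self a t)] at this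
      exact this
    simp only [Multiset.sum_cons, Complex.add_re, Multiset.card_cons, Nat.cast_add, Nat.cast_one]
    linarith

private theorem F0_all_one (s : Multiset ℂ) (h1 : ∀ z ∈ s, ‖z‖ = 1)
    (h2 : s.sum = (Multiset.card s : ℂ)) : ∀ z ∈ s, z = 1 := by
  intro z hz
  obtain ⟨t, rfl⟩ := Multiset.exists_cons_of_mem hz
  have h3 := F0_re_sum_le t (fun w hw => h1 w (Multiset.mem_cons_of_mem hw))
  have h4 := congrArg Complex.re h2
  simp only [Multiset.sum_cons, Complex.add_re, Multiset.card_cons, Complex.natCast_re,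
    Nat.cast_add, Nat.cast_one, Complex.one_re] at h4
  have h5 : 1 ≤ z.re := by linarith
  have h6 := h1 z hz
  have h7 : z.re ^ 2 + z.im ^ 2 = 1 := by
    have := Complex.sq_norm z
    rw [h6, Complex.normSq_apply] at this
    nlinarith
  have h8 : z.im = 0 := by nlinarith [sq_nonneg z.im]
  have h9 : z.re = 1 := by nlinarith [sq_nonneg z.im, sq_nonneg (z.re - 1)]
  exact Complex.ext (by simpa using h9) (by simpa using h8)

open Polynomial in
theorem eq_one_of_trace {n : ℕ} (hn : 1 ≤ n) {u : Matrix (Fin 5) (Fin 5) ℂ} (hu : u ^ n = 1)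
    (ht : u.trace = 5) : u = 1 := by
  have hcard : Multiset.card u.charpoly.roots = 5 := by
    rw [IsAlgClosed.card_roots_eq_natDegree, Matrix.charpoly_natDegree_eq_dim]
    simp
  have h1 : ∀ z ∈ u.charpoly.roots, z = 1 := by
    apply F0_all_one
    · intro z hz
      exact Complex.norm_eq_one_of_pow_eq_one (F0_root_pow hu hz) (by omega)
    · rw [← Matrix.trace_eq_sum_roots_charpoly, ht, hcard]
      norm_num
  have h2 : u.charpoly.roots = Multiset.replicate 5 1 := Multiset.eq_replicate.2 ⟨hcard, h1⟩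
  have h3 : u.charpoly = (X - C 1) ^ 5 := by
    have h4 := (IsAlgClosed.splits u.charpoly).eq_prod_roots_of_monic (Matrix.charpoly_monic u)
    rw [h2, Multiset.map_replicate, Multiset.prod_replicate] at h4
    exact h4
  have h5 : minpoly ℂ u ∣ (X - C 1) ^ 5 := by
    rw [← h3]
    exact minpoly.dvd _ _ (Matrix.aeval_self_charpoly u)
  have h6 : minpoly ℂ u ∣ X ^ n - C 1 := by
    apply minpoly.dvd
    simp [hu]
  have h7 : Squarefree (X ^ n - C 1 : ℂ[X]) := by
    apply Separable.squarefree
    apply separable_X_pow_sub_C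
    · exact_mod_cast (by omega : n ≠ 0)
    · exact one_ne_zero
  have h8 : minpoly ℂ u ∣ X - C 1 :=
    ((h7.squarefree_of_dvd h6).dvd_pow_iff_dvd (by norm_num)).1 h5
  have h9 : aeval u (X - C 1 : ℂ[X]) = 0 := by
    obtain ⟨q, hq⟩ := h8
    rw [hq, map_mul, minpoly.aeval, zero_mul]
  have h10 : u - 1 = 0 := by simpa using h9
  exact sub_eq_zero.1 h10

end Pool.Agent.Lib.MP_745d3a_ag.PF.SB
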