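import Pool.Agent.Lib.MP_745d3a_ag.SB.F0

/-!
Traces of matrices of finite order: see the docstring of F0.lean (`traces_finite`).
-/

set_option autoImplicit false
set_option linter.unusedSectionVars false
set_option linter.unusedSimpArgs false
set_option linter.unusedVariables false

namespace Pool.Agent.Lib.MP_745d3a_ag.PF.SB

/-- The roots of unity of order at most `B`. -/
private noncomputable def F0b_R (B : ℕ) : Finset ℂ :=
  (Finset.Icc 1 B).biUnion fun n => (Polynomial.nthRoots n (1 : ℂ)).toFinset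

private lemma F0b_mem {B n : ℕ} (h1 : 1 ≤ n) (h2 : n ≤ B) {z : ℂ} (hz : z ^ n = 1) :
    z ∈ F0b_R B := by
  unfold F0b_R
  rw [Finset.mem_biUnion]
  refine ⟨n, Finset.mem_Icc.2 ⟨h1, h2⟩, ?_⟩
  rw [Multiset.mem_toFinset, Polynomial.mem_nthRoots (lt_of_lt_of_le zero_lt_one h1)]
  exact hz

private lemma F0b_card (B : ℕ) : (F0b_R B).card ≤ B ^ 2 := by
  unfold F0b_R
  refine Finset.card_biUnion_le.trans ?_
  have h1 : ∀ n ∈ Finset.Icc 1 B, (Polynomial.nthRoots n (1 : ℂ)).toFinset.card ≤ B := by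
    intro n hn
    exact ((Multiset.toFinset_card_le _).trans (Polynomial.card_nthRoots n 1)).trans
      (Finset.mem_Icc.1 hn).2
  refine (Finset.sum_le_card_nsmul _ _ _ h1).trans ?_
  rw [Nat.card_Icc, Nat.add_sub_cancel, smul_eq_mul, pow_two]

private lemma F0b_root {n : ℕ} {u : Matrix (Fin 5) (Fin 5) ℂ} (hu : u ^ n = 1) {z : ℂ}
    (hz : z ∈ u.charpoly.roots) : z ^ n = 1 := by
  have h1 : z ∈ spectrum ℂ u := by
    rw [Matrix.mem_spectrum_iff_isRoot_charpoly]
    exact Polynomial.isRoot_of_mem_roots hz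
  have h2 : z ^ n ∈ spectrum ℂ (u ^ n) := spectrum.pow_mem_pow u n h1
  rw [hu, spectrum.one_eq] at h2
  exact h2

theorem traces_finite (B : ℕ) : ∃ T : Finset ℂ, T.card ≤ B ^ 10 ∧
    ∀ n, 1 ≤ n → n ≤ B → ∀ u : Matrix (Fin 5) (Fin 5) ℂ, u ^ n = 1 → u.trace ∈ T := by
  classical
  refine ⟨(Fintype.piFinset fun _ : Fin 5 => F0b_R B).image fun f => ∑ i, f i, ?_, ?_⟩
  · refine Finset.card_image_le.trans ?_
    rw [Fintype.card_piFinset, Finset.prod_const, Finset.card_univ, Fintype.card_fin]
    calc (F0b_R B).card ^ 5 ≤ (B ^ 2) ^ 5 := Nat.pow_le_pow_left (F0b_card B) 5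
      _ = B ^ 10 := by rw [← pow_mul]
  · intro n h1 h2 u hu
    rw [Matrix.trace_eq_sum_roots_charpoly]
    have hcard : Multiset.card u.charpoly.roots = 5 := by
      have h3 : u.charpoly.Splits := IsAlgClosed.splits _
      have h4 := Polynomial.splits_iff_card_roots.1 h3
      rw [h4, Matrix.charpoly_natDegree_eq_dim, Fintype.card_fin]
    have hroot : ∀ z ∈ u.charpoly.roots, z ^ n = 1 := fun z hz => F0b_root hu hz
    revert hcard hroot
    generalize u.charpoly.roots = s
    induction s using Quotient.inductionOn with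
    | h l =>
      intro hcard hroot
      have hl : l.length = 5 := hcard
      rw [Finset.mem_image]
      refine ⟨fun i => l.get (Fin.cast hl.symm i), ?_, ?_⟩
      · rw [Fintype.mem_piFinset]
        intro i
        exact F0b_mem h1 h2 (hroot _ (List.get_mem _ _))
      · show ∑ i : Fin 5, l.get (Fin.cast hl.symm i) = l.sum
        have h5 : ∑ i : Fin 5, l.get (Fin.cast hl.symm i) = ∑ j : Fin l.length, l.get j :=
          Equiv.sum_comp (finCongr hl.symm) fun j => l.get j
        rw [h5]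
        exact Fin.sum_univ_getElem l

end Pool.Agent.Lib.MP_745d3a_ag.PF.SB
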