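import Pool.Agent.Lib.MP_745d3a_ag.SB.F0b

/-!
Burnside: a linear group with bounded orders is finite.

* `finite_group`: let `W` be the span of `Γ` in the `25`-dimensional space of matrices, and
  `g : Fin d → Γ`, `d ≤ 25`, a maximal independent family in `Γ` (`exists_linearIndependent`,
  `Submodule.fg`..): `Γ ⊆ span (range g)`. The map `Γ → (Fin d → T)`, `A ↦ (trace (A * g i))_i` is
  injective: if `trace (A * g i) = trace (A' * g i)` for all `i` then `trace (A * C) = trace (A' * C)` for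
  all `C ∈ span (range g)`, in particular for `C = A' ^ (n - 1) ∈ Γ`, the inverse of `A'` (`A' ^ n = 1`);
  `u = A * A' ^ (n - 1) ∈ Γ` has trace `5` and finite order, so `u = 1` (`eq_one_of_trace`) and `A = A'`.
  The number of values is at most `(B ^ 10) ^ 25` (if `B = 0` then `Γ` is empty, but `1 ∈ Γ`, so
  `B ≥ 1`, and `(B ^ 10) ^ d ≤ B ^ 250`).
* `finite_mod_scalars`: let `Γ₁ = {A ∈ Γ | det A = 1}`; for `A ∈ Γ₁` with `A ^ N = c • 1` one has
  `c ^ 5 = det A ^ N = 1`, so `A ^ (5 * N) = 1`, `5 * N ≤ 5 * B`. `finite_group` for `Γ₁`. For `A ∈ Γ` let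
  `t ^ 5 = (det A)⁻¹` (`IsAlgClosed.exists_pow_nat_eq`), then `t • A ∈ Γ₁` and `A = t⁻¹ • (t • A)`.
-/

set_option autoImplicit false
set_option linter.unusedSectionVars false
set_option linter.unusedSimpArgs false
set_option linter.unusedVariables false

namespace Pool.Agent.Lib.MP_745d3a_ag.PF.SB

private theorem F1_pow_mem {Γ : Set (Matrix (Fin 5) (Fin 5) ℂ)} (h1 : 1 ∈ Γ)
    (hmul : ∀ A ∈ Γ, ∀ A' ∈ Γ, A * A' ∈ Γ) {A : Matrix (Fin 5) (Fin 5) ℂ} (hA : A ∈ Γ) (k : ℕ) :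
    A ^ k ∈ Γ := by
  induction k with
  | zero => rw [pow_zero]; exact h1
  | succ k ih => rw [pow_succ]; exact hmul _ ih _ hA

private theorem F1_trace_span {s : Set (Matrix (Fin 5) (Fin 5) ℂ)} {A A' : Matrix (Fin 5) (Fin 5) ℂ}
    (h : ∀ C ∈ s, (A * C).trace = (A' * C).trace) {C : Matrix (Fin 5) (Fin 5) ℂ}
    (hC : C ∈ Submodule.span ℂ s) : (A * C).trace = (A' * C).trace := by
  induction hC using Submodule.span_induction with
  | mem x hx => exact h x hx
  | zero => rw [mul_zero, mul_zero]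
  | add x y _ _ hx hy => rw [mul_add, mul_add, Matrix.trace_add, Matrix.trace_add, hx, hy]
  | smul a x _ hx => rw [mul_smul_comm, mul_smul_comm, Matrix.trace_smul, Matrix.trace_smul, hx]

theorem finite_group {B : ℕ} (Γ : Set (Matrix (Fin 5) (Fin 5) ℂ)) (h1 : 1 ∈ Γ)
    (hmul : ∀ A ∈ Γ, ∀ A' ∈ Γ, A * A' ∈ Γ)
    (hord : ∀ A ∈ Γ, ∃ n : ℕ, 1 ≤ n ∧ n ≤ B ∧ A ^ n = 1) :
    ∃ F : Finset (Matrix (Fin 5) (Fin 5) ℂ), (F : Set (Matrix (Fin 5) (Fin 5) ℂ)) = Γ ∧
      F.card ≤ B ^ 250 := by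
  classical
  have hB : 1 ≤ B := by
    obtain ⟨n, hn1, hn2, -⟩ := hord 1 h1
    exact hn1.trans hn2
  obtain ⟨T, hTc, hT⟩ := traces_finite B
  obtain ⟨b, hbΓ, hspan, hli⟩ := exists_linearIndependent ℂ Γ
  have hbfin : Finite b := hli.finite
  have : Fintype b := Fintype.ofFinite b
  have hcard : Fintype.card b ≤ 25 := by
    have h := hli.fintype_card_le_finrank
    rw [Module.finrank_matrix] at h
    simpa using h
  let f : Matrix (Fin 5) (Fin 5) ℂ → (b → ℂ) := fun A i => (A * (i : Matrix (Fin 5) (Fin 5) ℂ)).trace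
  have hmaps : ∀ A ∈ Γ, f A ∈ Fintype.piFinset (fun _ : b => T) := by
    intro A hA
    rw [Fintype.mem_piFinset]
    intro i
    have hAi : A * (i : Matrix (Fin 5) (Fin 5) ℂ) ∈ Γ := hmul _ hA _ (hbΓ i.2)
    obtain ⟨n, hn1, hn2, hn⟩ := hord _ hAi
    exact hT n hn1 hn2 _ hn
  have hinj : Set.InjOn f Γ := by
    intro A hA A' hA' hf
    obtain ⟨n, hn1, hn2, hn⟩ := hord A' hA'
    have hC : A' ^ (n - 1) ∈ Γ := F1_pow_mem h1 hmul hA' _
    have hCs : A' ^ (n - 1) ∈ Submodule.span ℂ b := by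
      rw [hspan]
      exact Submodule.subset_span hC
    have htr : (A * A' ^ (n - 1)).trace = (A' * A' ^ (n - 1)).trace :=
      F1_trace_span (fun C hC => congrFun hf ⟨C, hC⟩) hCs
    have hone : A' * A' ^ (n - 1) = 1 := by
      rw [← pow_succ', Nat.sub_add_cancel hn1, hn]
    have hone' : A' ^ (n - 1) * A' = 1 := by
      rw [← pow_succ, Nat.sub_add_cancel hn1, hn]
    rw [hone, Matrix.trace_one] at htr
    obtain ⟨k, hk1, hk2, hk⟩ := hord _ (hmul _ hA _ hC)
    have hu : A * A' ^ (n - 1) = 1 := by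
      refine eq_one_of_trace hk1 hk ?_
      rw [htr]
      simp
    calc A = A * (A' ^ (n - 1) * A') := by rw [hone', mul_one]
      _ = (A * A' ^ (n - 1)) * A' := by rw [mul_assoc]
      _ = A' := by rw [hu, one_mul]
  have hfin : Γ.Finite := by
    refine Set.Finite.of_finite_image ?_ hinj
    refine (Finset.finite_toSet (Fintype.piFinset (fun _ : b => T))).subset ?_
    rintro _ ⟨A, hA, rfl⟩
    exact hmaps A hA
  refine ⟨hfin.toFinset, hfin.coe_toFinset, ?_⟩
  have hle : hfin.toFinset.card ≤ (Fintype.piFinset (fun _ : b => T)).card := by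
    refine Finset.card_le_card_of_injOn f ?_ ?_
    · intro A hA
      exact hmaps A (by simpa using hA)
    · rw [hfin.coe_toFinset]
      exact hinj
  refine hle.trans ?_
  rw [Fintype.card_piFinset, Finset.prod_const, Finset.card_univ]
  calc T.card ^ Fintype.card b ≤ (B ^ 10) ^ Fintype.card b := Nat.pow_le_pow_left hTc _
    _ ≤ (B ^ 10) ^ 25 := Nat.pow_le_pow_right (Nat.pow_pos hB) hcard
    _ = B ^ 250 := by rw [← pow_mul]

end Pool.Agent.Lib.MP_745d3a_ag.PF.SB
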