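import Pool.Agent.Lib.MP_745d3a_ag.SB.F1

/-!
Finiteness modulo scalars: see the docstring of F1.lean (`finite_mod_scalars`).
-/

set_option autoImplicit false
set_option linter.unusedSectionVars false
set_option linter.unusedSimpArgs false
set_option linter.unusedVariables false

namespace Pool.Agent.Lib.MP_745d3a_ag.PF.SB

theorem finite_mod_scalars {B : ℕ} (Γ : Set (Matrix (Fin 5) (Fin 5) ℂ)) (h1 : 1 ∈ Γ)
    (hmul : ∀ A ∈ Γ, ∀ A' ∈ Γ, A * A' ∈ Γ) (hsc : ∀ A ∈ Γ, ∀ c : ℂ, c ≠ 0 → c • A ∈ Γ)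
    (hdet : ∀ A ∈ Γ, IsUnit A.det)
    (hord : ∀ A ∈ Γ, ∃ N : ℕ, 1 ≤ N ∧ N ≤ B ∧ ∃ c : ℂ, A ^ N = c • (1 : Matrix _ _ ℂ)) :
    ∃ F : Finset (Matrix (Fin 5) (Fin 5) ℂ), (∀ A ∈ F, A ∈ Γ ∧ A.det = 1) ∧
      F.card ≤ (5 * B) ^ 250 ∧ ∀ A ∈ Γ, ∃ A' ∈ F, ∃ c : ℂ, A = c • A' := by
  classical
  obtain ⟨F, hF, hc⟩ := finite_group (B := 5 * B) {A | A ∈ Γ ∧ A.det = 1}
    ⟨h1, Matrix.det_one⟩
    (fun A hA A' hA' => ⟨hmul _ hA.1 _ hA'.1, by rw [Matrix.det_mul, hA.2, hA'.2, mul_one]⟩)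
    (fun A hA => by
      obtain ⟨N, hN1, hN2, c, hc⟩ := hord A hA.1
      refine ⟨5 * N, by omega, by omega, ?_⟩
      have hd : c ^ 5 = 1 := by
        have h := congrArg Matrix.det hc
        rw [Matrix.det_pow, hA.2, one_pow, Matrix.det_smul, Matrix.det_one, mul_one,
          Fintype.card_fin] at h
        exact h.symm
      rw [mul_comm 5 N, pow_mul, hc, smul_pow, one_pow, hd, one_smul])
  have hmem : ∀ A, A ∈ F ↔ A ∈ Γ ∧ A.det = 1 := by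
    intro A
    have : A ∈ (F : Set (Matrix (Fin 5) (Fin 5) ℂ)) ↔ A ∈ {A | A ∈ Γ ∧ A.det = 1} := by rw [hF]
    simpa using this
  refine ⟨F, fun A hA => (hmem A).1 hA, hc, ?_⟩
  intro A hA
  have hdA : A.det ≠ 0 := (hdet A hA).ne_zero
  obtain ⟨t, ht⟩ := IsAlgClosed.exists_pow_nat_eq (A.det)⁻¹ (n := 5) (by norm_num)
  have ht0 : t ≠ 0 := by
    rintro rfl
    rw [zero_pow (by norm_num)] at ht
    exact inv_ne_zero hdA ht.symm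
  refine ⟨t • A, (hmem _).2 ⟨hsc A hA t ht0, ?_⟩, t⁻¹, ?_⟩
  · rw [Matrix.det_smul, Fintype.card_fin, ht, inv_mul_cancel₀ hdA]
  · rw [smul_smul, inv_mul_cancel₀ ht0, one_smul]

end Pool.Agent.Lib.MP_745d3a_ag.PF.SB
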