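import Pool.Agent.Lib.MP_745d3a_ag.SB.Defs

/-!
Operators which are scalar on the generalised eigenspaces.

* `exists_scal`: the generalised eigenspaces are independent
  (`Module.End.independent_maxGenEigenspace`) and span `V` (`hΦ`): `DirectSum.IsInternal`
  (`DirectSum.isInternal_submodule_iff_iSupIndep_and_iSup_eq_top`), so one can define `T` on the
  direct sum (`DirectSum.toModule` and `LinearEquiv.ofBijective`/`DirectSum.IsInternal`), or choose a
  basis adapted to the decomposition (`DirectSum.IsInternal.collectedBasis`).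
* `scal_comm`: `ε` maps `maxGenEigenspace Φ μ` to itself
  (`Module.End.mapsTo_maxGenEigenspace_of_comm` or by hand: `(Φ - μ) ^ k (ε v) = ε ((Φ - μ) ^ k v)`);
  every vector is a sum of generalised eigenvectors: `Submodule.iSup_induction`.
* `scal_inj`: `T` commutes with `Φ`. If `T v = 0`, write `v = ∑ v_μ`; `∑ c μ • v_μ = 0` gives
  `c μ • v_μ = 0` for all `μ` (independence). Easier: let `T'` be given by `exists_scal` for
  `fun μ => (c μ)⁻¹`; then `T' (T v) = v` for the generalised eigenvectors with `c μ ≠ 0`, and the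
  space for `μ = 0` is zero because `Φ` is injective (`Φ ^ k v = 0` implies `v = 0`).
* `diag_of_scal`: `T v = c μ • v` for a generalised eigenvector `v`.
* `unip_of_scal`: for `v ∈ maxGenEigenspace Φ μ`, `μ ≠ 0`: `(Φ ∘ T - 1) v = μ⁻¹ • (Φ v - μ • v)`, and
  this is again in the same space, so `(Φ ∘ T - 1) ^ k v = (μ⁻¹) ^ k • (Φ - μ) ^ k v = 0`. Sums of
  vectors killed by powers are killed by the larger power. For `μ = 0` the space is zero.
-/

set_option autoImplicit false
set_option linter.unusedSectionVars false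
set_option linter.unusedSimpArgs false
set_option linter.unusedVariables false

namespace Pool.Agent.Lib.MP_745d3a_ag.PF.SB

section

variable {K V : Type*} [Field K] [AddCommGroup V] [Module K V] {Φ : V →ₗ[K] V}

/-- `T` is multiplication by `c μ` on the generalised eigenspace of `μ`. -/
def Scal (Φ T : V →ₗ[K] V) (c : K → K) : Prop :=
  ∀ μ, ∀ v ∈ Module.End.maxGenEigenspace (Φ : Module.End K V) μ, T v = c μ • v

theorem exists_scal (hΦ : GenK Φ) (c : K → K) : ∃ T : V →ₗ[K] V, Scal Φ T c := by
  classical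
  let A : K → Submodule K V := fun μ => Module.End.maxGenEigenspace (Φ : Module.End K V) μ
  have hint : DirectSum.IsInternal A := by
    rw [DirectSum.isInternal_submodule_iff_iSupIndep_and_iSup_eq_top]
    exact ⟨Module.End.independent_maxGenEigenspace _, hΦ⟩
  let e : DirectSum K (fun μ => A μ) ≃ₗ[K] V :=
    LinearEquiv.ofBijective (DirectSum.coeLinearMap A) hint
  let g : DirectSum K (fun μ => A μ) →ₗ[K] V :=
    DirectSum.toModule K K V (fun μ => c μ • (A μ).subtype)
  refine ⟨g ∘ₗ e.symm.toLinearMap, ?_⟩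
  intro μ v hv
  have h1 : e (DirectSum.lof K K (fun μ => A μ) μ ⟨v, hv⟩) = v := by
    change DirectSum.coeLinearMap A (DirectSum.lof K K (fun μ => A μ) μ ⟨v, hv⟩) = v
    rw [DirectSum.coeLinearMap_lof]
  have h2 : e.symm v = DirectSum.lof K K (fun μ => A μ) μ ⟨v, hv⟩ := by
    rw [LinearEquiv.symm_apply_eq, h1]
  have h3 : g (e.symm v) = c μ • v := by
    rw [h2]
    change DirectSum.toModule K K V (fun μ => c μ • (A μ).subtype)
      (DirectSum.lof K K (fun μ => A μ) μ ⟨v, hv⟩) = c μ • v
    rw [DirectSum.toModule_lof]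
    rfl
  exact h3

theorem scal_comm (hΦ : GenK Φ) {T : V →ₗ[K] V} {c : K → K} (hT : Scal Φ T c) {ε : V →ₗ[K] V}
    (hε : ∀ v, ε (Φ v) = Φ (ε v)) (v : V) : ε (T v) = T (ε v) := by
  have hv : v ∈ ⨆ μ : K, Module.End.maxGenEigenspace (Φ : Module.End K V) μ := by
    have h : (⨆ μ : K, Module.End.maxGenEigenspace (Φ : Module.End K V) μ) = ⊤ := hΦ
    rw [h]
    exact Submodule.mem_top
  have hcomm : Commute (Φ : Module.End K V) (ε : Module.End K V) := by
    refine LinearMap.ext fun w => ?_
    exact (hε w).symm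
  refine Submodule.iSup_induction (fun μ : K => Module.End.maxGenEigenspace (Φ : Module.End K V) μ)
    (motive := fun v => ε (T v) = T (ε v)) hv ?_ ?_ ?_
  · intro μ w hw
    have hw' : ε w ∈ Module.End.maxGenEigenspace (Φ : Module.End K V) μ :=
      Module.End.mapsTo_maxGenEigenspace_of_comm hcomm μ hw
    rw [hT μ w hw, hT μ (ε w) hw', map_smul]
  · simp
  · intro w1 w2 h1 h2
    simp only [map_add, h1, h2]

end

end Pool.Agent.Lib.MP_745d3a_ag.PF.SB
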