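import Pool.Agent.Lib.MP_745d3a_ag.SB.I1

/-!
Operators which are scalar on the generalised eigenspaces, second part: see the docstring of I1.lean
(`scal_inj`, `diag_of_scal`, `unip_of_scal`).
-/

set_option autoImplicit false
set_option linter.unusedSectionVars false
set_option linter.unusedSimpArgs false
set_option linter.unusedVariables false

namespace Pool.Agent.Lib.MP_745d3a_ag.PF.SB

section

variable {K V : Type*} [Field K] [AddCommGroup V] [Module K V] {Φ : V →ₗ[K] V}

theorem I1b_zero (hinj : Function.Injective Φ) {v : V}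
    (hv : v ∈ Module.End.maxGenEigenspace (Φ : Module.End K V) 0) : v = 0 := by
  rw [Module.End.mem_maxGenEigenspace] at hv
  obtain ⟨k, hk⟩ := hv
  rw [zero_smul, sub_zero] at hk
  induction k with
  | zero => simpa using hk
  | succ k ih =>
    apply ih
    apply hinj
    rw [map_zero, ← hk, pow_succ', Module.End.mul_apply]

theorem I1b_ind (hΦ : GenK Φ) {P : V → Prop}
    (h1 : ∀ μ, ∀ v ∈ Module.End.maxGenEigenspace (Φ : Module.End K V) μ, P v) (h0 : P 0)
    (hadd : ∀ v w, P v → P w → P (v + w)) (v : V) : P v := by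
  have hv : v ∈ ⨆ μ : K, Module.End.maxGenEigenspace (Φ : Module.End K V) μ := by
    rw [hΦ]; exact Submodule.mem_top
  exact Submodule.iSup_induction _ (motive := P) hv h1 h0 hadd

theorem scal_inj (hΦ : GenK Φ) (hinj : Function.Injective Φ) {T : V →ₗ[K] V} {c : K → K}
    (hT : Scal Φ T c) (hc : ∀ μ, μ ≠ 0 → c μ ≠ 0) : Function.Injective T := by
  obtain ⟨T', hT'⟩ := exists_scal hΦ (fun μ => (c μ)⁻¹)
  have h : ∀ v, T' (T v) = v := by
    refine I1b_ind hΦ ?_ ?_ ?_
    · intro μ v hv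
      by_cases hμ : μ = 0
      · subst hμ
        rw [I1b_zero hinj hv, map_zero, map_zero]
      · rw [hT μ v hv, map_smul, hT' μ v hv, smul_smul, mul_inv_cancel₀ (hc μ hμ), one_smul]
    · rw [map_zero, map_zero]
    · intro v w hv hw
      rw [map_add, map_add, hv, hw]
  intro v w hvw
  rw [← h v, ← h w, hvw]

theorem diag_of_scal (hΦ : GenK Φ) {T : V →ₗ[K] V} {c : K → K} (hT : Scal Φ T c) : DiagK T := by
  unfold DiagK
  rw [eq_top_iff]
  intro v _
  refine I1b_ind hΦ (P := fun v => v ∈ ⨆ μ : K, Module.End.eigenspace (T : Module.End K V) μ)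
    ?_ ?_ ?_ v
  · intro μ v hv
    refine Submodule.mem_iSup_of_mem (c μ) ?_
    rw [Module.End.mem_eigenspace_iff]
    exact hT μ v hv
  · exact Submodule.zero_mem _
  · intro v w hv hw
    exact Submodule.add_mem _ hv hw

theorem I1b_pow {T : V →ₗ[K] V} (hT : Scal Φ T (fun μ => μ⁻¹)) {μ : K} (hμ : μ ≠ 0) (k : ℕ) :
    ∀ v ∈ Module.End.maxGenEigenspace (Φ : Module.End K V) μ,
    (((Φ ∘ₗ T) - LinearMap.id : V →ₗ[K] V) ^ k) v
      = (μ⁻¹) ^ k • (((Φ : Module.End K V) - μ • (1 : Module.End K V)) ^ k) v := by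
  induction k with
  | zero => intro v _; simp
  | succ k ih =>
    intro v hv
    have h1 : ((Φ ∘ₗ T) - LinearMap.id : V →ₗ[K] V) v
        = μ⁻¹ • ((Φ : Module.End K V) - μ • (1 : Module.End K V)) v := by
      rw [LinearMap.sub_apply, LinearMap.comp_apply, LinearMap.id_apply, hT μ v hv,
        LinearMap.sub_apply, LinearMap.smul_apply, Module.End.one_apply, map_smul, smul_sub,
        smul_smul, inv_mul_cancel₀ hμ, one_smul]
    have h2 : ((Φ : Module.End K V) - μ • (1 : Module.End K V)) v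
        ∈ Module.End.maxGenEigenspace (Φ : Module.End K V) μ := by
      rw [Module.End.mem_maxGenEigenspace] at hv ⊢
      obtain ⟨l, hl⟩ := hv
      refine ⟨l, ?_⟩
      rw [← Module.End.mul_apply, ← pow_succ, pow_succ', Module.End.mul_apply, hl, map_zero]
    rw [pow_succ, Module.End.mul_apply, h1, map_smul, ih _ h2, pow_succ, pow_succ (_ - _),
      Module.End.mul_apply, smul_smul, mul_comm (μ⁻¹)]

theorem unip_of_scal (hΦ : GenK Φ) (hinj : Function.Injective Φ) {T : V →ₗ[K] V}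
    (hT : Scal Φ T (fun μ => μ⁻¹)) : Unip (Φ ∘ₗ T) := by
  refine I1b_ind hΦ ?_ ?_ ?_
  · intro μ v hv
    by_cases hμ : μ = 0
    · subst hμ
      rw [I1b_zero hinj hv]
      exact ⟨0, map_zero _⟩
    · obtain ⟨k, hk⟩ := (Module.End.mem_maxGenEigenspace _ _ _).mp hv
      refine ⟨k, ?_⟩
      rw [I1b_pow hT hμ k v hv, hk, smul_zero]
  · exact ⟨0, map_zero _⟩
  · rintro v w ⟨k, hk⟩ ⟨l, hl⟩
    refine ⟨k + l, ?_⟩
    rw [map_add]
    have h1 : (((Φ ∘ₗ T) - LinearMap.id : V →ₗ[K] V) ^ (k + l)) v = 0 := by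
      rw [add_comm k l, pow_add, Module.End.mul_apply, hk, map_zero]
    have h2 : (((Φ ∘ₗ T) - LinearMap.id : V →ₗ[K] V) ^ (k + l)) w = 0 := by
      rw [pow_add, Module.End.mul_apply, hl, map_zero]
    rw [h1, h2, add_zero]

end

end Pool.Agent.Lib.MP_745d3a_ag.PF.SB
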