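import Pool.Agent.Lib.MP_745d3a_ag.SB.I1b

/-!
The Jordan parts of a semilinear map are semilinear.

* `gen_smul_mul`: `Φ (a • v) - (α * μ) • (a • v) = (G a - α • a) • Φ v + (α • a) • (Φ v - μ • v)`. By
  induction on `k + l`: if `(G - α) ^ k a = 0` and `(Φ - μ) ^ l v = 0` then
  `(Φ - α * μ) ^ (k + l) (a • v) = 0` (`Φ v` is also killed by `(Φ - μ) ^ l`).
  Compare `GA.gen_smul` (GA/B1.lean).
* `scal_sl`: for generalised eigenvectors `a`, `v` of eigenvalues `α`, `μ`:
  `T₂ (a • v) = c (α * μ) • (a • v) = T₁ a • T₂ v`; in general both sides are additive in `a` and `v`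
  (`Submodule.iSup_induction` twice).
* `sl_comp`.
-/

set_option autoImplicit false
set_option linter.unusedSectionVars false
set_option linter.unusedSimpArgs false
set_option linter.unusedVariables false

namespace Pool.Agent.Lib.MP_745d3a_ag.PF.SB

section

variable {K S V : Type*} [Field K] [CommRing S] [Algebra K S] [AddCommGroup V] [Module K V]
  [Module S V] [IsScalarTower K S V] {G : S →ₗ[K] S} {Φ : V →ₗ[K] V}

private theorem I2_aux (h : SL G Φ) (α μ : K) : ∀ (n k l : ℕ) (a : S) (v : V), k + l = n →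
    (((G : Module.End K S) - α • (1 : Module.End K S)) ^ k) a = 0 →
    (((Φ : Module.End K V) - μ • (1 : Module.End K V)) ^ l) v = 0 →
    (((Φ : Module.End K V) - (α * μ) • (1 : Module.End K V)) ^ n) (a • v) = 0 := by
  intro n
  induction n with
  | zero =>
    intro k l a v hkl ha hv
    have hk : k = 0 := by omega
    subst hk
    have ha' : a = 0 := by simpa using ha
    rw [ha', zero_smul, map_zero]
  | succ n ih =>
    intro k l a v hkl ha hv
    rcases Nat.eq_zero_or_pos k with hk | hk
    · subst hk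
      have ha' : a = 0 := by simpa using ha
      rw [ha', zero_smul, map_zero]
    rcases Nat.eq_zero_or_pos l with hl | hl
    · subst hl
      have hv' : v = 0 := by simpa using hv
      rw [hv', smul_zero, map_zero]
    obtain ⟨k', rfl⟩ : ∃ k', k = k' + 1 := ⟨k - 1, by omega⟩
    obtain ⟨l', rfl⟩ : ∃ l', l = l' + 1 := ⟨l - 1, by omega⟩
    have e1 : ((Φ : Module.End K V) - (α * μ) • (1 : Module.End K V)) (a • v) =
        (G a - α • a) • Φ v + (α • a) • (Φ v - μ • v) := by
      have h0 : Φ (a • v) = G a • Φ v := h a v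
      rw [LinearMap.sub_apply, LinearMap.smul_apply, Module.End.one_apply, h0, sub_smul, smul_sub,
        smul_assoc α a (Φ v), smul_assoc α a (μ • v), smul_comm a μ v, mul_smul]
      abel
    rw [pow_succ, Module.End.mul_apply, e1, map_add]
    have a1 : (((G : Module.End K S) - α • (1 : Module.End K S)) ^ k') (G a - α • a) = 0 := by
      rw [pow_succ, Module.End.mul_apply] at ha
      exact ha
    have v1 : (((Φ : Module.End K V) - μ • (1 : Module.End K V)) ^ l') (Φ v - μ • v) = 0 := by
      rw [pow_succ, Module.End.mul_apply] at hv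
      exact hv
    have v2 : (((Φ : Module.End K V) - μ • (1 : Module.End K V)) ^ (l' + 1)) (Φ v) = 0 := by
      have hcomm : Commute (((Φ : Module.End K V) - μ • (1 : Module.End K V)) ^ (l' + 1))
          (Φ : Module.End K V) := by
        refine Commute.pow_left ?_ _
        exact (Commute.refl _).sub_left ((Commute.one_left _).smul_left μ)
      have := congrArg (fun f : Module.End K V => f v) hcomm.eq
      simp only [Module.End.mul_apply] at this
      rw [this, hv, map_zero]
    have a2 : (((G : Module.End K S) - α • (1 : Module.End K S)) ^ (k' + 1)) (α • a) = 0 := by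
      rw [map_smul, ha, smul_zero]
    rw [ih k' (l' + 1) _ _ (by omega) a1 v2, ih (k' + 1) l' _ _ (by omega) a2 v1, add_zero]

theorem gen_smul_mul (h : SL G Φ) {a : S} {v : V} {α μ : K}
    (ha : a ∈ Module.End.maxGenEigenspace (G : Module.End K S) α)
    (hv : v ∈ Module.End.maxGenEigenspace (Φ : Module.End K V) μ) :
    a • v ∈ Module.End.maxGenEigenspace (Φ : Module.End K V) (α * μ) := by
  rw [Module.End.mem_maxGenEigenspace] at ha hv ⊢
  obtain ⟨k, hk⟩ := ha
  obtain ⟨l, hl⟩ := hv
  exact ⟨k + l, I2_aux h α μ (k + l) k l a v rfl hk hl⟩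

theorem scal_sl (h : SL G Φ) (hG : GenK G) (hΦ : GenK Φ) {T₁ : S →ₗ[K] S} {T₂ : V →ₗ[K] V}
    {c : K → K} (h₁ : Scal G T₁ c) (h₂ : Scal Φ T₂ c) (hc : ∀ α μ, c (α * μ) = c α * c μ) :
    SL T₁ T₂ := by
  intro a v
  have ha : a ∈ ⨆ μ : K, Module.End.maxGenEigenspace (G : Module.End K S) μ := by
    rw [show (⨆ μ : K, Module.End.maxGenEigenspace (G : Module.End K S) μ) = ⊤ from hG]; trivial
  have hv : v ∈ ⨆ μ : K, Module.End.maxGenEigenspace (Φ : Module.End K V) μ := by
    rw [show (⨆ μ : K, Module.End.maxGenEigenspace (Φ : Module.End K V) μ) = ⊤ from hΦ]; trivial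
  induction ha using Submodule.iSup_induction' with
  | zero => rw [zero_smul, map_zero, map_zero, zero_smul]
  | add a b _ _ iha ihb => rw [add_smul, map_add, map_add, add_smul, iha, ihb]
  | mem α a ha =>
    induction hv using Submodule.iSup_induction' with
    | zero => rw [smul_zero, map_zero, smul_zero]
    | add v w _ _ ihv ihw => rw [smul_add, map_add, map_add, smul_add, ihv, ihw]
    | mem μ v hv =>
      rw [h₂ _ _ (gen_smul_mul h ha hv), h₁ _ _ ha, h₂ _ _ hv, hc, smul_assoc, smul_comm a (c μ) v,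
        mul_smul]

theorem sl_comp (h : SL G Φ) {G' : S →ₗ[K] S} {Φ' : V →ₗ[K] V} (h' : SL G' Φ') :
    SL (G ∘ₗ G') (Φ ∘ₗ Φ') := by
  intro a v
  rw [LinearMap.comp_apply, LinearMap.comp_apply, LinearMap.comp_apply, h' a v, h]

end

end Pool.Agent.Lib.MP_745d3a_ag.PF.SB
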