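import Pool.Agent.Lib.MP_745d3a_ag.SB.Defs

/-!
Polynomial functions of a natural number with values in a vector space.

* `polyFun_unique`: the difference `d` of the two coefficient functions satisfies
  `∑ k, n ^ k • d k = 0` for all `n`. For a linear functional `θ : V → K` the polynomial
  `∑ k, θ (d k) X ^ k` has all natural numbers as roots, so it is zero
  (`Polynomial.eq_zero_of_infinite_isRoot`, `Nat.cast_injective`); all functionals vanish on `d k`:
  `Module.forall_dual_apply_eq_zero_iff` (or `Module.dual_separatingLeft..`).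
* `polyFun_smul`: the coefficients of the product are `c'' k = ∑ i + j = k, c i • c' j`.
* `polyFun_pow`: `Φ ^ n v = ∑ k ≤ m, (n choose k) • (Φ - 1) ^ k v`, `m` such that
  `(Φ - 1) ^ (m + 1) v = 0` (`Commute.add_pow`/`add_pow` for `Φ = (Φ - 1) + 1`; terms with `k > m`
  vanish, terms with `k > n` have coefficient zero), and `n choose k` is a polynomial in `n` with
  coefficients in `K` (`descPochhammer`, `Nat.choose`; or by induction on `k` show that
  `n ↦ (n choose k : K)` is a `PolyFun`: `(k + 1) * (n choose (k + 1)) = (n choose k) * (n - k)`).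
-/

set_option autoImplicit false
set_option linter.unusedSectionVars false
set_option linter.unusedSimpArgs false
set_option linter.unusedVariables false

namespace Pool.Agent.Lib.MP_745d3a_ag.PF.SB

section

variable {K : Type*} [Field K] [CharZero K]

/-- `f n = ∑ k, n ^ k • c k`. -/
def PolyFun (K : Type*) [Field K] {V : Type*} [AddCommGroup V] [Module K V] (f : ℕ → V)
    (c : ℕ →₀ V) : Prop := ∀ n : ℕ, f n = c.sum fun k v => ((n : K) ^ k) • v

private theorem I3_coeff {V : Type*} [AddCommGroup V] [Module K V] (d : ℕ →₀ V) (θ : V →ₗ[K] K)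
    (m : ℕ) : (d.sum fun k v => Polynomial.monomial k (θ v)).coeff m = θ (d m) := by
  rw [Finsupp.sum, Polynomial.finsetSum_coeff]
  simp only [Polynomial.coeff_monomial]
  rw [Finset.sum_ite_eq']
  by_cases hm : m ∈ d.support
  · rw [if_pos hm]
  · rw [if_neg hm, Finsupp.notMem_support_iff.mp hm, map_zero]

private theorem I3_zero {V : Type*} [AddCommGroup V] [Module K V] (d : ℕ →₀ V)
    (h : ∀ n : ℕ, (d.sum fun k v => ((n : K) ^ k) • v) = 0) : d = 0 := by
  ext k
  rw [Finsupp.zero_apply, ← Module.forall_dual_apply_eq_zero_iff K]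
  intro θ
  have hP : (d.sum fun k v => Polynomial.monomial k (θ v)) = 0 := by
    apply Polynomial.eq_zero_of_infinite_isRoot
    refine Set.Infinite.mono (s := Set.range (fun n : ℕ => (n : K))) ?_
      (Set.infinite_range_of_injective Nat.cast_injective)
    rintro _ ⟨n, rfl⟩
    change Polynomial.eval _ _ = 0
    have h2 := congrArg θ (h n)
    rw [map_zero, Finsupp.sum, map_sum] at h2
    rw [Finsupp.sum, Polynomial.eval_finsetSum]
    rw [← h2]
    refine Finset.sum_congr rfl fun i _ => ?_
    rw [Polynomial.eval_monomial, map_smul, smul_eq_mul, mul_comm]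
  rw [← I3_coeff d θ k, hP, Polynomial.coeff_zero]

theorem polyFun_unique {V : Type*} [AddCommGroup V] [Module K V] {f : ℕ → V} {c c' : ℕ →₀ V}
    (h : PolyFun K f c) (h' : PolyFun K f c') : c = c' := by
  rw [← sub_eq_zero]
  apply I3_zero (K := K)
  intro n
  rw [Finsupp.sum_sub_index (fun k v w => smul_sub _ v w), ← h n, ← h' n, sub_self]

theorem polyFun_smul {S V : Type*} [CommRing S] [Algebra K S] [AddCommGroup V] [Module K V]
    [Module S V] [IsScalarTower K S V] {f : ℕ → S} {g : ℕ → V} {c : ℕ →₀ S} {c' : ℕ →₀ V}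
    (h : PolyFun K f c) (h' : PolyFun K g c') :
    ∃ c'' : ℕ →₀ V, PolyFun K (fun n => f n • g n) c'' ∧
      c'' 1 = c 1 • c' 0 + c 0 • c' 1 := by
  have : SMulCommClass K S V := IsScalarTower.to_smulCommClass
  refine ⟨c.sum fun i a => c'.sum fun j v => Finsupp.single (i + j) (a • v), ?_, ?_⟩
  · intro n
    change f n • g n = _
    rw [h n, h' n, Finsupp.sum_sum_index (fun _ => smul_zero _) (fun _ _ _ => smul_add _ _ _)]
    rw [Finsupp.sum, Finset.sum_smul, Finsupp.sum]
    refine Finset.sum_congr rfl fun i _ => ?_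
    change _ = Finsupp.sum (c'.sum fun j v => Finsupp.single (i + j) (c i • v)) _
    rw [Finsupp.sum_sum_index (fun _ => smul_zero _) (fun _ _ _ => smul_add _ _ _)]
    rw [Finset.smul_sum, Finsupp.sum]
    refine Finset.sum_congr rfl fun j _ => ?_
    rw [Finsupp.sum_single_index]
    · rw [pow_add, smul_assoc, smul_comm (c i), ← mul_smul]
    · exact smul_zero _
  · rw [Finsupp.sum_apply]
    have h1 : ∀ (i : ℕ) (a : S), (c'.sum fun j v => Finsupp.single (i + j) (a • v)) 1 =
        (if 0 = i then a • c' 1 else 0) + (if 1 = i then a • c' 0 else 0) := by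
      intro i a
      rw [Finsupp.sum_apply]
      simp only [Finsupp.single_apply]
      rcases i with _ | _ | i
      · have : (c'.sum fun j v => if 0 + j = 1 then a • v else 0) = a • c' 1 := by
          have e : (fun (j : ℕ) (v : V) => if 0 + j = 1 then a • v else 0) =
              fun j v => if j = 1 then a • v else 0 := by
            funext j v
            simp
          rw [e, Finsupp.sum, Finset.sum_ite_eq']
          by_cases hm : 1 ∈ c'.support
          · rw [if_pos hm]
          · rw [if_neg hm, Finsupp.notMem_support_iff.mp hm, smul_zero]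
        rw [this]
        simp
      · have : (c'.sum fun j v => if 0 + 1 + j = 1 then a • v else 0) = a • c' 0 := by
          have e : (fun (j : ℕ) (v : V) => if 0 + 1 + j = 1 then a • v else 0) =
              fun j v => if j = 0 then a • v else 0 := by
            funext j v
            simp
          rw [e, Finsupp.sum, Finset.sum_ite_eq']
          by_cases hm : 0 ∈ c'.support
          · rw [if_pos hm]
          · rw [if_neg hm, Finsupp.notMem_support_iff.mp hm, smul_zero]
        rw [this]
        simp
      · have e : (fun (j : ℕ) (v : V) => if i + 1 + 1 + j = 1 then a • v else 0) =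
            fun j v => 0 := by
          funext j v
          rw [if_neg (by omega)]
        rw [e, if_neg (by omega), if_neg (by omega), add_zero]
        exact Finset.sum_const_zero
    simp only [h1]
    rw [Finsupp.sum_add]
    rw [add_comm]
    congr 1
    · rw [Finsupp.sum, Finset.sum_ite_eq]
      by_cases hm : 1 ∈ c.support
      · rw [if_pos hm]
      · rw [if_neg hm, Finsupp.notMem_support_iff.mp hm, zero_smul]
    · rw [Finsupp.sum, Finset.sum_ite_eq]
      by_cases hm : 0 ∈ c.support
      · rw [if_pos hm]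
      · rw [if_neg hm, Finsupp.notMem_support_iff.mp hm, zero_smul]

private theorem I3_poly {V : Type*} [AddCommGroup V] [Module K V] (P : Polynomial K) (v : V) :
    PolyFun K (fun n => P.eval (n : K) • v) (P.sum fun e a => Finsupp.single e (a • v)) := by
  intro n
  change P.eval (n : K) • v = _
  rw [Polynomial.eval_eq_sum, Polynomial.sum, Polynomial.sum, Finset.sum_smul,
    ← Finsupp.sum_finsetSum_index (fun _ => smul_zero _) (fun _ _ _ => smul_add _ _ _)]
  refine Finset.sum_congr rfl fun i _ => ?_
  rw [Finsupp.sum_single_index]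
  · rw [← mul_smul, mul_comm]
  · exact smul_zero _

private theorem I3_sum {V ι : Type*} [AddCommGroup V] [Module K V] (s : Finset ι)
    (f : ι → ℕ → V) (h : ∀ i, ∃ c, PolyFun K (f i) c) :
    ∃ c, PolyFun K (fun n => ∑ i ∈ s, f i n) c := by
  choose c hc using h
  refine ⟨∑ i ∈ s, c i, fun n => ?_⟩
  rw [← Finsupp.sum_finsetSum_index (fun _ => smul_zero _) (fun _ _ _ => smul_add _ _ _)]
  exact Finset.sum_congr rfl fun i _ => hc i n

private theorem I3_choose {V : Type*} [AddCommGroup V] [Module K V] (k : ℕ) (v : V) :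
    ∃ c, PolyFun K (fun n => (n.choose k : K) • v) c := by
  refine ⟨((Polynomial.C ((k.factorial : K)⁻¹)) * descPochhammer K k).sum
    fun e a => Finsupp.single e (a • v), fun n => ?_⟩
  rw [← I3_poly ((Polynomial.C ((k.factorial : K)⁻¹)) * descPochhammer K k) v n]
  change _ = Polynomial.eval _ _ • v
  rw [Polynomial.eval_mul, Polynomial.eval_C, descPochhammer_eval_eq_descFactorial,
    Nat.descFactorial_eq_factorial_mul_choose, Nat.cast_mul, ← mul_assoc, inv_mul_cancel₀,
    one_mul]
  exact Nat.cast_ne_zero.mpr (Nat.factorial_ne_zero k)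

theorem polyFun_pow {V : Type*} [AddCommGroup V] [Module K V] {Φ : V →ₗ[K] V} (h : Unip Φ)
    (v : V) : ∃ c : ℕ →₀ V, PolyFun K (fun n => (Φ ^ n) v) c := by
  obtain ⟨k, hk⟩ := h v
  obtain ⟨N, hN⟩ : ∃ N : Module.End K V, N = (Φ - LinearMap.id : V →ₗ[K] V) := ⟨_, rfl⟩
  rw [← hN] at hk
  have hkm : ∀ m, k ≤ m → (N ^ m) v = 0 := by
    intro m hm
    obtain ⟨l, rfl⟩ := Nat.exists_eq_add_of_le hm
    rw [add_comm, pow_add, Module.End.mul_apply, hk, map_zero]
  have hΦ : (Φ : Module.End K V) = N + 1 := by
    rw [hN]
    exact (sub_add_cancel Φ (LinearMap.id : V →ₗ[K] V)).symm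
  have key : ∀ n : ℕ, (Φ ^ n) v = ∑ m ∈ Finset.range k, ((n.choose m : K)) • (N ^ m) v := by
    intro n
    have h1 : ((Φ : Module.End K V) ^ n) v = ∑ m ∈ Finset.range (n + 1), ((n.choose m : K)) • (N ^ m) v := by
      rw [hΦ, (Commute.one_right N).add_pow, LinearMap.sum_apply]
      refine Finset.sum_congr rfl fun m _ => ?_
      rw [one_pow, mul_one, ← nsmul_eq_mul', LinearMap.smul_apply, Nat.cast_smul_eq_nsmul]
    rw [h1]
    rcases le_total (n + 1) k with hle | hle
    · refine Finset.sum_subset (Finset.range_subset_range.mpr hle) ?_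
      intro m _ hm
      rw [Finset.mem_range, not_lt] at hm
      rw [Nat.choose_eq_zero_of_lt (by omega), Nat.cast_zero, zero_smul]
    · refine (Finset.sum_subset (Finset.range_subset_range.mpr hle) ?_).symm
      intro m _ hm
      rw [Finset.mem_range, not_lt] at hm
      rw [hkm m hm, smul_zero]
  obtain ⟨c, hc⟩ := I3_sum (K := K) (Finset.range k)
    (fun (m n : ℕ) => ((n.choose m : K)) • (N ^ m) v) (fun m => I3_choose m _)
  refine ⟨c, fun n => ?_⟩
  change (Φ ^ n) v = _
  rw [key n]
  exact hc n

end

end Pool.Agent.Lib.MP_745d3a_ag.PF.SB
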