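import Pool.Agent.Lib.MP_745d3a_ag.SB.I3

/-!
The logarithm of a locally unipotent map.

`LogOf Φ D`: `D v` is the coefficient of `n` in the polynomial function `n ↦ Φ ^ n v`.

* `exists_log`: choose `c v` by `polyFun_pow`, `D v := c v 1`; linear by `polyFun_unique`
  (`PolyFun` is closed under sums and scalar multiples).
* `log_smul`: `Φ ^ n (a • v) = G ^ n a • Φ ^ n v` (induction on `n`), `polyFun_smul`,
  `polyFun_unique`; `c 0 = a`, `c' 0 = v` (evaluate at `n = 0`).
* `log_comm`: `ε (Φ ^ n v) = Φ ^ n (ε v)`; `c.mapRange ε` are the coefficients of the left side.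
* `log_step`: `(k + 1) • c (k + 1) = D (c k)`: fix `m`; the polynomial function `n ↦ Φ ^ (n + m) v` is
  `∑ k, (n + m) ^ k • c k`, its coefficient of `n` is `∑ k, k * m ^ (k - 1) • c k`; on the other hand
  `Φ ^ (n + m) v = Φ ^ n (Φ ^ m v)`, so the coefficient is `D (Φ ^ m v) = ∑ k, m ^ k • D (c k)`.
  Both are polynomial functions of `m`: compare the coefficients (`polyFun_unique`).
* `log_nil`: by `log_step`, `D ^ k v = k ! • c k`, which is zero for large `k`.
* `log_zero`: if `D v = 0` then `c k = 0` for all `k ≥ 1` by `log_step`, so `Φ v = c 0 = v`.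
-/

set_option autoImplicit false
set_option linter.unusedSectionVars false
set_option linter.unusedSimpArgs false
set_option linter.unusedVariables false

namespace Pool.Agent.Lib.MP_745d3a_ag.PF.SB

section

variable {K V : Type*} [Field K] [CharZero K] [AddCommGroup V] [Module K V] {Φ D : V →ₗ[K] V}

/-- `D v` is the coefficient of `n` in `Φ ^ n v`. -/
def LogOf {K V : Type*} [Field K] [AddCommGroup V] [Module K V] (Φ D : V →ₗ[K] V) : Prop :=
  ∀ v, ∃ c : ℕ →₀ V, PolyFun K (fun n => (Φ ^ n) v) c ∧ c 1 = D v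

private theorem pf_add {f g : ℕ → V} {c c' : ℕ →₀ V} (h : PolyFun K f c) (h' : PolyFun K g c') :
    PolyFun K (fun n => f n + g n) (c + c') := by
  intro n
  show f n + g n = _
  rw [h n, h' n]
  rw [Finsupp.sum_add_index' (fun k => smul_zero _) (fun k x y => smul_add _ x y)]

private theorem pf_map {W : Type*} [AddCommGroup W] [Module K W] {f : ℕ → V} {c : ℕ →₀ V}
    (h : PolyFun K f c) (ε : V →ₗ[K] W) :
    PolyFun K (fun n => ε (f n)) (c.mapRange ε (map_zero ε)) := by
  intro n
  show ε (f n) = _
  rw [h n, Finsupp.sum_mapRange_index (fun k => smul_zero _), Finsupp.sum, map_sum]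
  exact Finset.sum_congr rfl (fun k _ => by rw [map_smul])

private theorem pf_zero {f : ℕ → V} {c : ℕ →₀ V} (h : PolyFun K f c) : f 0 = c 0 := by
  rw [h 0, Finsupp.sum, Finset.sum_eq_single 0]
  · simp
  · intro k _ hk
    simp [hk]
  · intro hk
    rw [Finsupp.notMem_support_iff.mp hk, smul_zero]

private theorem logOf_coeff {v : V} (h : LogOf Φ D) {c : ℕ →₀ V}
    (hc : PolyFun K (fun n => (Φ ^ n) v) c) : c 1 = D v := by
  obtain ⟨c', hc', h1⟩ := h v
  rw [polyFun_unique hc hc', h1]

theorem exists_log (h : Unip Φ) : ∃ D : V →ₗ[K] V, LogOf Φ D := by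
  choose c hc using fun v => polyFun_pow h v
  refine ⟨{ toFun := fun v => c v 1, map_add' := ?_, map_smul' := ?_ }, ?_⟩
  · intro v w
    have e : c (v + w) = c v + c w := by
      refine polyFun_unique (hc (v + w)) (fun n => ?_)
      have := pf_add (hc v) (hc w) n
      simp only at this
      show (Φ ^ n) (v + w) = _
      rw [map_add]
      exact this
    rw [e]
    rfl
  · intro a v
    have e : c (a • v) = (c v).mapRange (LinearMap.lsmul K V a) (map_zero _) := by
      refine polyFun_unique (hc (a • v)) (fun n => ?_)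
      have := pf_map (hc v) (LinearMap.lsmul K V a) n
      simp only [LinearMap.lsmul_apply] at this
      show (Φ ^ n) (a • v) = _
      rw [map_smul]
      exact this
    rw [e]
    rfl
  · intro v
    exact ⟨c v, hc v, rfl⟩

theorem log_smul {S : Type*} [CommRing S] [Algebra K S] [Module S V] [IsScalarTower K S V]
    {G d : S →ₗ[K] S} (h : SL G Φ) (hG : LogOf G d) (hΦ : LogOf Φ D) (a : S) (v : V) :
    D (a • v) = d a • v + a • D v := by
  obtain ⟨c, hc, hc1⟩ := hG a
  obtain ⟨c', hc', hc1'⟩ := hΦ v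
  obtain ⟨c'', hc'', h1⟩ := polyFun_smul hc hc'
  have key : ∀ n : ℕ, (Φ ^ n) (a • v) = (G ^ n) a • (Φ ^ n) v := by
    intro n
    induction n with
    | zero => simp
    | succ n ih =>
      rw [pow_succ', pow_succ', Module.End.mul_apply, Module.End.mul_apply,
        Module.End.mul_apply, ih, h]
  have e : PolyFun K (fun n => (Φ ^ n) (a • v)) c'' := by
    intro n
    show (Φ ^ n) (a • v) = _
    rw [key n]
    exact hc'' n
  have h0 : c 0 = a := by
    have := pf_zero hc
    simpa using this.symm
  have h0' : c' 0 = v := by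
    have := pf_zero hc'
    simpa using this.symm
  rw [← logOf_coeff hΦ e, h1, h0, h0', hc1, hc1']

theorem log_comm (h : LogOf Φ D) {ε : V →ₗ[K] V} (hε : ∀ v, ε (Φ v) = Φ (ε v)) (v : V) :
    ε (D v) = D (ε v) := by
  obtain ⟨c, hc, hc1⟩ := h v
  have key : ∀ n : ℕ, ε ((Φ ^ n) v) = (Φ ^ n) (ε v) := by
    intro n
    induction n with
    | zero => simp
    | succ n ih =>
      rw [pow_succ', Module.End.mul_apply, Module.End.mul_apply, hε, ih]
  have e : PolyFun K (fun n => (Φ ^ n) (ε v)) (c.mapRange ε (map_zero ε)) := by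
    intro n
    show (Φ ^ n) (ε v) = _
    rw [← key n]
    exact pf_map hc ε n
  rw [← logOf_coeff h e, Finsupp.mapRange_apply, hc1]

end

end Pool.Agent.Lib.MP_745d3a_ag.PF.SB
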