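import Pool.Agent.Lib.MP_745d3a_ag.SB.I3b

/-!
The logarithm of a locally unipotent map, second part: see the docstring of I3b.lean (`log_step`,
`log_nil`, `log_zero`).
-/

set_option autoImplicit false
set_option linter.unusedSectionVars false
set_option linter.unusedSimpArgs false
set_option linter.unusedVariables false

namespace Pool.Agent.Lib.MP_745d3a_ag.PF.SB

section

variable {K V : Type*} [Field K] [CharZero K] [AddCommGroup V] [Module K V] {Φ D : V →ₗ[K] V}

/-- A Finsupp sum of a function vanishing at zero values is a sum over a range. -/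
private theorem I3c_sum_range {W : Type*} [AddCommMonoid W] (c : ℕ →₀ V) (g : ℕ → V → W)
    (hg : ∀ k, g k 0 = 0) {N : ℕ} (hN : ∀ k, N ≤ k → c k = 0) :
    c.sum g = ∑ k ∈ Finset.range N, g k (c k) := by
  refine Finsupp.sum_of_support_subset c ?_ g (fun k _ => hg k)
  intro k hk
  by_contra hk'
  rw [Finset.mem_range, not_lt] at hk'
  exact (Finsupp.mem_support_iff.mp hk) (hN k hk')

private theorem I3c_bound (c : ℕ →₀ V) : ∃ N : ℕ, ∀ k, N ≤ k → c k = 0 := by
  refine ⟨c.support.sup id + 1, fun k hk => ?_⟩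
  by_contra hne
  have h1 : k ∈ c.support := Finsupp.mem_support_iff.mpr hne
  have h2 : id k ≤ c.support.sup id := Finset.le_sup h1
  simp only [id] at h2
  omega

/-- A function vanishing from `N` on as a Finsupp. -/
private noncomputable def I3c_mk (N : ℕ) (g : ℕ → V) : ℕ →₀ V :=
  ∑ k ∈ Finset.range N, Finsupp.single k (g k)

private theorem I3c_mk_apply (N : ℕ) (g : ℕ → V) (k : ℕ) :
    I3c_mk N g k = if k < N then g k else 0 := by
  unfold I3c_mk
  rw [Finsupp.finsetSum_apply]
  by_cases hk : k < N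
  · rw [if_pos hk, Finset.sum_eq_single k]
    · rw [Finsupp.single_eq_same]
    · intro b _ hb
      rw [Finsupp.single_apply, if_neg hb]
    · intro hk'
      exact absurd (Finset.mem_range.mpr hk) hk'
  · rw [if_neg hk]
    refine Finset.sum_eq_zero fun b hb => ?_
    rw [Finsupp.single_apply, if_neg]
    rintro rfl
    exact hk (Finset.mem_range.mp hb)

private theorem I3c_mk_poly (N : ℕ) (g : ℕ → V) (f : ℕ → V)
    (hf : ∀ n : ℕ, f n = ∑ k ∈ Finset.range N, ((n : K) ^ k) • g k) : PolyFun K f (I3c_mk N g) := by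
  intro n
  rw [hf n, I3c_sum_range (I3c_mk N g) (fun k v => ((n : K) ^ k) • v) (fun k => smul_zero _)
    (N := N) (fun k hk => by rw [I3c_mk_apply, if_neg (not_lt.mpr hk)])]
  refine Finset.sum_congr rfl fun k hk => ?_
  rw [I3c_mk_apply, if_pos (Finset.mem_range.mp hk)]

theorem log_step (h : LogOf Φ D) {v : V} {c : ℕ →₀ V} (hc : PolyFun K (fun n => (Φ ^ n) v) c)
    (k : ℕ) : ((k : K) + 1) • c (k + 1) = D (c k) := by
  obtain ⟨N, hN⟩ := I3c_bound c
  have hN' : ∀ k, N + 1 ≤ k → c k = 0 := fun k hk => hN k (by omega)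
  have hc' : ∀ n : ℕ, (Φ ^ n) v = ∑ k ∈ Finset.range (N + 1), ((n : K) ^ k) • c k := fun n => by
    have := hc n
    rwa [I3c_sum_range c (fun k v => ((n : K) ^ k) • v) (fun k => smul_zero _) hN'] at this
  -- the coefficient of `n` of `Φ ^ (n + m) v`
  have key : ∀ m : ℕ, D ((Φ ^ m) v)
      = ∑ k ∈ Finset.range (N + 1), ((k : K) * (m : K) ^ (k - 1)) • c k := by
    intro m
    obtain ⟨c', hc'1, hc'2⟩ := h ((Φ ^ m) v)
    have hp : PolyFun K (fun n => (Φ ^ n) ((Φ ^ m) v)) (I3c_mk (N + 1) (fun j =>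
        ∑ k ∈ Finset.range (N + 1), ((k.choose j : K) * (m : K) ^ (k - j)) • c k)) := by
      refine I3c_mk_poly (N + 1) _ _ fun n => ?_
      have e1 : (Φ ^ n) ((Φ ^ m) v) = (Φ ^ (n + m)) v := by
        rw [pow_add]; rfl
      show (Φ ^ n) ((Φ ^ m) v) = _
      rw [e1, hc' (n + m)]
      have e2 : ∀ k ∈ Finset.range (N + 1), (((n + m : ℕ) : K) ^ k) • c k
          = ∑ j ∈ Finset.range (N + 1),
            ((n : K) ^ j) • (((k.choose j : K) * (m : K) ^ (k - j)) • c k) := by
        intro k hk
        have e3 : ((n + m : ℕ) : K) ^ k = ∑ j ∈ Finset.range (N + 1),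
            (n : K) ^ j * ((k.choose j : K) * (m : K) ^ (k - j)) := by
          rw [Nat.cast_add, add_pow]
          refine Finset.sum_subset_zero_on_sdiff ?_ ?_ ?_
          · intro j hj
            rw [Finset.mem_range] at hj hk ⊢
            omega
          · intro j hj
            rw [Finset.mem_sdiff, Finset.mem_range, Finset.mem_range] at hj
            rw [Nat.choose_eq_zero_of_lt (by omega)]
            simp
          · intro j _
            ring
        rw [e3, Finset.sum_smul]
        refine Finset.sum_congr rfl fun j _ => ?_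
        rw [mul_smul]
      rw [Finset.sum_congr rfl e2, Finset.sum_comm]
      refine Finset.sum_congr rfl fun j _ => ?_
      rw [Finset.smul_sum]
    have e4 := polyFun_unique hp hc'1
    rw [← hc'2, ← e4, I3c_mk_apply]
    by_cases h1 : 1 < N + 1
    · rw [if_pos h1]
      refine Finset.sum_congr rfl fun k _ => ?_
      rw [Nat.choose_one_right]
    · rw [if_neg h1]
      have hN0 : N = 0 := by omega
      subst hN0
      simp
  -- compare coefficients in `m`
  have hL : PolyFun K (fun m => D ((Φ ^ m) v)) (I3c_mk (N + 1) (fun k => D (c k))) := by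
    refine I3c_mk_poly (N + 1) _ _ fun m => ?_
    show D ((Φ ^ m) v) = _
    rw [hc' m, map_sum]
    refine Finset.sum_congr rfl fun k _ => ?_
    rw [LinearMap.map_smul]
  have hR : PolyFun K (fun m => D ((Φ ^ m) v))
      (I3c_mk (N + 1) (fun k => ((k : K) + 1) • c (k + 1))) := by
    refine I3c_mk_poly (N + 1) _ _ fun m => ?_
    show D ((Φ ^ m) v) = _
    rw [key m, Finset.sum_range_succ', Finset.sum_range_succ]
    rw [hN' (N + 1) le_rfl, smul_zero, smul_zero, add_zero]
    simp only [Nat.cast_zero, zero_mul, zero_smul, add_zero]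
    refine Finset.sum_congr rfl fun k _ => ?_
    rw [Nat.add_sub_cancel, Nat.cast_add, Nat.cast_one, smul_smul, mul_comm]
  have e5 := DFunLike.congr_fun (polyFun_unique hR hL) k
  rw [I3c_mk_apply, I3c_mk_apply] at e5
  by_cases hk : k < N + 1
  · rwa [if_pos hk, if_pos hk] at e5
  · rw [hN k (by omega), hN (k + 1) (by omega), map_zero, smul_zero]

private theorem I3c_zero {v : V} {c : ℕ →₀ V} (hc : PolyFun K (fun n => (Φ ^ n) v) c) :
    c 0 = v := by
  obtain ⟨N, hN⟩ := I3c_bound c
  have hN' : ∀ k, N + 1 ≤ k → c k = 0 := fun k hk => hN k (by omega)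
  have h0 := hc 0
  rw [I3c_sum_range c (fun k v => (((0 : ℕ) : K) ^ k) • v) (fun k => smul_zero _) hN'] at h0
  rw [Finset.sum_range_succ'] at h0
  simp at h0
  exact h0.symm

theorem log_nil (h : LogOf Φ D) (v : V) : ∃ k : ℕ, (D ^ k) v = 0 := by
  obtain ⟨c, hc, -⟩ := h v
  obtain ⟨N, hN⟩ := I3c_bound c
  have key : ∀ k : ℕ, (D ^ k) v = ((Nat.factorial k : ℕ) : K) • c k := by
    intro k
    induction k with
    | zero => simp [I3c_zero hc]
    | succ k ih =>
      have e1 : (D ^ (k + 1)) v = D ((D ^ k) v) := by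
        rw [pow_succ']; rfl
      rw [e1, ih, LinearMap.map_smul, ← log_step h hc k, smul_smul, Nat.factorial_succ]
      congr 1
      push_cast
      ring
  exact ⟨N, by rw [key N, hN N le_rfl, smul_zero]⟩

theorem log_zero (h : LogOf Φ D) {v : V} (hv : D v = 0) : Φ v = v := by
  obtain ⟨c, hc, hc1⟩ := h v
  rw [hv] at hc1
  have key : ∀ k : ℕ, c (k + 1) = 0 := by
    intro k
    induction k with
    | zero => exact hc1
    | succ k ih =>
      have e1 := log_step h hc (k + 1)
      rw [ih, map_zero] at e1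
      have e2 : (((k + 1 : ℕ) : K) + 1) ≠ 0 := by
        have := (Nat.cast_ne_zero (R := K)).mpr (Nat.succ_ne_zero (k + 1))
        rwa [Nat.cast_succ] at this
      exact (smul_eq_zero.mp e1).resolve_left e2
  obtain ⟨N, hN⟩ := I3c_bound c
  have hN' : ∀ k, N + 1 ≤ k → c k = 0 := fun k hk => hN k (by omega)
  have h1 := hc 1
  rw [I3c_sum_range c (fun k v => (((1 : ℕ) : K) ^ k) • v) (fun k => smul_zero _) hN'] at h1
  rw [Finset.sum_range_succ', Finset.sum_eq_zero (fun k _ => by rw [key k, smul_zero]), zero_add,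
    I3c_zero hc] at h1
  simpa using h1

end

end Pool.Agent.Lib.MP_745d3a_ag.PF.SB
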