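import Pool.Agent.Lib.MP_745d3a_ag.SB.Defs

/-!
The algebra map of a matrix.

* `lin_linForm`: `linForm_apply`, as in `der_linForm` (PFFin.lean).
* `lin_mul`: on the variables, both are `∑ j, (A * B) i j • X j` (`MvPolynomial.algHom_ext`).
* `lin_euler`: both sides as functions of `f` are `K`-linear; `Coord.induction` for `X` or
  `MvPolynomial.induction_on`; on `X i` both are `∑ j, A i j • X j`.
* `lin_inj`: `lin A` has the inverse `lin A⁻¹` (`lin_mul`, `lin 1 = id`).
* `euler_one`: if `E a = a` then all monomials of `a` have degree one (`monW_euler` in V1.lean, or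
  directly `E (monomial e c) = (∑ e i) • monomial e c`), so `a = ∑ j, coeff (single j 1) a • X j`.
* `linForm_inj`: coefficients.
* `gen_linForm`: `(G - μ) ^ k (linForm v) = linForm ((L - μ) ^ k v)`, as in the proof of `GA.main`.
* `mem_of_grad`: if `ε m = d • m` then `m ∈ 𝓜 d`: decompose `m` (`DirectSum.sum_support_decompose`);
  the components `m_e` satisfy `ε m_e = e • m_e`, so `∑ (e - d) • m_e = 0` and `(e - d) • m_e = 0` by the
  independence of the pieces (`eig_indep`); `m = m_d`.
-/

set_option autoImplicit false
set_option linter.unusedSectionVars false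
set_option linter.unusedSimpArgs false
set_option linter.unusedVariables false

open MvPolynomial

namespace Pool.Agent.Lib.MP_745d3a_ag.PF.SB

section

variable {K : Type*} [Field K] [CharZero K]

/-- The algebra map `X i ↦ ∑ j, A i j X j`. -/
noncomputable def lin (A : Matrix (Fin 5) (Fin 5) K) :
    MvPolynomial (Fin 5) K →ₐ[K] MvPolynomial (Fin 5) K :=
  aeval (fun i => ∑ j, A i j • (X j : MvPolynomial (Fin 5) K))

theorem lin_linForm (A : Matrix (Fin 5) (Fin 5) K) (v : Fin 5 → K) :
    lin A (linForm K v) = linForm K (Matrix.vecMul v A) := by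
  rw [linForm_apply, linForm_apply, map_sum]
  simp only [map_smul, lin, aeval_X, Finset.smul_sum, Matrix.vecMul, dotProduct,
    Finset.sum_smul, smul_smul]
  rw [Finset.sum_comm]

theorem lin_mul (A B : Matrix (Fin 5) (Fin 5) K) (f : MvPolynomial (Fin 5) K) :
    lin B (lin A f) = lin (A * B) f := by
  have h : (lin B).comp (lin A) = lin (A * B) := by
    refine MvPolynomial.algHom_ext fun i => ?_
    simp only [AlgHom.comp_apply, lin, aeval_X, map_sum, map_smul, Finset.smul_sum, smul_smul,
      Matrix.mul_apply, Finset.sum_smul]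
    rw [Finset.sum_comm]
  exact DFunLike.congr_fun h f

theorem lin_one (f : MvPolynomial (Fin 5) K) : lin (1 : Matrix (Fin 5) (Fin 5) K) f = f := by
  have h : lin (1 : Matrix (Fin 5) (Fin 5) K) = AlgHom.id K _ := by
    refine MvPolynomial.algHom_ext fun i => ?_
    simp [lin, Matrix.one_apply, ite_smul]
  exact DFunLike.congr_fun h f

theorem lin_inj {A : Matrix (Fin 5) (Fin 5) K} (hA : IsUnit A.det) :
    Function.Injective (lin A) := by
  refine Function.LeftInverse.injective (g := lin A⁻¹) fun f => ?_
  rw [lin_mul, Matrix.mul_nonsing_inv A hA, lin_one]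

theorem lin_euler {E : Derivation K (MvPolynomial (Fin 5) K) (MvPolynomial (Fin 5) K)}
    (hE : ∀ i, E (X i) = X i) (A : Matrix (Fin 5) (Fin 5) K) (f : MvPolynomial (Fin 5) K) :
    E (lin A f) = lin A (E f) := by
  induction f using MvPolynomial.induction_on with
  | C a =>
    have h1 : (C a : MvPolynomial (Fin 5) K) = algebraMap K _ a := rfl
    rw [h1, AlgHom.commutes, Derivation.map_algebraMap, map_zero]
  | add p q hp hq => rw [map_add, map_add, map_add, map_add, hp, hq]
  | mul_X p i hp =>
    have h2 : E (lin A (X i)) = lin A (X i) := by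
      simp only [lin, aeval_X, map_sum, Derivation.map_smul, hE]
    rw [map_mul, Derivation.leibniz, Derivation.leibniz, hp, h2, hE]
    simp only [smul_eq_mul, map_add, map_mul]

end

end Pool.Agent.Lib.MP_745d3a_ag.PF.SB
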