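import Pool.Agent.Lib.MP_745d3a_ag.SB.J0

/-!
The algebra map of a matrix, second part: see the docstring of J0.lean (`euler_one`, `linForm_inj`,
`gen_linForm`, `mem_of_grad`).
-/

set_option autoImplicit false
set_option linter.unusedSectionVars false
set_option linter.unusedSimpArgs false
set_option linter.unusedVariables false

open MvPolynomial

namespace Pool.Agent.Lib.MP_745d3a_ag.PF.SB

section

variable {K : Type*} [Field K] [CharZero K]

private lemma J0b_mon {E : Derivation K (MvPolynomial (Fin 5) K) (MvPolynomial (Fin 5) K)}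
    (hE : ∀ i, E (X i) = X i) (e : Fin 5 →₀ ℕ) :
    ∀ c : K, E (monomial e c) = (e.degree : K) • monomial e c := by
  induction e using Finsupp.induction_linear with
  | zero =>
    intro c
    have h1 : (monomial (0 : Fin 5 →₀ ℕ) c : MvPolynomial (Fin 5) K) =
        algebraMap K (MvPolynomial (Fin 5) K) c := rfl
    rw [h1, Derivation.map_algebraMap]
    simp
  | add f g hf hg =>
    intro c
    have h1 : (monomial (f + g) c : MvPolynomial (Fin 5) K) = monomial f c * monomial g 1 := by
      rw [monomial_mul, mul_one]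
    rw [h1, Derivation.leibniz, hf, hg, smul_eq_mul, smul_eq_mul, mul_smul_comm, mul_smul_comm,
      mul_comm (monomial g 1) (monomial f c), ← add_smul, map_add, Nat.cast_add, add_comm]
  | single i n =>
    intro c
    have h1 : (monomial (Finsupp.single i n) c : MvPolynomial (Fin 5) K) = c • X i ^ n := by
      rw [X_pow_eq_monomial, smul_monomial, smul_eq_mul, mul_one]
    rw [h1, Derivation.map_smul, Derivation.leibniz_pow, hE, Finsupp.degree_single]
    rcases Nat.eq_zero_or_pos n with hn | hn
    · subst hn; simp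
    · obtain ⟨m, rfl⟩ := Nat.exists_eq_succ_of_ne_zero (by omega : n ≠ 0)
      rw [Nat.succ_sub_one, smul_eq_mul, ← pow_succ, smul_comm, Nat.cast_smul_eq_nsmul]

private lemma J0b_single {e : Fin 5 →₀ ℕ} (he : e.degree = 1) : ∃ j, e = Finsupp.single j 1 := by
  have h1 : e ≠ 0 := by
    rintro rfl
    simp at he
  obtain ⟨j, hj⟩ := Finsupp.ne_iff.mp h1
  refine ⟨j, ?_⟩
  have h2 : Finsupp.single j 1 ≤ e := by
    rw [Finsupp.single_le_iff]
    exact Nat.one_le_iff_ne_zero.mpr hj
  have h3 := add_tsub_cancel_of_le h2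
  have h4 : (e - Finsupp.single j 1).degree = 0 := by
    have h5 := congrArg Finsupp.degree h3
    rw [map_add, Finsupp.degree_single, he] at h5
    omega
  rw [Finsupp.degree_eq_zero_iff] at h4
  rw [h4, add_zero] at h3
  exact h3.symm

theorem euler_one {E : Derivation K (MvPolynomial (Fin 5) K) (MvPolynomial (Fin 5) K)}
    (hE : ∀ i, E (X i) = X i) {a : MvPolynomial (Fin 5) K} (ha : E a = a) :
    ∃ v, a = linForm K v := by
  have h1 : ∀ e, coeff e (E a) = (e.degree : K) * coeff e a := by
    intro e
    have h2 : E a = ∑ f ∈ a.support, (f.degree : K) • monomial f (coeff f a) := by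
      conv_lhs => rw [← support_sum_monomial_coeff a]
      rw [map_sum]
      exact Finset.sum_congr rfl fun f _ => J0b_mon hE f _
    rw [h2, coeff_sum]
    by_cases he : e ∈ a.support
    · rw [Finset.sum_eq_single e]
      · rw [coeff_smul, coeff_monomial, if_pos rfl, smul_eq_mul]
      · intro f _ hf
        rw [coeff_smul, coeff_monomial, if_neg hf, smul_zero]
      · intro h; exact absurd he h
    · rw [Finset.sum_eq_zero, notMem_support_iff.mp he, mul_zero]
      intro f hf
      rw [coeff_smul, coeff_monomial, if_neg, smul_zero]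
      rintro rfl
      exact he hf
  have h3 : a ∈ LinearMap.range (linForm K) := by
    rw [← support_sum_monomial_coeff a]
    refine Submodule.sum_mem _ fun e he => ?_
    have h4 := h1 e
    rw [ha] at h4
    have h5 : coeff e a ≠ 0 := mem_support_iff.mp he
    have h6 : (e.degree : K) = 1 := by
      have h7 : (1 : K) * coeff e a = (e.degree : K) * coeff e a := by rw [one_mul]; exact h4
      exact (mul_right_cancel₀ h5 h7).symm
    have h7 : e.degree = 1 := by exact_mod_cast h6
    obtain ⟨j, hj⟩ := J0b_single h7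
    refine ⟨Pi.single j (coeff e a), ?_⟩
    rw [linForm_apply, Finset.sum_eq_single j]
    · rw [Pi.single_eq_same, hj, X, smul_monomial, smul_eq_mul, mul_one]
    · intro i _ hi
      rw [Pi.single_eq_of_ne hi, zero_smul]
    · intro h; exact absurd (Finset.mem_univ j) h
  obtain ⟨v, hv⟩ := h3
  exact ⟨v, hv.symm⟩

theorem linForm_inj : Function.Injective (linForm K) := by
  intro v w h
  funext j
  have h1 : ∀ u : Fin 5 → K, coeff (Finsupp.single j 1) (linForm K u) = u j := by
    intro u
    rw [linForm_apply, coeff_sum, Finset.sum_eq_single j]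
    · rw [coeff_smul, coeff_X, if_pos rfl, smul_eq_mul, mul_one]
    · intro i _ hi
      rw [coeff_smul, coeff_X, if_neg, smul_zero]
      intro h
      exact hi (Finsupp.single_left_injective one_ne_zero h)
    · intro h; exact absurd (Finset.mem_univ j) h
  rw [← h1 v, ← h1 w, h]

theorem gen_linForm (A : Matrix (Fin 5) (Fin 5) K) {v : Fin 5 → K} {μ : K}
    (hv : v ∈ Module.End.maxGenEigenspace ((Matrix.vecMulLinear A : (Fin 5 → K) →ₗ[K] _) :
      Module.End K (Fin 5 → K)) μ) :
    linForm K v ∈ Module.End.maxGenEigenspace ((lin A).toLinearMap :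
      Module.End K (MvPolynomial (Fin 5) K)) μ := by
  rw [Module.End.mem_maxGenEigenspace] at hv ⊢
  obtain ⟨k, hk⟩ := hv
  refine ⟨k, ?_⟩
  have key : ∀ (n : ℕ) (w : Fin 5 → K),
      ((((lin A).toLinearMap : Module.End K (MvPolynomial (Fin 5) K)) - μ • 1) ^ n) (linForm K w) =
      linForm K ((((Matrix.vecMulLinear A : (Fin 5 → K) →ₗ[K] _) :
        Module.End K (Fin 5 → K)) - μ • 1) ^ n • w) := by
    intro n
    induction n with
    | zero => intro w; simp
    | succ n ih =>
      intro w
      rw [pow_succ, Module.End.mul_apply]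
      have h3 : (((lin A).toLinearMap : Module.End K (MvPolynomial (Fin 5) K)) - μ • 1)
          (linForm K w) = linForm K ((((Matrix.vecMulLinear A : (Fin 5 → K) →ₗ[K] _) :
          Module.End K (Fin 5 → K)) - μ • 1) w) := by
        rw [LinearMap.sub_apply, LinearMap.sub_apply, map_sub]
        congr 1
        · exact lin_linForm A w
        · simp
      rw [h3, ih, pow_succ]
      rfl
  rw [key]
  have hk' : ((((Matrix.vecMulLinear A : (Fin 5 → K) →ₗ[K] _) :
        Module.End K (Fin 5 → K)) - μ • 1) ^ k • v) = 0 := hk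
  rw [hk', map_zero]

theorem mem_of_grad {M : Type*} [AddCommGroup M] [Module K M] (𝓜 : ℤ → AddSubgroup M)
    [DirectSum.Decomposition 𝓜] {ε : M →ₗ[K] M} (hε : ∀ d, ∀ m ∈ 𝓜 d, ε m = (d : K) • m)
    {d : ℤ} {m : M} (hm : ε m = (d : K) • m) : m ∈ 𝓜 d := by
  classical
  have h1 := comp_of_eig hm
  have h2 := comp_unique (T := ε) (v := m) (DirectSum.decompose 𝓜 m).support
    (fun e => ((DirectSum.decompose 𝓜 m) e : M)) (fun e _ => hε e _ (SetLike.coe_mem _))
    (DirectSum.sum_support_decompose 𝓜 m).symm d
  rw [h1] at h2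
  rw [h2]
  split_ifs
  · exact SetLike.coe_mem _
  · exact (𝓜 d).zero_mem

end

end Pool.Agent.Lib.MP_745d3a_ag.PF.SB
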