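import Pool.Agent.Lib.MP_745d3a_ag.SB.J0b
import Pool.Agent.Lib.MP_745d3a_ag.SB.I3c
import Pool.Agent.Lib.MP_745d3a_ag.NV.Main

/-!
A unipotent symmetry fixes the coordinates.

Let `d` be a logarithm of `G`, `D` one of `Φ` (`exists_log`). `d` is a derivation: `SL G G` by `hG`
(`S` as a module over itself) and `log_smul` (`d 1 = 0` follows; `Derivation.mk'`). `E (d (X i)) = d (E (X i)) = d (X i)`
(`log_comm`), so `d (X i) = ∑ j, A i j • X j` (`euler_one`, `linForm_apply`). `D` is a connection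
over `d` (`log_smul`) and preserves the pieces: `ε (D m) = D (ε m)` (`log_comm`), `mem_of_grad`.
`GA.main` (and `hno`) gives `A = c • 1`. So `d (X i) = c • X i`, `d ^ k (X i) = c ^ k • X i`, zero for some
`k` (`log_nil`): `c = 0`, `d (X i) = 0`, `G (X i) = X i` (`log_zero`). `G` is an algebra map.
-/

set_option autoImplicit false
set_option linter.unusedSectionVars false
set_option linter.unusedSimpArgs false
set_option linter.unusedVariables false

open MvPolynomial

namespace Pool.Agent.Lib.MP_745d3a_ag.PF.SB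

section

universe uK uM

variable {K : Type uK} [Field K] [CharZero K] [IsAlgClosed K]
  {M : Type uM} [AddCommGroup M] [Module (MvPolynomial (Fin 5) K) M] [Module K M]
  [IsScalarTower K (MvPolynomial (Fin 5) K) M]
  [Module.Finite (MvPolynomial (Fin 5) K) M] [Module.IsReflexive (MvPolynomial (Fin 5) K) M]
  (𝓜 : ℤ → AddSubgroup M) [DirectSum.Decomposition 𝓜]
  [SetLike.GradedSMul (weightedHomogeneousSubmodule K (fun _ : Fin 5 => (1 : ℤ))) 𝓜]

theorem unip_fix (hGT : GA.GmThm.{uK} K) (hGT2 : GA.GmThm.{uM} K)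
    (hrank : Module.finrank (MvPolynomial (Fin 5) K) M = 2)
    (hfree : ∀ (p : Ideal (MvPolynomial (Fin 5) K)) [p.IsPrime],
      (∃ i, (X i : MvPolynomial (Fin 5) K) ∉ p) →
        Module.Free (Localization.AtPrime p) (LocalizedModule p.primeCompl M))
    (hno : ¬ ∃ (b : Module.Basis (Fin 2) (MvPolynomial (Fin 5) K) M) (d : Fin 2 → ℤ),
      ∀ k, b k ∈ 𝓜 (d k))
    {ε : M →ₗ[K] M} (hε : ∀ d, ∀ m ∈ 𝓜 d, ε m = (d : K) • m)
    {E : Derivation K (MvPolynomial (Fin 5) K) (MvPolynomial (Fin 5) K)}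
    (hE : ∀ i, E (X i) = X i)
    {G : MvPolynomial (Fin 5) K →ₗ[K] MvPolynomial (Fin 5) K} (h1 : G 1 = 1)
    (hG : ∀ a b, G (a * b) = G a * G b) (hGE : ∀ a, E (G a) = G (E a)) (hGu : Unip G)
    {Φ : M →ₗ[K] M} (hΦ : SL G Φ) (hΦu : Unip Φ) (hc : ∀ m, ε (Φ m) = Φ (ε m))
    (a : MvPolynomial (Fin 5) K) : G a = a := by
  classical
  obtain ⟨d, hd⟩ := exists_log hGu
  obtain ⟨D, hD⟩ := exists_log hΦu
  have hGG : SL G G := fun a b => by
    rw [smul_eq_mul, smul_eq_mul]; exact hG a b
  have hdmul : ∀ a b : MvPolynomial (Fin 5) K, d (a * b) = a • d b + b • d a := by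
    intro a b
    have h := log_smul hGG hd hd a b
    rw [smul_eq_mul, smul_eq_mul, smul_eq_mul] at h
    rw [h, smul_eq_mul, smul_eq_mul]
    ring
  let dd : Derivation K (MvPolynomial (Fin 5) K) (MvPolynomial (Fin 5) K) :=
    Derivation.mk' d hdmul
  have hdd : ∀ a, dd a = d a := fun a => rfl
  have hv : ∀ i, ∃ v, d (X i) = linForm K v := by
    intro i
    refine euler_one hE ?_
    have h := log_comm hd (ε := (E : MvPolynomial (Fin 5) K →ₗ[K] MvPolynomial (Fin 5) K))
      (fun v => hGE v) (X i)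
    have h2 : E (d (X i)) = d (E (X i)) := h
    rw [h2, hE]
  choose A hA using hv
  have hDA : ∀ i, dd (X i) = ∑ j, (Matrix.of A) i j • (X j : MvPolynomial (Fin 5) K) := by
    intro i
    rw [hdd, hA, linForm_apply]
    rfl
  have hDδ : ∀ (a : MvPolynomial (Fin 5) K) (m : M),
      D.toAddMonoidHom (a • m) = dd a • m + a • D.toAddMonoidHom m := fun a m =>
    log_smul hΦ hd hD a m
  have hdeg : ∀ k, ∀ m ∈ 𝓜 k, D.toAddMonoidHom m ∈ 𝓜 k := by
    intro k m hm
    refine mem_of_grad 𝓜 hε ?_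
    have h := log_comm hD hc m
    show ε (D m) = (k : K) • D m
    rw [h, hε k m hm, map_smul]
  have hAc : ∃ c : K, (Matrix.of A) = c • (1 : Matrix (Fin 5) (Fin 5) K) := by
    by_contra hcon
    push Not at hcon
    exact hno (GA.main hGT hGT2 (Matrix.of A) hcon M hrank hfree 𝓜 dd hDA D.toAddMonoidHom hDδ hdeg)
  obtain ⟨c, hc'⟩ := hAc
  have hdX : ∀ i, d (X i) = c • (X i : MvPolynomial (Fin 5) K) := by
    intro i
    have h := hDA i
    rw [hdd, hc'] at h
    rw [h, Finset.sum_eq_single i]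
    · simp
    · intro j _ hj
      simp [Matrix.smul_apply, Matrix.one_apply_ne (Ne.symm hj)]
    · intro h3
      exact absurd (Finset.mem_univ i) h3
  have hpow : ∀ (k : ℕ) (i : Fin 5), (d ^ k) (X i) = c ^ k • (X i : MvPolynomial (Fin 5) K) := by
    intro k i
    induction k with
    | zero => simp
    | succ n ih =>
      rw [pow_succ', Module.End.mul_apply, ih, map_smul, hdX, smul_smul, pow_succ]
  have hc0 : c = 0 := by
    obtain ⟨k, hk⟩ := log_nil hd (X 0)
    rw [hpow] at hk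
    rcases smul_eq_zero.mp hk with h | h
    · exact pow_eq_zero_iff (n := k) (by rintro rfl; simp at h) |>.mp h
    · exact absurd h (X_ne_zero 0)
  have hGX : ∀ i, G (X i) = X i := by
    intro i
    refine log_zero hd ?_
    rw [hdX, hc0, zero_smul]
  have hfin : AlgHom.ofLinearMap G h1 hG = AlgHom.id K (MvPolynomial (Fin 5) K) := by
    refine MvPolynomial.algHom_ext fun i => ?_
    exact hGX i
  have h := DFunLike.congr_fun hfin a
  exact h

end

end Pool.Agent.Lib.MP_745d3a_ag.PF.SB
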