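import Pool.Agent.Lib.MP_745d3a_ag.SB.J1
import Pool.Agent.Lib.MP_745d3a_ag.NV.Eig
import Pool.Agent.Lib.MP_745d3a_ag.SB.I2

/-!
The semisimple part of a symmetry.

Let `E := mkDerivation K X`, `G := (lin A).toLinearMap`; `E G = G E` (`lin_euler`). `G` and `φ` are
`GenK` (`GA.iSup_gen`; for `G` the module is `S` itself, `ε = E`, `euler_diag`). Let `T₁`, `T₂` be
the operators of `exists_scal` for `G`, `φ` and `fun μ => μ⁻¹`. `G ∘ T₁` and `φ ∘ T₂` are unipotent
(`unip_of_scal`, `lin_inj`), `SL (G ∘ T₁) (φ ∘ T₂)` and `SL (G ∘ T₁) (G ∘ T₁)` (`scal_sl`, `sl_comp`),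
`T₁ 1 = 1` (`1` is an eigenvector for `μ = 1`), they commute with `E`, `ε` (`scal_comm`). By
`unip_fix`: `G (T₁ a) = a`. So for `a ∈ maxGenEigenspace G μ`: `G (μ⁻¹ • a) = a`, `G a = μ • a` (the space for
`μ = 0` is zero). Let `S₃`, `Φ` be the operators of `exists_scal` for `G`, `φ` and `fun μ => μ`. Then
`S₃ = G` (they agree on generalised eigenvectors, which span), so `SL G Φ` by `scal_sl`;
`DiagK Φ` by `diag_of_scal`, injective by `scal_inj`, commutes with `ε` by `scal_comm`.
Basis: `L := Matrix.vecMulLinear A` on `Fin 5 → K`: `⨆ μ, maxGenEigenspace L μ = ⊤`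
(`Module.End.iSup_maxGenEigenspace_eq_top`); for `v` in such a space `linForm v` is in
`maxGenEigenspace G μ` (`gen_linForm`), so `linForm (L v) = G (linForm v) = μ • linForm v` and `L v = μ • v`
(`linForm_inj`). The eigenspaces span, so there is a basis of eigenvectors
(`DirectSum.IsInternal.collectedBasis` or `Module.Basis.exists..`/`exists_linearIndependent` in the set of
eigenvectors; reindex by `Fin 5`). The eigenvalues are not zero because `A` is invertible.
-/

set_option autoImplicit false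
set_option linter.unusedSectionVars false
set_option linter.unusedSimpArgs false
set_option linter.unusedVariables false

open MvPolynomial

namespace Pool.Agent.Lib.MP_745d3a_ag.PF.SB

section

variable {K : Type*} [Field K] [CharZero K] [IsAlgClosed K]

/-- A map whose generalised eigenvectors are eigenvectors has a basis of eigenvectors. -/
private theorem eig_basis (L : (Fin 5 → K) →ₗ[K] (Fin 5 → K))
    (h : ∀ μ : K, ∀ v ∈ Module.End.maxGenEigenspace (L : Module.End K (Fin 5 → K)) μ,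
      L v = μ • v) :
    ∃ (b : Module.Basis (Fin 5) K (Fin 5 → K)) (l : Fin 5 → K), ∀ k, L (b k) = l k • b k := by
  classical
  let s : Set (Fin 5 → K) := {v | ∃ μ : K, L v = μ • v}
  have hs : Submodule.span K s = ⊤ := by
    rw [eq_top_iff, ← Module.End.iSup_maxGenEigenspace_eq_top (L : Module.End K (Fin 5 → K))]
    refine iSup_le fun μ v hv => Submodule.subset_span ⟨μ, h μ v hv⟩
  obtain ⟨t, hts, htspan, htli⟩ := exists_linearIndependent K s
  let b₀ : Module.Basis t K (Fin 5 → K) := Module.Basis.mk htli (by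
    rw [Subtype.range_coe, htspan, hs])
  have : Finite t := Module.Finite.finite_basis b₀
  have : Fintype t := Fintype.ofFinite t
  have hcard : Fintype.card t = 5 := by
    rw [← Module.finrank_eq_card_basis b₀, Module.finrank_fin_fun]
  let e : t ≃ Fin 5 := Fintype.equivFinOfCardEq hcard
  have hb : ∀ k, (b₀.reindex e) k ∈ s := by
    intro k
    rw [Module.Basis.reindex_apply]
    have h1 : b₀ (e.symm k) = ((e.symm k : t) : Fin 5 → K) := by
      show (Module.Basis.mk htli _) (e.symm k) = _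
      rw [Module.Basis.mk_apply]
    rw [h1]
    exact hts (e.symm k).2
  choose l hl using hb
  exact ⟨b₀.reindex e, l, hl⟩

end

section

universe uK uM

variable {K : Type uK} [Field K] [CharZero K] [IsAlgClosed K]
  {M : Type uM} [AddCommGroup M] [Module (MvPolynomial (Fin 5) K) M] [Module K M]
  [IsScalarTower K (MvPolynomial (Fin 5) K) M]
  [Module.Finite (MvPolynomial (Fin 5) K) M] [Module.IsReflexive (MvPolynomial (Fin 5) K) M]
  (𝓜 : ℤ → AddSubgroup M) [DirectSum.Decomposition 𝓜]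
  [SetLike.GradedSMul (weightedHomogeneousSubmodule K (fun _ : Fin 5 => (1 : ℤ))) 𝓜]

theorem semisimple (hGT : GA.GmThm.{uK} K) (hGT2 : GA.GmThm.{uM} K)
    (hrank : Module.finrank (MvPolynomial (Fin 5) K) M = 2)
    (hfree : ∀ (p : Ideal (MvPolynomial (Fin 5) K)) [p.IsPrime],
      (∃ i, (X i : MvPolynomial (Fin 5) K) ∉ p) →
        Module.Free (Localization.AtPrime p) (LocalizedModule p.primeCompl M))
    (hno : ¬ ∃ (b : Module.Basis (Fin 2) (MvPolynomial (Fin 5) K) M) (d : Fin 2 → ℤ),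
      ∀ k, b k ∈ 𝓜 (d k))
    {ε : M →ₗ[K] M} (hε : ∀ d, ∀ m ∈ 𝓜 d, ε m = (d : K) • m)
    {A : Matrix (Fin 5) (Fin 5) K} (hA : IsUnit A.det)
    {φ : M →ₗ[K] M} (hφ : SL (lin A).toLinearMap φ) (hinj : Function.Injective φ)
    (hc : ∀ m, ε (φ m) = φ (ε m)) :
    ∃ (b : Module.Basis (Fin 5) K (Fin 5 → K)) (l : Fin 5 → Kˣ) (Φ : M →ₗ[K] M),
      (∀ k, Matrix.vecMul (b k) A = (l k : K) • b k) ∧ SL (lin A).toLinearMap Φ ∧ DiagK Φ ∧
      Function.Injective Φ ∧ ∀ m, ε (Φ m) = Φ (ε m) := by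
  classical
  let E : Derivation K (MvPolynomial (Fin 5) K) (MvPolynomial (Fin 5) K) := mkDerivation K X
  have hE : ∀ i, E (X i) = X i := fun i => mkDerivation_X K _ i
  have hx : Coord K (fun i => linForm K ((Pi.basisFun K (Fin 5)) i)) :=
    coord_basis (Pi.basisFun K (Fin 5))
  have hEu : IsEuler (fun i => linForm K ((Pi.basisFun K (Fin 5)) i)) E := by
    intro i
    show E (linForm K _) = linForm K _
    rw [linForm_apply, map_sum]
    simp only [Derivation.map_smul, hE]
  have cES : IsConn E (E : MvPolynomial (Fin 5) K →ₗ[K] MvPolynomial (Fin 5) K) := by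
    intro a m
    show E (a • m) = E a • m + a • E m
    simp only [smul_eq_mul]
    rw [Derivation.leibniz]
    simp only [smul_eq_mul]
    ring
  have hGE : ∀ a, E ((lin A).toLinearMap a) = (lin A).toLinearMap (E a) :=
    fun a => lin_euler hE A a
  have hGg : GenK (lin A).toLinearMap :=
    GA.iSup_gen hx hEu cES (euler_diag hx hEu) (lin A).toLinearMap hGE
  have hφg : GenK φ := GA.iSup_gen hx hEu (gradOp_conn hε hE) (gradOp_diag hε) φ hc
  have hGinj : Function.Injective (lin A).toLinearMap := lin_inj hA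
  have hGG : SL (lin A).toLinearMap (lin A).toLinearMap := by
    intro a v
    show lin A (a • v) = lin A a • lin A v
    rw [smul_eq_mul, smul_eq_mul, map_mul]
  obtain ⟨T₁, hT₁⟩ := exists_scal hGg (fun μ => μ⁻¹)
  obtain ⟨T₂, hT₂⟩ := exists_scal hφg (fun μ => μ⁻¹)
  have hinv : ∀ α μ : K, (fun μ : K => μ⁻¹) (α * μ) = (fun μ : K => μ⁻¹) α * (fun μ : K => μ⁻¹) μ :=
    fun α μ => mul_inv α μ
  have hS1 : SL T₁ T₁ := scal_sl hGG hGg hGg hT₁ hT₁ hinv
  have hS2 : SL T₁ T₂ := scal_sl hφ hGg hφg hT₁ hT₂ hinv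
  have hU : SL ((lin A).toLinearMap ∘ₗ T₁) ((lin A).toLinearMap ∘ₗ T₁) := sl_comp hGG hS1
  have hV : SL ((lin A).toLinearMap ∘ₗ T₁) (φ ∘ₗ T₂) := sl_comp hφ hS2
  have hG1 : (lin A).toLinearMap 1 = 1 := map_one (lin A)
  have hT1 : T₁ 1 = 1 := by
    have h1 : (1 : MvPolynomial (Fin 5) K) ∈ Module.End.maxGenEigenspace
        ((lin A).toLinearMap : Module.End K (MvPolynomial (Fin 5) K)) 1 := by
      rw [Module.End.mem_maxGenEigenspace]
      refine ⟨1, ?_⟩
      rw [pow_one, LinearMap.sub_apply, hG1, one_smul]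
      exact sub_self _
    have h2 : T₁ 1 = (1 : K)⁻¹ • (1 : MvPolynomial (Fin 5) K) := hT₁ 1 1 h1
    rw [h2, inv_one, one_smul]
  have hfix : ∀ a, (lin A).toLinearMap (T₁ a) = a := by
    intro a
    refine unip_fix 𝓜 hGT hGT2 hrank hfree hno hε hE (G := (lin A).toLinearMap ∘ₗ T₁) ?_ ?_ ?_
      (unip_of_scal hGg hGinj hT₁) hV (unip_of_scal hφg hinj hT₂) ?_ a
    · show (lin A).toLinearMap (T₁ 1) = 1
      rw [hT1, hG1]
    · intro a b
      exact hU a b
    · intro a
      show E ((lin A).toLinearMap (T₁ a)) = (lin A).toLinearMap (T₁ (E a))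
      rw [hGE]
      exact congrArg _ (scal_comm hGg hT₁ (ε := (E : MvPolynomial (Fin 5) K →ₗ[K] _)) hGE a)
    · intro m
      show ε (φ (T₂ m)) = φ (T₂ (ε m))
      rw [hc, scal_comm hφg hT₂ hc]
  have hG3 : Scal (lin A).toLinearMap (lin A).toLinearMap (fun μ => μ) := by
    intro μ a ha
    have h1 : (lin A).toLinearMap (μ⁻¹ • a) = a := by
      have h2 : T₁ a = μ⁻¹ • a := hT₁ μ a ha
      rw [← h2]
      exact hfix a
    rw [map_smul] at h1
    show (lin A).toLinearMap a = μ • a
    by_cases hμ : μ = 0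
    · rw [hμ, inv_zero, zero_smul] at h1
      rw [← h1, map_zero, smul_zero]
    · have h2 : μ • (μ⁻¹ • (lin A).toLinearMap a) = μ • a := by rw [h1]
      rw [smul_smul, mul_inv_cancel₀ hμ, one_smul] at h2
      exact h2
  obtain ⟨Φ, hΦ⟩ := exists_scal hφg (fun μ => μ)
  have hL : ∀ μ : K, ∀ v ∈ Module.End.maxGenEigenspace
      ((Matrix.vecMulLinear A : (Fin 5 → K) →ₗ[K] _) : Module.End K (Fin 5 → K)) μ,
      (Matrix.vecMulLinear A : (Fin 5 → K) →ₗ[K] _) v = μ • v := by
    intro μ v hv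
    have h1 := hG3 μ _ (gen_linForm A hv)
    have h2 : (lin A).toLinearMap (linForm K v) = linForm K (Matrix.vecMul v A) :=
      lin_linForm A v
    rw [h2] at h1
    have h3 : linForm K (Matrix.vecMul v A) = linForm K (μ • v) := by
      rw [h1, map_smul]
    exact linForm_inj h3
  obtain ⟨b, l, hb⟩ := eig_basis _ hL
  have hl : ∀ k, l k ≠ 0 := by
    intro k h0
    have h1 : Matrix.vecMul (b k) A = 0 := by
      have h2 : Matrix.vecMul (b k) A = l k • b k := hb k
      rw [h2, h0, zero_smul]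
    have h2 : (lin A).toLinearMap (linForm K (b k)) = (lin A).toLinearMap 0 := by
      rw [map_zero]
      show lin A (linForm K (b k)) = 0
      rw [lin_linForm, h1, map_zero]
    have h3 : linForm K (b k) = linForm K 0 := by
      rw [map_zero]
      exact hGinj h2
    exact b.ne_zero k (linForm_inj h3)
  exact ⟨b, fun k => Units.mk0 (l k) (hl k), Φ, fun k => hb k,
    scal_sl hφ hGg hφg hG3 hΦ (fun _ _ => rfl), diag_of_scal hφg hΦ,
    scal_inj hφg hinj hΦ (fun _ h => h), fun m => scal_comm hφg hΦ hc m⟩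

end

end Pool.Agent.Lib.MP_745d3a_ag.PF.SB
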