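import Pool.Agent.Lib.MP_745d3a_ag.SB.L1

/-!
Integer vectors in the rational span of short integer vectors.

Work in `n → ℚ`; `c : (n → ℤ) → (n → ℚ)` the coercion. Let `s` be a maximal independent subset
of `c '' A` (`exists_linearIndepOn_id_extension` from `∅`), so `c '' A ⊆ span s`, and `b ⊇ s` a
maximal independent subset of `s ∪ E`, `E` the set of the standard vectors
(`exists_linearIndepOn_id_extension` again); `b` is a basis of `n → ℚ`, so it can be indexed by `n`:
`b = {c (B i) | i : n}` with `B : Matrix n n ℤ` whose rows are elements of `A` or standard vectors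
(norm `1 ≤ C`). `N := |det B|`, `det B ≠ 0` because the rows are independent over `ℚ`
(`Matrix.linearIndependent_rows_iff_isUnit`, `Int.cast_injective`, `Matrix.det` and casts
`Int.cast_det` / `RingHom.map_det`), and `N ≤ C ^ card n` by `abs_det_le`.
For a row `i` outside `s` the column `z j = adjugate B j i` is orthogonal to all the other rows,
so to `span s`, so to `A`; by hypothesis it is orthogonal to `v`: the `i`-th entry of
`τ = vecMul v (adjugate B)` is zero. Cramer: `vecMul τ B = det B • v`, an integral combination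
of the rows in `A`.
-/

set_option autoImplicit false
set_option linter.unusedSectionVars false
set_option linter.unusedSimpArgs false
set_option linter.unusedVariables false

namespace Pool.Agent.Lib.MP_745d3a_ag.PF.SB

/-- the coercion of integer vectors to rational vectors -/
private def cst {n : Type*} (v : n → ℤ) : n → ℚ := fun i => (v i : ℚ)

/-- choice of the square matrix -/
private theorem L2_exists_matrix {n : Type*} [Fintype n] [DecidableEq n] (A : Set (n → ℤ)) (C : ℕ)
    (hC : 1 ≤ C) (hA : ∀ v ∈ A, ∑ i, |v i| ≤ (C : ℤ)) :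
    ∃ (B : Matrix n n ℤ) (P : n → Prop), (∀ i, ∑ j, |B i j| ≤ (C : ℤ)) ∧ (∀ i, P i → B i ∈ A) ∧
      B.det ≠ 0 ∧
      ∀ u ∈ A, cst u ∈ Submodule.span ℚ {x : n → ℚ | ∃ k, P k ∧ x = cst (B k)} := by
  classical
  obtain ⟨s, hsA, -, hAs, hs⟩ := exists_linearIndepOn_id_extension (K := ℚ)
    (linearIndepOn_empty ℚ (id : (n → ℚ) → (n → ℚ))) (Set.empty_subset (cst '' A))
  have hst : s ⊆ s ∪ Set.range (fun i : n => (Pi.single i (1 : ℚ) : n → ℚ)) :=
    Set.subset_union_left
  obtain ⟨b, hbsub, hsb, hspan, hb⟩ := exists_linearIndepOn_id_extension (K := ℚ) hs hst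
  have htop : ⊤ ≤ Submodule.span ℚ (Set.range ((↑) : b → (n → ℚ))) := by
    rw [Subtype.range_coe]
    have h1 : Submodule.span ℚ (Set.range (Pi.basisFun ℚ n)) ≤ Submodule.span ℚ b := by
      rw [Submodule.span_le]
      rintro x ⟨i, rfl⟩
      apply hspan
      right
      exact ⟨i, by simp [Pi.basisFun_apply]⟩
    rwa [(Pi.basisFun ℚ n).span_eq] at h1
  let bb : Module.Basis b ℚ (n → ℚ) := Module.Basis.mk hb htop
  let e : b ≃ n := bb.indexEquiv (Pi.basisFun ℚ n)
  have hrow : ∀ i : n, ∃ w : n → ℤ, cst w = ((e.symm i : b) : n → ℚ) ∧ ∑ j, |w j| ≤ (C : ℤ) ∧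
      (((e.symm i : b) : n → ℚ) ∈ s → w ∈ A) := by
    intro i
    by_cases h : ((e.symm i : b) : n → ℚ) ∈ s
    · obtain ⟨w, hw, hw2⟩ := hsA h
      exact ⟨w, hw2, hA w hw, fun _ => hw⟩
    · have h2 := hbsub (e.symm i).2
      rcases h2 with h2 | ⟨k, hk⟩
      · exact absurd h2 h
      · refine ⟨Pi.single k 1, ?_, ?_, fun h3 => absurd h3 h⟩
        · rw [← hk]
          funext j
          by_cases hj : j = k
          · subst hj
            simp [cst]
          · simp [cst, Pi.single_eq_of_ne hj]
        · have h4 : ∑ j, |(Pi.single k (1 : ℤ) : n → ℤ) j| = 1 := by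
            rw [Finset.sum_eq_single k]
            · simp
            · intro j _ hj
              simp [Pi.single_eq_of_ne hj]
            · intro h5
              exact absurd (Finset.mem_univ k) h5
          rw [h4]
          exact_mod_cast hC
  choose B hB1 hB2 hB3 using hrow
  refine ⟨Matrix.of B, fun i => ((e.symm i : b) : n → ℚ) ∈ s, ?_, ?_, ?_, ?_⟩
  · intro i
    exact hB2 i
  · intro i hi
    exact hB3 i hi
  · intro hdet
    have hli : LinearIndependent ℚ (fun i : n => ((e.symm i : b) : n → ℚ)) :=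
      hb.comp e.symm e.symm.injective
    have hrow2 : ((Matrix.of B).map (Int.castRingHom ℚ)).row =
        (fun i : n => ((e.symm i : b) : n → ℚ)) := by
      funext i
      rw [← hB1 i]
      rfl
    have hunit : IsUnit ((Matrix.of B).map (Int.castRingHom ℚ)) := by
      rw [← Matrix.linearIndependent_rows_iff_isUnit, hrow2]
      exact hli
    rw [Matrix.isUnit_iff_isUnit_det] at hunit
    have h3 : ((Matrix.of B).map (Int.castRingHom ℚ)).det = 0 := by
      have h4 := RingHom.map_det (Int.castRingHom ℚ) (Matrix.of B)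
      rw [hdet, map_zero] at h4
      exact h4.symm
    rw [h3] at hunit
    exact not_isUnit_zero hunit
  · intro u hu
    have h1 : cst u ∈ Submodule.span ℚ s := hAs ⟨u, hu, rfl⟩
    refine Submodule.span_mono ?_ h1
    intro x hx
    refine ⟨e ⟨x, hsb hx⟩, ?_, ?_⟩
    · simpa using hx
    · have h2 := hB1 (e ⟨x, hsb hx⟩)
      rw [Equiv.symm_apply_apply] at h2
      exact h2.symm

theorem exists_lattice {n : Type*} [Fintype n] [DecidableEq n] (A : Set (n → ℤ)) (C : ℕ)
    (hC : 1 ≤ C) (hA : ∀ v ∈ A, ∑ i, |v i| ≤ (C : ℤ)) :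
    ∃ N : ℕ, 1 ≤ N ∧ N ≤ C ^ Fintype.card n ∧ ∀ v : n → ℤ,
      (∀ z : n → ℤ, (∀ u ∈ A, ∑ i, u i * z i = 0) → ∑ i, v i * z i = 0) →
        (N : ℤ) • v ∈ AddSubgroup.closure A := by
  classical
  obtain ⟨B, P, hBC, hPA, hdet, hspan⟩ := L2_exists_matrix A C hC hA
  refine ⟨B.det.natAbs, ?_, ?_, ?_⟩
  · exact Nat.one_le_iff_ne_zero.mpr (Int.natAbs_ne_zero.mpr hdet)
  · have h1 : |B.det| ≤ ∏ i, ∑ j, |B i j| := abs_det_le B
    have h2 : ∏ i, ∑ j, |B i j| ≤ ∏ _i : n, (C : ℤ) :=
      Finset.prod_le_prod (fun i _ => Finset.sum_nonneg (fun j _ => abs_nonneg _))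
        (fun i _ => hBC i)
    have h3 : ∏ _i : n, (C : ℤ) = ((C ^ Fintype.card n : ℕ) : ℤ) := by
      rw [Finset.prod_const, Finset.card_univ]
      push_cast
      rfl
    have h4 : ((B.det.natAbs : ℕ) : ℤ) ≤ ((C ^ Fintype.card n : ℕ) : ℤ) := by
      rw [Int.natCast_natAbs]
      exact le_trans h1 (le_trans h2 (le_of_eq h3))
    exact_mod_cast h4
  · intro v hv
    have hzero : ∀ i, ¬ P i → Matrix.vecMul v B.adjugate i = 0 := by
      intro i hi
      have h1 := hv (fun j => B.adjugate j i) ?_
      · simpa [Matrix.vecMul, dotProduct] using h1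
      · intro u hu
        let f : (n → ℚ) →ₗ[ℚ] ℚ :=
          ∑ j, ((B.adjugate j i : ℤ) : ℚ) • (LinearMap.proj j : (n → ℚ) →ₗ[ℚ] ℚ)
        have hf : ∀ w : n → ℤ, f (cst w) = ((∑ j, w j * B.adjugate j i : ℤ) : ℚ) := by
          intro w
          simp only [f, LinearMap.sum_apply, LinearMap.smul_apply, LinearMap.proj_apply, cst,
            smul_eq_mul]
          push_cast
          exact Finset.sum_congr rfl (fun j _ => mul_comm _ _)
        have hker : Submodule.span ℚ {x : n → ℚ | ∃ k, P k ∧ x = cst (B k)} ≤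
            LinearMap.ker f := by
          rw [Submodule.span_le]
          rintro x ⟨k, hk, rfl⟩
          have hki : k ≠ i := fun h => hi (h ▸ hk)
          have h5 : (B * B.adjugate) k i = 0 := by
            rw [Matrix.mul_adjugate]
            simp [Matrix.smul_apply, Matrix.one_apply_ne hki]
          have h6 : (∑ j, B k j * B.adjugate j i) = 0 := by
            simpa [Matrix.mul_apply] using h5
          show f (cst (B k)) = 0
          rw [hf, h6]
          simp
        have h7 : f (cst u) = 0 := hker (hspan u hu)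
        rw [hf] at h7
        exact_mod_cast h7
    have hcramer : B.det • v = ∑ i, Matrix.vecMul v B.adjugate i • B i := by
      have h1 : Matrix.vecMul (Matrix.vecMul v B.adjugate) B = B.det • v := by
        rw [Matrix.vecMul_vecMul, Matrix.adjugate_mul, Matrix.vecMul_smul, Matrix.vecMul_one]
      rw [← h1, Matrix.vecMul_eq_sum]
    have hmem : B.det • v ∈ AddSubgroup.closure A := by
      rw [hcramer]
      refine AddSubgroup.sum_mem _ (fun i _ => ?_)
      by_cases hi : P i
      · exact AddSubgroup.zsmul_mem _ (AddSubgroup.subset_closure (hPA i hi)) _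
      · rw [hzero i hi, zero_smul]
        exact AddSubgroup.zero_mem _
    rcases Int.natAbs_eq B.det with h | h
    · rw [← h]
      exact hmem
    · have h2 : ((B.det.natAbs : ℕ) : ℤ) = - B.det := by
        rw [← neg_eq_iff_eq_neg] at h
        exact h.symm
      rw [h2, neg_smul]
      exact AddSubgroup.neg_mem _ hmem

end Pool.Agent.Lib.MP_745d3a_ag.PF.SB
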