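import Pool.Agent.Lib.MP_745d3a_ag.SB.V1

/-!
Diagonal algebra maps: see the docstring of V1.lean (`monW_of_eig`, `diag_S`).
-/

set_option autoImplicit false
set_option linter.unusedSectionVars false
set_option linter.unusedSimpArgs false
set_option linter.unusedVariables false

open MvPolynomial

namespace Pool.Agent.Lib.MP_745d3a_ag.PF.SB

section

variable {K S ι : Type*} [Field K] [CharZero K] [CommRing S] [Algebra K S] {x : ι → S}
  {E H : Derivation K S S}

/-- the multiplier of the monomial with exponent `e` -/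
private noncomputable def V1b_w (l : ι → Kˣ) (e : ι →₀ ℕ) : Kˣ :=
  Additive.toMul (Finsupp.weight (fun i => Additive.ofMul (l i)) e)

private theorem V1b_w_zero (l : ι → Kˣ) : V1b_w l 0 = 1 := by
  unfold V1b_w
  rw [map_zero]
  rfl

private theorem V1b_w_add (l : ι → Kˣ) (e e' : ι →₀ ℕ) :
    V1b_w l (e + e') = V1b_w l e * V1b_w l e' := by
  unfold V1b_w
  rw [map_add]
  rfl

private theorem V1b_w_single (l : ι → Kˣ) (i : ι) (n : ℕ) :
    V1b_w l (Finsupp.single i n) = l i ^ n := by
  unfold V1b_w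
  rw [Finsupp.weight_single]
  rfl

private theorem V1b_pow {G : S →ₗ[K] S} (h1 : G 1 = 1) (hG : ∀ a b, G (a * b) = G a * G b)
    (l : ι → Kˣ) (hl : ∀ i, G (x i) = (l i : K) • x i) (i : ι) (n : ℕ) :
    G (x i ^ n) = ((l i : K) ^ n) • x i ^ n := by
  induction n with
  | zero => rw [pow_zero, pow_zero, one_smul, h1]
  | succ n ih => rw [pow_succ, hG, ih, hl, smul_mul_smul_comm, ← pow_succ]

private theorem V1b_monomial (hx : Coord K x) {G : S →ₗ[K] S} (h1 : G 1 = 1)
    (hG : ∀ a b, G (a * b) = G a * G b) (l : ι → Kˣ) (hl : ∀ i, G (x i) = (l i : K) • x i)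
    (e : ι →₀ ℕ) : ∀ c : K, G (hx.equiv (monomial e c)) =
      ((V1b_w l e : Kˣ) : K) • hx.equiv (monomial e c) := by
  induction e using Finsupp.induction_linear with
  | zero =>
    intro c
    have h : hx.equiv (monomial 0 c) = c • (1 : S) := by
      have h2 : (monomial 0 c : MvPolynomial ι K) = c • 1 := by
        rw [← C_apply, ← mul_one (C c), ← smul_eq_C_mul]
      rw [h2, map_smul, map_one]
    rw [V1b_w_zero, h, map_smul, h1, Units.val_one, one_smul]
  | add e e' he he' =>
    intro c
    have h : (monomial (e + e') c : MvPolynomial ι K) = monomial e 1 * monomial e' c := by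
      rw [monomial_mul, one_mul]
    rw [h, map_mul, hG, he, he', V1b_w_add, smul_mul_smul_comm, Units.val_mul]
  | single i n =>
    intro c
    have h : hx.equiv (monomial (Finsupp.single i n) c) = c • (x i ^ n) := by
      rw [show (monomial (Finsupp.single i n) c : MvPolynomial ι K) = c • (X i ^ n) by
        rw [X_pow_eq_monomial, smul_monomial, smul_eq_mul, mul_one], map_smul, map_pow,
        hx.equiv_X]
    rw [V1b_w_single, h, map_smul, V1b_pow h1 hG l hl, smul_comm, Units.val_pow_eq_pow_val]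

private theorem V1b_coeff (hx : Coord K x) {G : S →ₗ[K] S} (h1 : G 1 = 1)
    (hG : ∀ a b, G (a * b) = G a * G b) (l : ι → Kˣ) (hl : ∀ i, G (x i) = (l i : K) • x i)
    (p : MvPolynomial ι K) (e : ι →₀ ℕ) :
    coeff e (hx.equiv.symm (G (hx.equiv p))) = ((V1b_w l e : Kˣ) : K) * coeff e p := by
  classical
  induction p using MvPolynomial.induction_on' with
  | monomial u a =>
    rw [V1b_monomial hx h1 hG l hl, map_smul, AlgEquiv.symm_apply_apply, coeff_smul,
      coeff_monomial, smul_eq_mul]
    split_ifs with hu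
    · rw [hu]
    · rw [mul_zero, mul_zero]
  | add p q hp hq =>
    rw [map_add, map_add, map_add, coeff_add, hp, hq, coeff_add, mul_add]

theorem monW_of_eig (hx : Coord K x) {G : S →ₗ[K] S} (h1 : G 1 = 1)
    (hG : ∀ a b, G (a * b) = G a * G b) (l : ι → Kˣ) (hl : ∀ i, G (x i) = (l i : K) • x i)
    {μ : Kˣ} {a : S} (ha : G a = (μ : K) • a) :
    MonW hx (fun i => Additive.ofMul (l i)) (Additive.ofMul μ) a := by
  intro e he
  have h2 := V1b_coeff hx h1 hG l hl (hx.equiv.symm a) e
  rw [AlgEquiv.apply_symm_apply, ha, map_smul, coeff_smul, smul_eq_mul] at h2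
  have h3 : (μ : K) = ((V1b_w l e : Kˣ) : K) := mul_right_cancel₀ (mem_support_iff.1 he) h2
  have h4 : μ = V1b_w l e := Units.ext h3
  rw [h4]
  rfl

theorem diag_S (hx : Coord K x) {G : S →ₗ[K] S} (h1 : G 1 = 1)
    (hG : ∀ a b, G (a * b) = G a * G b) (l : ι → Kˣ) (hl : ∀ i, G (x i) = (l i : K) • x i) :
    DiagK G := by
  unfold DiagK
  rw [eq_top_iff]
  intro a _
  obtain ⟨p, rfl⟩ := hx.equiv.surjective a
  induction p using MvPolynomial.induction_on' with
  | monomial u c =>
    refine Submodule.mem_iSup_of_mem (((V1b_w l u : Kˣ) : K)) ?_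
    rw [Module.End.mem_eigenspace_iff]
    exact V1b_monomial hx h1 hG l hl u c
  | add p q hp hq =>
    rw [map_add]
    exact Submodule.add_mem _ (hp trivial) (hq trivial)

end

end Pool.Agent.Lib.MP_745d3a_ag.PF.SB
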