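import Pool.Agent.Lib.MP_745d3a_ag.SB.V1

/-!
The weight operator of an integral solution.

`H := hx.der (fun i => (z i : K) • x i)` (`Coord.der_x`). Let `π c = ∑ i, c i • m i`, a surjection
`(Fin p → S) → M` (`P.span`), and `T c = fun i => H (c i) + (u i : K) • c i`. `T` maps the kernel of
`π` to itself: the kernel is `span (range r)` (`P.ker`), `T (r j) = (v j : K) • r j`
by `der_monW`, and `T (s • c) = H s • c + s • T c` (`Submodule.span_induction`). So
`η (π c) := π (T c)` is well defined: `η m = π (T (Function.surjInv _ m))`; it is `K`-linear and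
`IsConn H η`, `η (m i) = (u i : K) • m i`. `ε (η (s • m i)) = η (ε (s • m i))` because `E (H s) =
H (E s)` (both are derivations commuting on the coordinates: `Coord.der_ext` for `⁅E, H⁆ = 0`)
and `P.hm`; every element is a sum of elements `s • m i`. `Diag η`: `S` is spanned by eigenvectors of
`H` with integral eigenvalues (monomials; `Coord.induction` with `D1P_add` (PFBun.lean), or write
`hx.equiv.symm s` as the sum of its monomials and use `der_monW`); `s • m i` with `H s = k • s` is an
eigenvector of `η` with eigenvalue `k + u i`; sums: `D1P_sum`, `D1P_eig` in PFBun.lean.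
-/

set_option autoImplicit false
set_option linter.unusedSectionVars false
set_option linter.unusedSimpArgs false
set_option linter.unusedVariables false

open MvPolynomial

namespace Pool.Agent.Lib.MP_745d3a_ag.PF.SB

section sums

variable {K V : Type*} [Field K] [AddCommGroup V] [Module K V]

/-- `v` is a sum of eigenvectors with integral eigenvalues. -/
private def V2_D (T : V →ₗ[K] V) (v : V) : Prop :=
  ∃ (s : Finset ℤ) (f : ℤ → V), (∀ d, T (f d) = (d : K) • f d) ∧ v = ∑ d ∈ s, f d

private lemma V2_eig {T : V →ₗ[K] V} {v : V} {d : ℤ} (h : T v = (d : K) • v) : V2_D T v := by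
  classical
  refine ⟨{d}, fun e => if e = d then v else 0, ?_, by simp⟩
  intro e
  by_cases he : e = d
  · subst he; simp [h]
  · simp [he]

private lemma V2_zero {T : V →ₗ[K] V} : V2_D T 0 :=
  ⟨∅, fun _ => 0, by simp, by simp⟩

private lemma V2_add {T : V →ₗ[K] V} {v w : V} (hv : V2_D T v) (hw : V2_D T w) :
    V2_D T (v + w) := by
  classical
  obtain ⟨s, f, hf, rfl⟩ := hv
  obtain ⟨t, g, hg, rfl⟩ := hw
  refine ⟨s ∪ t, fun d => (if d ∈ s then f d else 0) + (if d ∈ t then g d else 0), ?_, ?_⟩
  · intro d
    rw [map_add, smul_add]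
    congr 1
    · by_cases hd : d ∈ s
      · simp only [hd, if_true]; exact hf d
      · simp only [hd, if_false, map_zero, smul_zero]
    · by_cases hd : d ∈ t
      · simp only [hd, if_true]; exact hg d
      · simp only [hd, if_false, map_zero, smul_zero]
  · rw [Finset.sum_add_distrib, Finset.sum_ite_mem, Finset.sum_ite_mem,
      Finset.inter_eq_right.mpr Finset.subset_union_left,
      Finset.inter_eq_right.mpr Finset.subset_union_right]

private lemma V2_sum {T : V →ₗ[K] V} {α : Type*} (s : Finset α) (f : α → V)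
    (h : ∀ a ∈ s, V2_D T (f a)) : V2_D T (∑ a ∈ s, f a) :=
  Finset.sum_induction f (V2_D T) (fun _ _ => V2_add) V2_zero h

end sums

section coordinates

variable {K S ι : Type*} [Field K] [CommRing S] [Algebra K S] {x : ι → S}

/-- A derivation with `H (x i) = z i • x i` is diagonalisable on `S`. -/
private lemma V2_diagH (hx : Coord K x) {H : Derivation K S S} {z : ι → ℤ}
    (hH : ∀ i, H (x i) = (z i : K) • x i) (a : S) : V2_D (H : S →ₗ[K] S) a := by
  refine hx.induction (P := fun a => V2_D (H : S →ₗ[K] S) a) ?_ ?_ ?_ a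
  · intro c
    refine V2_eig (d := 0) ?_
    show H (algebraMap K S c) = _
    rw [Derivation.map_algebraMap, Int.cast_zero, zero_smul]
  · intro a b ha hb
    exact V2_add ha hb
  · rintro a i ⟨s, f, hf, rfl⟩
    rw [Finset.sum_mul]
    refine V2_sum _ _ fun d _ => V2_eig (d := d + z i) ?_
    have h1 : H (f d) = (d : K) • f d := hf d
    show H (f d * x i) = _
    rw [Derivation.leibniz, hH, h1, smul_eq_mul, smul_eq_mul, mul_smul_comm, mul_smul_comm,
      Int.cast_add, add_smul, mul_comm (x i) (f d), add_comm]

/-- `E` and `H` commute. -/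
private lemma V2_comm (hx : Coord K x) {E H : Derivation K S S} {z : ι → ℤ} (hE : IsEuler x E)
    (hH : ∀ i, H (x i) = (z i : K) • x i) (a : S) : E (H a) = H (E a) := by
  have h0 : ⁅E, H⁆ = (0 : Derivation K S S) := by
    refine hx.der_ext fun i => ?_
    rw [Derivation.commutator_apply, hH, hE i, Derivation.map_smul, hE i, hH, sub_self]
    rfl
  have h1 := congrArg (fun D : Derivation K S S => D a) h0
  simp only [Derivation.commutator_apply] at h1
  exact sub_eq_zero.mp h1

end coordinates

section

variable {K S ι M : Type*} [Field K] [CharZero K] [CommRing S] [Algebra K S] {x : ι → S}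
  {E : Derivation K S S} [AddCommGroup M] [Module K M] [Module S M] [IsScalarTower K S M]
  {ε : M →ₗ[K] M} {p q : ℕ} {m : Fin p → M} {r : Fin q → Fin p → S} {a : Fin p → ℤ}
  {b : Fin q → ℤ}

theorem exists_weightOp (hx : Coord K x) (hE : IsEuler x E) (cE : IsConn E ε)
    (P : Prs E ε m r a b) (z : ι → ℤ) (u : Fin p → ℤ) (v : Fin q → ℤ)
    (hw : ∀ j i, MonW hx z (v j - u i) (r j i)) :
    ∃ (H : Derivation K S S) (η : M →ₗ[K] M), (∀ i, H (x i) = (z i : K) • x i) ∧ IsConn H η ∧
      Diag η ∧ ∀ m, ε (η m) = η (ε m) := by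
  classical
  obtain ⟨H, hHx⟩ : ∃ H : Derivation K S S, ∀ i, H (x i) = (z i : K) • x i :=
    ⟨hx.der (fun i => (z i : K) • x i), fun i => hx.der_x _ i⟩
  have hHr : ∀ j i, H (r j i) = ((v j - u i : ℤ) : K) • r j i := fun j i =>
    der_monW hx z hHx (hw j i)
  let π : (Fin p → S) →ₗ[S] M := Fintype.linearCombination S m
  have hπ : ∀ c, π c = ∑ i, c i • m i := fun c => Fintype.linearCombination_apply S m c
  have hsurj : Function.Surjective π := by
    rw [← LinearMap.range_eq_top]
    show LinearMap.range (Fintype.linearCombination S m) = ⊤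
    rw [Fintype.range_linearCombination]
    exact P.span
  have hπK : ∀ (k : K) (c : Fin p → S), π (k • c) = k • π c := by
    intro k c
    rw [hπ, hπ, Finset.smul_sum]
    refine Finset.sum_congr rfl fun i _ => ?_
    rw [Pi.smul_apply, smul_assoc]
  let T : (Fin p → S) → (Fin p → S) := fun c i => H (c i) + (u i : K) • c i
  have hTadd : ∀ c d, T (c + d) = T c + T d := by
    intro c d
    funext i
    show H (c i + d i) + (u i : K) • (c i + d i)
      = (H (c i) + (u i : K) • c i) + (H (d i) + (u i : K) • d i)
    rw [map_add, smul_add]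
    abel
  have hTsub : ∀ c d, T (c - d) = T c - T d := by
    intro c d
    have h1 := hTadd (c - d) d
    rw [sub_add_cancel] at h1
    rw [h1, add_sub_cancel_right]
  have hTK : ∀ (k : K) (c : Fin p → S), T (k • c) = k • T c := by
    intro k c
    funext i
    show H (k • c i) + (u i : K) • (k • c i) = k • (H (c i) + (u i : K) • c i)
    rw [Derivation.map_smul, smul_add, smul_comm k]
  have hTS : ∀ (s : S) (c : Fin p → S), T (s • c) = H s • c + s • T c := by
    intro s c
    funext i
    show H (s * c i) + (u i : K) • (s * c i) = H s * c i + s * (H (c i) + (u i : K) • c i)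
    rw [Derivation.leibniz, smul_eq_mul, smul_eq_mul, mul_add, mul_smul_comm]
    ring
  have hTr : ∀ j, T (r j) = algebraMap K S (v j : K) • r j := by
    intro j
    funext i
    show H (r j i) + (u i : K) • r j i = algebraMap K S (v j : K) * r j i
    rw [hHr, ← add_smul, Int.cast_sub, sub_add_cancel, Algebra.smul_def]
  have hTker : ∀ c ∈ Submodule.span S (Set.range r), T c ∈ Submodule.span S (Set.range r) := by
    intro c hc
    induction hc using Submodule.span_induction with
    | mem c hc =>
      obtain ⟨j, rfl⟩ := hc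
      rw [hTr]
      exact Submodule.smul_mem _ _ (Submodule.subset_span ⟨j, rfl⟩)
    | zero =>
      have h0 : T 0 = 0 := by
        have := hTsub 0 0
        rwa [sub_self, sub_self] at this
      rw [h0]
      exact Submodule.zero_mem _
    | add c d _ _ hc hd => rw [hTadd]; exact Submodule.add_mem _ hc hd
    | smul s c hcs hc =>
      rw [hTS]
      exact Submodule.add_mem _ (Submodule.smul_mem _ _ hcs) (Submodule.smul_mem _ _ hc)
  have hwell : ∀ c d, π c = π d → π (T c) = π (T d) := by
    intro c d h
    have h1 : c - d ∈ Submodule.span S (Set.range r) := by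
      rw [← P.ker, ← hπ, map_sub, h, sub_self]
    have h2 := hTker _ h1
    rw [← P.ker, ← hπ, hTsub, map_sub] at h2
    exact sub_eq_zero.mp h2
  obtain ⟨η, hη⟩ : ∃ η : M →ₗ[K] M, ∀ c, η (π c) = π (T c) := by
    have hkey : ∀ c, π (T (Function.surjInv hsurj (π c))) = π (T c) := fun c =>
      hwell _ _ (Function.surjInv_eq hsurj (π c))
    refine ⟨{ toFun := fun w => π (T (Function.surjInv hsurj w))
              map_add' := ?_
              map_smul' := ?_ }, hkey⟩
    · intro w w'
      obtain ⟨c, rfl⟩ := hsurj w
      obtain ⟨d, rfl⟩ := hsurj w'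
      rw [← map_add, hkey, hkey, hkey, hTadd, map_add]
    · intro k w
      obtain ⟨c, rfl⟩ := hsurj w
      rw [← hπK, hkey, hkey, hTK, hπK, RingHom.id_apply]
  have hconn : IsConn H η := by
    intro s w
    obtain ⟨c, rfl⟩ := hsurj w
    rw [← map_smul, hη, hTS, map_add, map_smul, map_smul, hη]
  have hηm : ∀ i, η (m i) = (u i : K) • m i := by
    intro i
    have h1 : π (Pi.single i 1) = m i := by
      rw [hπ, Finset.sum_eq_single i]
      · rw [Pi.single_eq_same, one_smul]
      · intro j _ hj
        rw [Pi.single_eq_of_ne hj, zero_smul]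
      · intro h
        exact absurd (Finset.mem_univ i) h
    have h2 : T (Pi.single i 1) = (u i : K) • (Pi.single i 1 : Fin p → S) := by
      funext j
      show H ((Pi.single i 1 : Fin p → S) j) + (u j : K) • (Pi.single i 1 : Fin p → S) j
        = (u i : K) • (Pi.single i 1 : Fin p → S) j
      by_cases hj : j = i
      · subst hj
        rw [Pi.single_eq_same, Derivation.map_one_eq_zero, zero_add]
      · rw [Pi.single_eq_of_ne hj, map_zero, smul_zero, smul_zero, zero_add]
    rw [← h1, hη, h2, hπK]
  refine ⟨H, η, hHx, hconn, ?_, ?_⟩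
  · intro w
    show V2_D η w
    obtain ⟨c, rfl⟩ := hsurj w
    rw [hπ]
    refine V2_sum _ _ fun i _ => ?_
    obtain ⟨s, f, hf, hc⟩ := V2_diagH hx hHx (c i)
    rw [hc, Finset.sum_smul]
    refine V2_sum _ _ fun d _ => V2_eig (d := d + u i) ?_
    have h1 : H (f d) = (d : K) • f d := hf d
    rw [hconn, h1, hηm, Int.cast_add, add_smul, smul_assoc, smul_comm (f d) (u i : K) (m i)]
  · intro w
    obtain ⟨c, rfl⟩ := hsurj w
    rw [hπ, map_sum, map_sum, map_sum, map_sum]
    refine Finset.sum_congr rfl fun i _ => ?_
    rw [hconn, hηm, cE, P.hm, map_add, map_add, cE, P.hm, hconn, hηm,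
      smul_comm (c i) (u i : K) (m i), smul_comm (c i) (a i : K) (m i), LinearMap.map_smul,
      LinearMap.map_smul, cE, P.hm, hconn, hηm, V2_comm hx hE hHx, smul_add, smul_add,
      smul_comm (H (c i)) (a i : K) (m i), smul_comm (E (c i)) (u i : K) (m i),
      smul_comm (c i) (a i : K) (m i), smul_comm (c i) (u i : K) (m i),
      smul_comm (u i : K) (a i : K)]
    abel

end

end Pool.Agent.Lib.MP_745d3a_ag.PF.SB
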