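import Pool.Agent.Lib.MP_745d3a_ag.NV.Tr
import Pool.Agent.Lib.MP_745d3a_ag.SB.L2
import Pool.Agent.Lib.MP_745d3a_ag.SB.V1b
import Pool.Agent.Lib.MP_745d3a_ag.SB.V2

/-!
Order bound for a diagonal symmetry.

`n := Fin 5 ⊕ Fin p ⊕ Fin q`, `A` the set of the vectors `row e i j`, `e` a monomial of `r j i`
(`e ∈ (hx.equiv.symm (r j i)).support`): `Sum.elim (fun k => (e k : ℤ)) (Sum.elim (Pi.single i 1)
(- Pi.single j 1))`. The sum of the absolute values is `∑ k, e k + 2 ≤ D + 2`, because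
`∑ k, e k = b j - a i` (`monW_euler` with `P.hr`, `Finsupp.weight`; `hD`). Let `N` be given by
`exists_lattice` with `C = D + 2`; `Fintype.card n = 5 + p + q`.
Case 1: there are `z : n → ℤ` orthogonal to `A` and `k k'` with `z (inl k) ≠ z (inl k')`. Then
`MonW hx (z ∘ inl) (v j - u i) (r j i)` with `u i = z (inr (inl i))`, `v j = z (inr (inr j))`; by
`exists_weightOp` and `GA.gm_op` (with `w = z ∘ inl`) `M` is generated by two elements.
Case 2: all `z` orthogonal to `A` have `z (inl k) = z (inl k')` for all `k k'`. Then `v = Pi.single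
(inl k) 1 - Pi.single (inl k') 1` satisfies the hypothesis of `exists_lattice`, so `N • v` is in
the subgroup generated by `A`. The homomorphism `Θ : (n → ℤ) →+ Additive Kˣ`,
`Θ z = ∑ k, z (inl k) • ofMul (l k) + ∑ i, z (inr (inl i)) • ofMul (α i) +
∑ j, z (inr (inr j)) • ofMul (β j)` vanishes on `A` (`hw`), hence `Θ (N • v) = 0`:
`(l k / l k') ^ N = 1` (`AddSubgroup.closure_le` with the kernel of `Θ`).
-/

set_option autoImplicit false
set_option linter.unusedSectionVars false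
set_option linter.unusedSimpArgs false
set_option linter.unusedVariables false

open MvPolynomial

namespace Pool.Agent.Lib.MP_745d3a_ag.PF.SB

section

theorem M1_sum_single {ι : Type*} [Fintype ι] [DecidableEq ι] (i : ι) :
    ∑ k, |(Pi.single i (1 : ℤ) : ι → ℤ) k| = 1 := by
  rw [Finset.sum_eq_single i]
  · simp
  · intro b _ hb
    simp [Pi.single_eq_of_ne hb]
  · intro h
    exact absurd (Finset.mem_univ i) h

theorem M1_sum_single_smul {ι G : Type*} [Fintype ι] [DecidableEq ι] [AddCommGroup G] (i : ι)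
    (g : ι → G) : ∑ k, (Pi.single i (1 : ℤ) : ι → ℤ) k • g k = g i := by
  rw [Finset.sum_eq_single i]
  · simp
  · intro b _ hb
    simp [Pi.single_eq_of_ne hb]
  · intro h
    exact absurd (Finset.mem_univ i) h

/-- The exponent vector of the monomial `e` of the entry `(j, i)`. -/
def M1_row {p q : ℕ} (e : Fin 5 →₀ ℕ) (i : Fin p) (j : Fin q) : Fin 5 ⊕ (Fin p ⊕ Fin q) → ℤ :=
  Sum.elim (fun k => (e k : ℤ)) (Sum.elim (Pi.single i 1) (-(Pi.single j 1)))

theorem M1_row_smul {p q : ℕ} {G : Type*} [AddCommGroup G] (e : Fin 5 →₀ ℕ) (i : Fin p)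
    (j : Fin q) (g : Fin 5 ⊕ (Fin p ⊕ Fin q) → G) :
    ∑ c, M1_row e i j c • g c
      = Finsupp.weight (fun k => g (Sum.inl k)) e + g (Sum.inr (Sum.inl i))
        - g (Sum.inr (Sum.inr j)) := by
  have h1 : ∑ k, (Pi.single i (1 : ℤ) : Fin p → ℤ) k • g (Sum.inr (Sum.inl k))
      = g (Sum.inr (Sum.inl i)) := M1_sum_single_smul i fun k => g (Sum.inr (Sum.inl k))
  have h2 : ∑ k, (Pi.single j (1 : ℤ) : Fin q → ℤ) k • g (Sum.inr (Sum.inr k))
      = g (Sum.inr (Sum.inr j)) := M1_sum_single_smul j fun k => g (Sum.inr (Sum.inr k))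
  have h3 : Finsupp.weight (fun k => g (Sum.inl k)) e = ∑ k, (e k : ℤ) • g (Sum.inl k) := by
    rw [Finsupp.weight_apply, Finsupp.sum_fintype]
    · refine Finset.sum_congr rfl fun k _ => ?_
      rw [natCast_zsmul]
    · intro k
      rw [zero_smul]
  rw [Fintype.sum_sum_type, Fintype.sum_sum_type, h3]
  simp only [M1_row, Sum.elim_inl, Sum.elim_inr, Pi.neg_apply, neg_smul, Finset.sum_neg_distrib,
    h1, h2]
  abel

theorem M1_row_abs {p q : ℕ} (e : Fin 5 →₀ ℕ) (i : Fin p) (j : Fin q) :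
    ∑ c, |M1_row e i j c| = Finsupp.weight (fun _ => (1 : ℤ)) e + 2 := by
  have h3 : Finsupp.weight (fun _ : Fin 5 => (1 : ℤ)) e = ∑ k, (e k : ℤ) := by
    rw [Finsupp.weight_apply, Finsupp.sum_fintype]
    · refine Finset.sum_congr rfl fun k _ => ?_
      simp
    · intro k
      rw [zero_smul]
  rw [Fintype.sum_sum_type, Fintype.sum_sum_type, h3]
  simp only [M1_row, Sum.elim_inl, Sum.elim_inr, Pi.neg_apply, abs_neg, M1_sum_single,
    Nat.abs_cast]
  ring

universe uM

variable {K S : Type*} {M : Type uM} [Field K] [CharZero K] [IsAlgClosed K] [CommRing S] [Algebra K S]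
  {x : Fin 5 → S}
  {E : Derivation K S S} [AddCommGroup M] [Module K M] [Module S M] [IsScalarTower K S M]
  {ε : M →ₗ[K] M} {p q : ℕ} {m : Fin p → M} {r : Fin q → Fin p → S} {a : Fin p → ℤ}
  {b : Fin q → ℤ}

theorem order_bound (hGT : GA.GmThm.{uM} K) (hx : Coord K x) (hE : IsEuler x E) (cE : IsConn E ε) (dE : Diag ε)
    (hM : Bun x M) (P : Prs E ε m r a b) {D : ℕ} (hD : ∀ i j, b j - a i ≤ (D : ℤ))
    (l : Fin 5 → Kˣ) (α : Fin p → Kˣ) (β : Fin q → Kˣ)
    (hw : ∀ j i, MonW hx (fun k => Additive.ofMul (l k)) (Additive.ofMul (β j / α i)) (r j i)) :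
    Gen2 S M ∨ ∃ N : ℕ, 1 ≤ N ∧ N ≤ (D + 2) ^ (5 + p + q) ∧ ∀ k k', (l k / l k') ^ N = 1 := by
  classical
  set A : Set (Fin 5 ⊕ (Fin p ⊕ Fin q) → ℤ) :=
    {w | ∃ e i j, e ∈ (hx.equiv.symm (r j i)).support ∧ w = M1_row e i j} with hA
  have habs : ∀ v ∈ A, ∑ c, |v c| ≤ ((D + 2 : ℕ) : ℤ) := by
    rintro v ⟨e, i, j, he, rfl⟩
    have h1 := monW_euler hx hE (P.hr j i) e he
    rw [M1_row_abs, h1]
    have := hD i j
    push_cast
    omega
  obtain ⟨N, hN1, hN2, hN3⟩ := exists_lattice A (D + 2) (by omega) habs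
  by_cases h : ∃ z : Fin 5 ⊕ (Fin p ⊕ Fin q) → ℤ, (∀ u ∈ A, ∑ i, u i * z i = 0) ∧
      ∃ k k', z (Sum.inl k) ≠ z (Sum.inl k')
  · left
    obtain ⟨z, hz, hk⟩ := h
    have hmw : ∀ j i, MonW hx (fun k => z (Sum.inl k))
        (z (Sum.inr (Sum.inr j)) - z (Sum.inr (Sum.inl i))) (r j i) := by
      intro j i e he
      have h1 := hz _ ⟨e, i, j, he, rfl⟩
      have h2 := M1_row_smul e i j z
      simp only [smul_eq_mul] at h2
      rw [h1] at h2
      omega
    obtain ⟨H, η, hH, cH, dH, hc⟩ := exists_weightOp hx hE cE P (fun k => z (Sum.inl k))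
      (fun i => z (Sum.inr (Sum.inl i))) (fun j => z (Sum.inr (Sum.inr j))) hmw
    obtain ⟨f1, f2, -, -, -, -, -, -, -, -, hs, -⟩ :=
      GA.gm_op hGT hx hE hH hk cE dE cH dH hc hM
    exact ⟨f1, f2, hs⟩
  · right
    refine ⟨N, hN1, ?_, ?_⟩
    · have hc : Fintype.card (Fin 5 ⊕ (Fin p ⊕ Fin q)) = 5 + p + q := by
        simp only [Fintype.card_sum, Fintype.card_fin]
        omega
      rw [hc] at hN2
      exact hN2
    · intro k k'
      have hv : ∀ z : Fin 5 ⊕ (Fin p ⊕ Fin q) → ℤ, (∀ u ∈ A, ∑ i, u i * z i = 0) →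
          ∑ i, ((Pi.single (Sum.inl k) 1 - Pi.single (Sum.inl k') 1 :
            Fin 5 ⊕ (Fin p ⊕ Fin q) → ℤ)) i * z i = 0 := by
        intro z hz
        have h1 : z (Sum.inl k) = z (Sum.inl k') := by
          by_contra hne
          exact h ⟨z, hz, k, k', hne⟩
        have h2 := M1_sum_single_smul (Sum.inl k : Fin 5 ⊕ (Fin p ⊕ Fin q)) z
        have h3 := M1_sum_single_smul (Sum.inl k' : Fin 5 ⊕ (Fin p ⊕ Fin q)) z
        simp only [smul_eq_mul] at h2 h3
        simp only [Pi.sub_apply, sub_mul, Finset.sum_sub_distrib, h2, h3, h1, sub_self]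
      have hmem := hN3 _ hv
      set g : Fin 5 ⊕ (Fin p ⊕ Fin q) → Additive Kˣ :=
        Sum.elim (fun k => Additive.ofMul (l k))
          (Sum.elim (fun i => Additive.ofMul (α i)) (fun j => Additive.ofMul (β j))) with hg
      let Θ : (Fin 5 ⊕ (Fin p ⊕ Fin q) → ℤ) →+ Additive Kˣ :=
        AddMonoidHom.mk' (fun z => ∑ c, z c • g c) (by
          intro z z'
          rw [← Finset.sum_add_distrib]
          refine Finset.sum_congr rfl fun c _ => ?_
          rw [Pi.add_apply, add_zsmul])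
      have hker : AddSubgroup.closure A ≤ Θ.ker := by
        rw [AddSubgroup.closure_le]
        rintro v ⟨e, i, j, he, rfl⟩
        have h1 := hw j i e he
        have h2 := M1_row_smul e i j g
        have h3 : Θ (M1_row e i j) = ∑ c, M1_row e i j c • g c := rfl
        change M1_row e i j ∈ Θ.ker
        rw [AddMonoidHom.mem_ker, h3, h2]
        have h4 : Finsupp.weight (fun k => g (Sum.inl k)) e = Additive.ofMul (β j / α i) := h1
        rw [h4, ofMul_div]
        simp only [hg, Sum.elim_inl, Sum.elim_inr]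
        abel
      have h5 := hker hmem
      rw [AddMonoidHom.mem_ker, map_zsmul] at h5
      have h6 : Θ (Pi.single (Sum.inl k) 1 - Pi.single (Sum.inl k') 1)
          = Additive.ofMul (l k) - Additive.ofMul (l k') := by
        rw [map_sub]
        have h7 : Θ (Pi.single (Sum.inl k) 1) = g (Sum.inl k) :=
          M1_sum_single_smul (Sum.inl k : Fin 5 ⊕ (Fin p ⊕ Fin q)) g
        have h8 : Θ (Pi.single (Sum.inl k') 1) = g (Sum.inl k') :=
          M1_sum_single_smul (Sum.inl k' : Fin 5 ⊕ (Fin p ⊕ Fin q)) g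
        rw [h7, h8]
        simp only [hg, Sum.elim_inl]
      rw [h6, ← ofMul_div, natCast_zsmul, ← ofMul_pow] at h5
      exact Additive.ofMul.injective h5

end

end Pool.Agent.Lib.MP_745d3a_ag.PF.SB
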