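import Pool.Agent.Lib.MP_745d3a_ag.SB.Defs

/-!
Changing one generator, changing one relation.

* `Prs.exchange_gen`: let `θ : (Fin p → S) → (Fin p → S)`, `θ c i0 = c⁻¹ • c i0`,
  `θ c i = c i - s i * (c⁻¹ • c i0)` for `i ≠ i0`; put `r' j = θ (r j)`. With
  `m' = Function.update m i0 (c • m i0 + ∑ i, s i • m i)` one has `∑ i, θ c i • m' i = ∑ i, c i • m i`;
  `θ` is bijective and `S`-linear (inverse: `c i0 ↦ c • c i0`, `c i ↦ c i + s i * c i0`), so the kernel
  of the new presentation is the image of the old one: the span of the `θ (r j)`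
  (`Submodule.map_span`).
* `Prs.exchange_rel`: `r' = Function.update r j0 (c • r j0 + ∑ j, s j • r j)` has the same span.
-/

set_option autoImplicit false
set_option linter.unusedSectionVars false
set_option linter.unusedSimpArgs false
set_option linter.unusedVariables false

open MvPolynomial

namespace Pool.Agent.Lib.MP_745d3a_ag.PF.SB

section

variable {K S M : Type*} [Field K] [CommRing S] [Algebra K S]
  {E : Derivation K S S} [AddCommGroup M] [Module K M] [Module S M] [IsScalarTower K S M]
  {ε : M →ₗ[K] M} {p q : ℕ} {m : Fin p → M} {r : Fin q → Fin p → S} {a : Fin p → ℤ}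
  {b : Fin q → ℤ}

private lemma x2_span {N : Type*} [AddCommGroup N] [Module K N] [Module S N]
    [IsScalarTower K S N] {n : ℕ} (y : Fin n → N) (j0 : Fin n) {c : K} (hc : c ≠ 0)
    (s : Fin n → S) (hs0 : s j0 = 0) :
    Submodule.span S (Set.range (Function.update y j0 (c • y j0 + ∑ j, s j • y j))) =
      Submodule.span S (Set.range y) := by
  set y' := Function.update y j0 (c • y j0 + ∑ j, s j • y j) with hy'
  have h0 : y' j0 = c • y j0 + ∑ j, s j • y j := by rw [hy', Function.update_self]
  have h1 : ∀ j, j ≠ j0 → y' j = y j := fun j hj => by rw [hy', Function.update_of_ne hj]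
  apply le_antisymm
  · rw [Submodule.span_le]
    rintro _ ⟨j, rfl⟩
    by_cases hj : j = j0
    · rw [hj, h0]
      refine Submodule.add_mem _ ?_ (Submodule.sum_mem _ fun i _ =>
        Submodule.smul_mem _ _ (Submodule.subset_span ⟨i, rfl⟩))
      rw [← algebraMap_smul S]
      exact Submodule.smul_mem _ _ (Submodule.subset_span ⟨j0, rfl⟩)
    · rw [h1 j hj]
      exact Submodule.subset_span ⟨j, rfl⟩
  · have h2 : ∑ j, s j • y j ∈ Submodule.span S (Set.range y') := by
      refine Submodule.sum_mem _ fun j _ => ?_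
      by_cases hj : j = j0
      · rw [hj, hs0, zero_smul]
        exact Submodule.zero_mem _
      · rw [← h1 j hj]
        exact Submodule.smul_mem _ _ (Submodule.subset_span ⟨j, rfl⟩)
    rw [Submodule.span_le]
    rintro _ ⟨j, rfl⟩
    by_cases hj : j = j0
    · have h3 : y j0 = algebraMap K S c⁻¹ • (y' j0 - ∑ j, s j • y j) := by
        rw [h0, add_sub_cancel_right, algebraMap_smul, smul_smul, inv_mul_cancel₀ hc, one_smul]
      rw [hj, h3]
      exact Submodule.smul_mem _ _ (Submodule.sub_mem _ (Submodule.subset_span ⟨j0, rfl⟩) h2)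
    · rw [← h1 j hj]
      exact Submodule.subset_span ⟨j, rfl⟩

/-- The change of coordinates of the relations. -/
private def x2_th (i0 : Fin p) (c : K) (s : Fin p → S) : (Fin p → S) →ₗ[S] (Fin p → S) where
  toFun v i := if i = i0 then c • v i0 else v i - s i * (c • v i0)
  map_add' v w := by
    funext i
    simp only [Pi.add_apply]
    split_ifs
    · rw [smul_add]
    · rw [smul_add]; ring
  map_smul' t v := by
    funext i
    simp only [Pi.smul_apply, smul_eq_mul, RingHom.id_apply]
    split_ifs
    · rw [mul_smul_comm]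
    · rw [mul_sub, ← mul_smul_comm]; ring

private lemma x2_th_self (i0 : Fin p) (c : K) (s v : Fin p → S) :
    x2_th i0 c s v i0 = c • v i0 := by
  show (if i0 = i0 then c • v i0 else v i0 - s i0 * (c • v i0)) = _
  rw [if_pos rfl]

private lemma x2_th_ne {i0 i : Fin p} (h : i ≠ i0) (c : K) (s v : Fin p → S) :
    x2_th i0 c s v i = v i - s i * (c • v i0) := by
  show (if i = i0 then c • v i0 else v i - s i * (c • v i0)) = _
  rw [if_neg h]

/-- The inverse change of coordinates of the relations. -/
private def x2_ps (i0 : Fin p) (c : K) (s : Fin p → S) (v : Fin p → S) : Fin p → S :=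
  fun i => if i = i0 then c • v i0 else v i + s i * v i0

private lemma x2_ps_self (i0 : Fin p) (c : K) (s v : Fin p → S) :
    x2_ps i0 c s v i0 = c • v i0 := by
  unfold x2_ps
  rw [if_pos rfl]

private lemma x2_ps_ne {i0 i : Fin p} (h : i ≠ i0) (c : K) (s v : Fin p → S) :
    x2_ps i0 c s v i = v i + s i * v i0 := by
  unfold x2_ps
  rw [if_neg h]

private lemma x2_ps_th (i0 : Fin p) {c : K} (hc : c ≠ 0) (s v : Fin p → S) :
    x2_ps i0 c s (x2_th i0 c⁻¹ s v) = v := by
  funext i
  by_cases h : i = i0
  · rw [h, x2_ps_self, x2_th_self, smul_smul, mul_inv_cancel₀ hc, one_smul]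
  · rw [x2_ps_ne h, x2_th_self, x2_th_ne h]
    ring

private lemma x2_th_ps (i0 : Fin p) {c : K} (hc : c ≠ 0) (s v : Fin p → S) :
    x2_th i0 c⁻¹ s (x2_ps i0 c s v) = v := by
  funext i
  by_cases h : i = i0
  · rw [h, x2_th_self, x2_ps_self, smul_smul, inv_mul_cancel₀ hc, one_smul]
  · rw [x2_th_ne h, x2_ps_self, x2_ps_ne h, smul_smul, inv_mul_cancel₀ hc, one_smul]
    ring

private lemma x2_sum (m : Fin p → M) (i0 : Fin p) {c : K} (s : Fin p → S) (hs0 : s i0 = 0)
    (w : Fin p → S) :
    ∑ i, w i • (Function.update m i0 (c • m i0 + ∑ i, s i • m i)) i =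
      ∑ i, x2_ps i0 c s w i • m i := by
  have h1 : ∑ i, w i • (Function.update m i0 (c • m i0 + ∑ i, s i • m i)) i =
      w i0 • (c • m i0 + ∑ i, s i • m i) + ∑ i ∈ Finset.univ.erase i0, w i • m i := by
    rw [← Finset.add_sum_erase _ _ (Finset.mem_univ i0), Function.update_self]
    congr 1
    refine Finset.sum_congr rfl fun i hi => ?_
    rw [Function.update_of_ne (Finset.ne_of_mem_erase hi)]
  have h2 : ∑ i, x2_ps i0 c s w i • m i =
      (c • w i0) • m i0 + ∑ i ∈ Finset.univ.erase i0, (w i + s i * w i0) • m i := by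
    rw [← Finset.add_sum_erase _ _ (Finset.mem_univ i0), x2_ps_self]
    congr 1
    refine Finset.sum_congr rfl fun i hi => ?_
    rw [x2_ps_ne (Finset.ne_of_mem_erase hi)]
  have h3 : ∑ i, s i • m i = ∑ i ∈ Finset.univ.erase i0, s i • m i := by
    rw [← Finset.add_sum_erase _ _ (Finset.mem_univ i0), hs0, zero_smul, zero_add]
  rw [h1, h2, h3, smul_add, Finset.smul_sum, add_assoc, ← Finset.sum_add_distrib, smul_assoc,
    smul_comm (w i0) c]
  congr 1
  refine Finset.sum_congr rfl fun i _ => ?_
  rw [add_smul, smul_smul, mul_comm (w i0), add_comm]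

theorem Prs.exchange_gen (cE : IsConn E ε) (P : Prs E ε m r a b) (i0 : Fin p) {c : K} (hc : c ≠ 0)
    (s : Fin p → S) (hs0 : s i0 = 0) (hs : ∀ i, E (s i) = ((a i0 - a i : ℤ) : K) • s i) :
    ∃ r' : Fin q → Fin p → S,
      Prs E ε (Function.update m i0 (c • m i0 + ∑ i, s i • m i)) r' a b := by
  refine ⟨fun j => x2_th i0 c⁻¹ s (r j), ?_, ?_, ?_, ?_⟩
  · intro i
    by_cases h : i = i0
    · rw [h, Function.update_self, map_add, map_sum, map_smul, P.hm, smul_add, smul_comm c,
        Finset.smul_sum]
      congr 1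
      refine Finset.sum_congr rfl fun i _ => ?_
      rw [cE, hs, P.hm, smul_comm (s i), smul_assoc, ← add_smul]
      congr 1
      push_cast
      ring
    · rw [Function.update_of_ne h]
      exact P.hm i
  · rw [x2_span m i0 hc s hs0]
    exact P.span
  · intro j i
    by_cases h : i = i0
    · rw [h, x2_th_self, E.map_smul, P.hr, smul_comm]
    · rw [x2_th_ne h, map_sub, Derivation.leibniz, E.map_smul, P.hr, P.hr, hs]
      simp only [smul_eq_mul, Algebra.smul_def, Int.cast_sub, map_sub]
      ring
  · intro w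
    have h1 : Submodule.span S (Set.range fun j => x2_th i0 c⁻¹ s (r j)) =
        (Submodule.span S (Set.range r)).map (x2_th i0 c⁻¹ s) := by
      rw [Submodule.map_span, ← Set.range_comp]
      rfl
    rw [x2_sum m i0 s hs0, P.ker, h1, Submodule.mem_map]
    constructor
    · intro h
      exact ⟨_, h, x2_th_ps i0 hc s w⟩
    · rintro ⟨u, hu, rfl⟩
      rw [x2_ps_th i0 hc s u]
      exact hu

theorem Prs.exchange_rel (P : Prs E ε m r a b) (j0 : Fin q) {c : K} (hc : c ≠ 0)
    (s : Fin q → S) (hs0 : s j0 = 0) (hs : ∀ j, E (s j) = ((b j0 - b j : ℤ) : K) • s j) :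
    Prs E ε m (Function.update r j0 (c • r j0 + ∑ j, s j • r j)) a b := by
  refine ⟨P.hm, P.span, ?_, ?_⟩
  · intro j i
    by_cases h : j = j0
    · rw [h, Function.update_self]
      simp only [Pi.add_apply, Finset.sum_apply, Pi.smul_apply]
      rw [map_add, map_sum, E.map_smul, P.hr, smul_add, smul_comm c, Finset.smul_sum]
      congr 1
      refine Finset.sum_congr rfl fun j _ => ?_
      rw [smul_eq_mul, Derivation.leibniz, hs, P.hr]
      simp only [smul_eq_mul, Algebra.smul_def, Int.cast_sub, map_sub]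
      ring
    · rw [Function.update_of_ne h]
      exact P.hr j i
  · intro w
    rw [P.ker, x2_span r j0 hc s hs0]

end

end Pool.Agent.Lib.MP_745d3a_ag.PF.SB
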