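import Pool.Agent.Lib.MP_745d3a_ag.SB.X1
import Pool.Agent.Lib.MP_745d3a_ag.SB.X2

/-!
Generators which are eigenvectors.

By induction on `k ≤ p`: there is a presentation with the same degrees such that `m' i` is an
eigenvector of `Φ` (eigenvalue not zero) for all `i < k`. Step: `exchange` with `y = m'`, `b = a`,
`j0 = k` (the submodule spanned by the generators is `⊤`), then `Prs.exchange_gen`; the other
generators do not change (`Function.update_of_ne`).
-/

set_option autoImplicit false
set_option linter.unusedSectionVars false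
set_option linter.unusedSimpArgs false
set_option linter.unusedVariables false

open MvPolynomial

namespace Pool.Agent.Lib.MP_745d3a_ag.PF.SB

section

variable {K S ι M : Type*} [Field K] [CharZero K] [CommRing S] [Algebra K S] {x : ι → S}
  {E : Derivation K S S} [AddCommGroup M] [Module K M] [Module S M] [IsScalarTower K S M]
  {ε Φ : M →ₗ[K] M} {p q : ℕ} {m : Fin p → M} {r : Fin q → Fin p → S} {a : Fin p → ℤ}
  {b : Fin q → ℤ}

theorem exists_fine_gen (hx : Coord K x) (hE : IsEuler x E) (cE : IsConn E ε) (dE : Diag ε)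
    (hd : DiagK Φ) (hinj : Function.Injective Φ) (hc : ∀ v, ε (Φ v) = Φ (ε v))
    (P : Prs E ε m r a b) :
    ∃ (m' : Fin p → M) (r' : Fin q → Fin p → S), Prs E ε m' r' a b ∧
      ∀ i, ∃ α : K, α ≠ 0 ∧ Φ (m' i) = α • m' i := by
  have key : ∀ k : ℕ, k ≤ p → ∃ (m' : Fin p → M) (r' : Fin q → Fin p → S),
      Prs E ε m' r' a b ∧ ∀ i : Fin p, (i : ℕ) < k → ∃ α : K, α ≠ 0 ∧ Φ (m' i) = α • m' i := by
    intro k
    induction k with
    | zero => intro _; exact ⟨m, r, P, fun i hi => absurd hi (Nat.not_lt_zero _)⟩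
    | succ k ih =>
      intro hk
      obtain ⟨m', r', P', h'⟩ := ih (Nat.le_of_succ_le hk)
      obtain ⟨i0, hi0⟩ : ∃ i0 : Fin p, (i0 : ℕ) = k := ⟨⟨k, hk⟩, rfl⟩
      obtain ⟨c, s, β, hc0, hs0, hs, hβ, hΦ⟩ := exchange hx hE cE dE hd hinj hc m' a P'.hm
        (fun v _ => by rw [P'.span]; trivial) i0
      obtain ⟨r'', P''⟩ := P'.exchange_gen cE i0 hc0 s hs0 hs
      refine ⟨_, r'', P'', ?_⟩
      intro i hi
      by_cases hii : i = i0
      · rw [hii, Function.update_self]
        exact ⟨β, hβ, hΦ⟩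
      · rw [Function.update_of_ne hii]
        refine h' i ?_
        have h1 : (i : ℕ) ≠ k := fun h => hii (Fin.ext (h.trans hi0.symm))
        omega
  obtain ⟨m', r', P', h'⟩ := key p le_rfl
  exact ⟨m', r', P', fun i => h' i i.2⟩

end

end Pool.Agent.Lib.MP_745d3a_ag.PF.SB
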