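import Pool.Agent.Lib.MP_745d3a_ag.SB.X1
import Pool.Agent.Lib.MP_745d3a_ag.SB.X2
import Pool.Agent.Lib.MP_745d3a_ag.SB.V1b

/-!
Relations which are eigenvectors.

`V = Fin p → S`, `ε' c i = E (c i) + (a i : K) • c i` (`IsConn E ε'`, `Diag ε'`: every `c` is
the sum of the `Pi.single i (c i)`, `S` is `Diag` for `E` by `euler_diag`; sums as in `D1P_add`,
`D1P_sum` in PFBun.lean), `Φ' c i = α i • G (c i)` (`DiagK Φ'`: the sum of `Pi.single i s`,
`s` an eigenvector of `G`, `diag_S`; injective: `G` is injective because it is diagonal with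
eigenvalues `∏ l i ^ e i ≠ 0`, or because it is the algebra automorphism with inverse given by
`(l i)⁻¹`). `ε' (Φ' c) = Φ' (ε' c)`: `E (G a) = G (E a)` by `hGE`. `ε' (r j) = (b j : K) • r j` by
`P.hr`. `∑ i, Φ' c i • m i = Φ (∑ i, c i • m i)`, so `Φ'` maps the kernel
`span (range r)` (`P.ker`) to itself. By induction on `k ≤ q`: there is `r'` with
`Prs E ε m r' a b` and `Φ' (r' j) = β j • r' j`, `β j ≠ 0`, for `j < k`; step: `exchange` for `y = r'`
and `Prs.exchange_rel`.
-/

set_option autoImplicit false
set_option linter.unusedSectionVars false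
set_option linter.unusedSimpArgs false
set_option linter.unusedVariables false

open MvPolynomial

namespace Pool.Agent.Lib.MP_745d3a_ag.PF.SB

section

variable {K S ι M : Type*} [Field K] [CharZero K] [CommRing S] [Algebra K S] {x : ι → S}
  {E : Derivation K S S} [AddCommGroup M] [Module K M] [Module S M] [IsScalarTower K S M]
  {ε Φ : M →ₗ[K] M} {p q : ℕ} {m : Fin p → M} {r : Fin q → Fin p → S} {a : Fin p → ℤ}
  {b : Fin q → ℤ}

/-- The connection on the free module. -/
private noncomputable def X4_eps (E : Derivation K S S) (a : Fin p → ℤ) :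
    (Fin p → S) →ₗ[K] (Fin p → S) where
  toFun c := fun i => E (c i) + (a i : K) • c i
  map_add' c d := by
    funext i
    simp only [Pi.add_apply, map_add, smul_add]
    abel
  map_smul' t c := by
    funext i
    simp only [Pi.smul_apply, Derivation.map_smul, RingHom.id_apply, smul_add]
    rw [smul_comm t (a i : K)]

/-- The semilinear map on the free module. -/
private noncomputable def X4_phi (G : S →ₗ[K] S) (α : Fin p → Kˣ) :
    (Fin p → S) →ₗ[K] (Fin p → S) where
  toFun c := fun i => (α i : K) • G (c i)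
  map_add' c d := by
    funext i
    simp only [Pi.add_apply, map_add, smul_add]
  map_smul' t c := by
    funext i
    simp only [Pi.smul_apply, map_smul, RingHom.id_apply]
    rw [smul_comm t (α i : K)]

private lemma X4_eps_apply (E : Derivation K S S) (a : Fin p → ℤ) (c : Fin p → S) (i : Fin p) :
    X4_eps E a c i = E (c i) + (a i : K) • c i := rfl

private lemma X4_phi_apply (G : S →ₗ[K] S) (α : Fin p → Kˣ) (c : Fin p → S) (i : Fin p) :
    X4_phi G α c i = (α i : K) • G (c i) := rfl

private lemma X4_inj (hx : Coord K x) {G : S →ₗ[K] S} (h1 : G 1 = 1)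
    (hG : ∀ a b, G (a * b) = G a * G b) (l : ι → Kˣ)
    (hl : ∀ i, G (x i) = (l i : K) • x i) : Function.Injective G := by
  let G' : S →ₐ[K] S :=
    (aeval (fun i => ((l i)⁻¹ : K) • x i) : MvPolynomial ι K →ₐ[K] S).comp
      hx.equiv.symm.toAlgHom
  have hG' : ∀ i, G' (x i) = ((l i)⁻¹ : K) • x i := by
    intro i
    show (aeval (fun i => ((l i)⁻¹ : K) • x i) : MvPolynomial ι K →ₐ[K] S)
      (hx.equiv.symm (x i)) = _
    rw [hx.symm_x, aeval_X]
  have key : ∀ a, G' (G a) = a := by
    intro a
    refine hx.induction (P := fun a => G' (G a) = a) ?_ ?_ ?_ a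
    · intro c
      rw [Algebra.algebraMap_eq_smul_one, map_smul, h1, map_smul, map_one]
    · intro a b ha hb
      rw [map_add, map_add, ha, hb]
    · intro a i ha
      rw [hG, hl, map_mul, ha, map_smul, hG', smul_smul,
        mul_inv_cancel₀ (l i).ne_zero, one_smul]
  exact Function.LeftInverse.injective (g := G') key

private lemma X4_diag (hx : Coord K x) (hE : IsEuler x E) (a : Fin p → ℤ) :
    Diag (X4_eps E a) := by
  classical
  have hd := euler_diag hx hE
  intro c
  choose t ht ht' using fun i : Fin p => exists_comp hd (c i)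
  refine ⟨Finset.univ.biUnion fun i => (t i).map (addRightEmbedding (a i)),
    fun e i => comp (E : S →ₗ[K] S) (e - a i) (c i), ?_, ?_⟩
  · intro e
    funext i
    rw [X4_eps_apply, Pi.smul_apply]
    have h2 : E (comp (E : S →ₗ[K] S) (e - a i) (c i)) =
        ((e - a i : ℤ) : K) • comp (E : S →ₗ[K] S) (e - a i) (c i) := comp_eig hd _ _
    rw [h2, ← add_smul]
    congr 1
    push_cast
    ring
  · funext i
    rw [Finset.sum_apply]
    have h3 : ∑ e ∈ (t i).map (addRightEmbedding (a i)),
        comp (E : S →ₗ[K] S) (e - a i) (c i) = c i := by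
      rw [Finset.sum_map]
      conv_rhs => rw [ht i]
      refine Finset.sum_congr rfl fun d _ => ?_
      rw [addRightEmbedding_apply, add_sub_cancel_right]
    rw [← Finset.sum_subset (s₁ := (t i).map (addRightEmbedding (a i)))
      (Finset.subset_biUnion_of_mem (fun i => (t i).map (addRightEmbedding (a i)))
        (Finset.mem_univ i)), h3]
    intro e _ he
    refine ht' i _ fun h => he ?_
    rw [Finset.mem_map]
    exact ⟨e - a i, h, by rw [addRightEmbedding_apply, sub_add_cancel]⟩

private lemma X4_diagK {G : S →ₗ[K] S} (hd : DiagK G) (α : Fin p → Kˣ) :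
    DiagK (X4_phi G α) := by
  classical
  unfold DiagK at hd ⊢
  rw [eq_top_iff]
  intro c _
  have hsingle : ∀ i : Fin p, ∀ s : S, (Pi.single i s : Fin p → S) ∈
      ⨆ μ : K, Module.End.eigenspace (X4_phi G α : Module.End K (Fin p → S)) μ := by
    intro i s
    have h1 : (⨆ μ : K, Module.End.eigenspace (G : Module.End K S) μ) ≤
        (⨆ μ : K, Module.End.eigenspace (X4_phi G α : Module.End K (Fin p → S)) μ).comap
          (LinearMap.single K (fun _ : Fin p => S) i) := by
      refine iSup_le fun μ => ?_
      intro w hw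
      rw [Submodule.mem_comap]
      have h2 : (LinearMap.single K (fun _ : Fin p => S) i) w ∈
          Module.End.eigenspace (X4_phi G α : Module.End K (Fin p → S)) ((α i : K) * μ) := by
        rw [Module.End.mem_eigenspace_iff] at hw ⊢
        funext k
        rw [X4_phi_apply, Pi.smul_apply, LinearMap.coe_single]
        by_cases hk : k = i
        · subst hk
          rw [Pi.single_eq_same, hw, smul_smul]
        · rw [Pi.single_eq_of_ne hk, map_zero, smul_zero, smul_zero]
      exact Submodule.mem_iSup_of_mem _ h2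
    rw [hd] at h1
    exact h1 (Submodule.mem_top (x := s))
  have h4 : c = ∑ i, (Pi.single i (c i) : Fin p → S) := by
    rw [Finset.univ_sum_single]
  rw [h4]
  exact Submodule.sum_mem _ fun i _ => hsingle i (c i)

theorem exists_fine_rel (hx : Coord K x) (hE : IsEuler x E)
    {G : S →ₗ[K] S} (h1 : G 1 = 1) (hG : ∀ a b, G (a * b) = G a * G b) (l : ι → Kˣ)
    (hl : ∀ i, G (x i) = (l i : K) • x i) (hGE : ∀ a, E (G a) = G (E a)) (hΦ : SL G Φ)
    (P : Prs E ε m r a b) (α : Fin p → Kˣ) (hα : ∀ i, Φ (m i) = (α i : K) • m i) :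
    ∃ (r' : Fin q → Fin p → S) (β : Fin q → Kˣ), Prs E ε m r' a b ∧
      ∀ j i, (α i : K) • G (r' j i) = (β j : K) • r' j i := by
  have cE : IsConn E (X4_eps E a) := by
    intro s v
    funext i
    rw [X4_eps_apply]
    simp only [Pi.smul_apply, Pi.add_apply, smul_eq_mul, X4_eps_apply, Derivation.leibniz,
      mul_add, mul_smul_comm]
    ring
  have dE : Diag (X4_eps E a) := X4_diag hx hE a
  have hd : DiagK (X4_phi G α) := X4_diagK (diag_S hx h1 hG l hl) α
  have hinj : Function.Injective (X4_phi G α) := by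
    intro c d h
    funext i
    have h2 := congrFun h i
    rw [X4_phi_apply, X4_phi_apply] at h2
    have h3 := smul_right_injective S (α i).ne_zero h2
    exact X4_inj hx h1 hG l hl h3
  have hc : ∀ v, X4_eps E a (X4_phi G α v) = X4_phi G α (X4_eps E a v) := by
    intro v
    funext i
    rw [X4_eps_apply, X4_phi_apply, X4_phi_apply, X4_eps_apply, Derivation.map_smul, hGE,
      map_add, map_smul, smul_add, smul_comm (a i : K)]
  have key : ∀ k : ℕ, k ≤ q → ∃ r' : Fin q → Fin p → S, Prs E ε m r' a b ∧
      ∀ j : Fin q, (j : ℕ) < k → ∃ β : K, β ≠ 0 ∧ X4_phi G α (r' j) = β • r' j := by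
    intro k
    induction k with
    | zero => intro _; exact ⟨r, P, fun i hi => absurd hi (Nat.not_lt_zero _)⟩
    | succ k ih =>
      intro hk
      obtain ⟨r', P', h'⟩ := ih (Nat.le_of_succ_le hk)
      obtain ⟨j0, hj0⟩ : ∃ j0 : Fin q, (j0 : ℕ) = k := ⟨⟨k, hk⟩, rfl⟩
      have hy : ∀ j, X4_eps E a (r' j) = (b j : K) • r' j := by
        intro j
        funext i
        rw [X4_eps_apply, P'.hr, ← add_smul, Pi.smul_apply]
        congr 1
        push_cast
        ring
      have hN : ∀ v ∈ Submodule.span S (Set.range r'),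
          X4_phi G α v ∈ Submodule.span S (Set.range r') := by
        intro v hv
        rw [← P'.ker] at hv ⊢
        have h5 : ∑ i, X4_phi G α v i • m i = Φ (∑ i, v i • m i) := by
          rw [map_sum]
          refine Finset.sum_congr rfl fun i _ => ?_
          rw [hΦ, hα, X4_phi_apply, smul_assoc, smul_comm]
        rw [h5, hv, map_zero]
      obtain ⟨c, s, β, hc0, hs0, hs, hβ, hΦ'⟩ := exchange hx hE cE dE hd hinj hc r' b hy hN j0
      refine ⟨_, P'.exchange_rel j0 hc0 s hs0 hs, ?_⟩
      intro j hj
      by_cases hjj : j = j0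
      · rw [hjj, Function.update_self]
        exact ⟨β, hβ, hΦ'⟩
      · rw [Function.update_of_ne hjj]
        refine h' j ?_
        have h1 : (j : ℕ) ≠ k := fun h => hjj (Fin.ext (h.trans hj0.symm))
        omega
  obtain ⟨r', P', h'⟩ := key q le_rfl
  choose β hβ hβ' using fun j : Fin q => h' j j.2
  refine ⟨r', fun j => Units.mk0 (β j) (hβ j), P', ?_⟩
  intro j i
  have h6 := congrFun (hβ' j) i
  rw [X4_phi_apply, Pi.smul_apply] at h6
  rw [Units.val_mk0]
  exact h6

end

end Pool.Agent.Lib.MP_745d3a_ag.PF.SB
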