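import Pool.Agent.Lib.MP_745d3a_ag.SB.J2
import Pool.Agent.Lib.MP_745d3a_ag.SB.M1
import Pool.Agent.Lib.MP_745d3a_ag.SB.X3
import Pool.Agent.Lib.MP_745d3a_ag.SB.X4

/-!
Every symmetry has finite order modulo scalars, with a bound.

`semisimple` gives `b`, `l`, `Φ`. Coordinates `x k := linForm K (b k)` (`coord_basis`), `E :=
mkDerivation K X`, `IsEuler x E` (linear forms: `linForm_apply`). The presentation `P` of the
hypothesis is `Prs E ε m r a b'`. Refine it: `exists_fine_gen` (with `G := (lin A).toLinearMap`; it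
needs only `Φ`), `exists_fine_rel` (`G (x k) = l k • x k` by `lin_linForm`; `α i` as units). From
`α i • G (r' j i) = β j • r' j i`: `G (r' j i) = (β j / α i) • r' j i`, so `monW_of_eig` gives the
hypothesis of `order_bound`. The alternative `Gen2` gives a homogeneous basis, contradiction to
`hno`: see `hfin` in the proof of `GA.main` (`exists_hom_basis`; `Bun.gen2_indep`). Otherwise
`(l k / l k') ^ N = 1`: `vecMul (b k) (A ^ N) = (l k) ^ N • b k = (l 0) ^ N • b k` for all `k`, so
`A ^ N = (l 0) ^ N • 1` (both have the same `vecMul` on a basis: `Module.Basis.ext`,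
`Matrix.ext_iff_vecMul`-like; `bun_of_reflexive` for `Bun`).
-/

set_option autoImplicit false
set_option linter.unusedSectionVars false
set_option linter.unusedSimpArgs false
set_option linter.unusedVariables false

open MvPolynomial

namespace Pool.Agent.Lib.MP_745d3a_ag.PF.SB

section

universe uK uM

variable {K : Type uK} [Field K] [CharZero K] [IsAlgClosed K]
  {M : Type uM} [AddCommGroup M] [Module (MvPolynomial (Fin 5) K) M] [Module K M]
  [IsScalarTower K (MvPolynomial (Fin 5) K) M]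
  [Module.Finite (MvPolynomial (Fin 5) K) M] [Module.IsReflexive (MvPolynomial (Fin 5) K) M]
  (𝓜 : ℤ → AddSubgroup M) [DirectSum.Decomposition 𝓜]
  [SetLike.GradedSMul (weightedHomogeneousSubmodule K (fun _ : Fin 5 => (1 : ℤ))) 𝓜]

theorem sym_order (hGT : GA.GmThm.{uK} K) (hGT2 : GA.GmThm.{uM} K)
    (hrank : Module.finrank (MvPolynomial (Fin 5) K) M = 2)
    (hfree : ∀ (p : Ideal (MvPolynomial (Fin 5) K)) [p.IsPrime],
      (∃ i, (X i : MvPolynomial (Fin 5) K) ∉ p) →
        Module.Free (Localization.AtPrime p) (LocalizedModule p.primeCompl M))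
    (hno : ¬ ∃ (b : Module.Basis (Fin 2) (MvPolynomial (Fin 5) K) M) (d : Fin 2 → ℤ),
      ∀ k, b k ∈ 𝓜 (d k))
    {ε : M →ₗ[K] M} (hε : ∀ d, ∀ m ∈ 𝓜 d, ε m = (d : K) • m)
    {E : Derivation K (MvPolynomial (Fin 5) K) (MvPolynomial (Fin 5) K)}
    (hE : ∀ i, E (X i) = X i)
    {A : Matrix (Fin 5) (Fin 5) K} (hA : IsUnit A.det)
    {φ : M →ₗ[K] M} (hφ : SL (lin A).toLinearMap φ) (hinj : Function.Injective φ)
    (hc : ∀ m, ε (φ m) = φ (ε m)) {p q : ℕ} {m : Fin p → M}
    {r : Fin q → Fin p → MvPolynomial (Fin 5) K} {a : Fin p → ℤ} {b : Fin q → ℤ}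
    (P : Prs E ε m r a b) {D : ℕ} (hD : ∀ i j, b j - a i ≤ (D : ℤ)) :
    ∃ N : ℕ, 1 ≤ N ∧ N ≤ (D + 2) ^ (5 + p + q) ∧ ∃ c : K, A ^ N = c • (1 : Matrix _ _ K) := by
  classical
  obtain ⟨bb, l, Φ, hb, hΦ, dΦ, hΦinj, hΦc⟩ := semisimple 𝓜 hGT hGT2 hrank hfree hno hε hA hφ hinj hc
  have hx : Coord K (fun i => linForm K (bb i)) := coord_basis bb
  have hEl : ∀ v, E (linForm K v) = linForm K v := by
    intro v
    rw [linForm_apply, map_sum]
    simp only [Derivation.map_smul, hE]
  have hEu : IsEuler (fun i => linForm K (bb i)) E := fun i => hEl _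
  have cE : IsConn E ε := gradOp_conn hε hE
  have dE : Diag ε := gradOp_diag hε
  have hM : Bun (fun i => linForm K (bb i)) M := bun_of_reflexive hrank hfree (fun i => bb i)
  obtain ⟨m', r', P', hα'⟩ := exists_fine_gen hx hEu cE dE dΦ hΦinj hΦc P
  choose α hα0 hα using hα'
  have hG1 : (lin A).toLinearMap (1 : MvPolynomial (Fin 5) K) = 1 := map_one (lin A)
  have hGm : ∀ a b, (lin A).toLinearMap (a * b) =
      (lin A).toLinearMap a * (lin A).toLinearMap b := fun a b => map_mul (lin A) a b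
  have hGl : ∀ i, (lin A).toLinearMap (linForm K (bb i)) = (l i : K) • linForm K (bb i) := by
    intro i
    show lin A (linForm K (bb i)) = _
    rw [lin_linForm, hb, map_smul]
  have hGE : ∀ a, E ((lin A).toLinearMap a) = (lin A).toLinearMap (E a) :=
    fun a => lin_euler hE A a
  obtain ⟨r'', β, P'', hβ⟩ := exists_fine_rel hx hEu hG1 hGm l hGl hGE hΦ P'
    (fun i => Units.mk0 (α i) (hα0 i)) (fun i => by simpa using hα i)
  have hw : ∀ j i, MonW hx (fun k => Additive.ofMul (l k))
      (Additive.ofMul (β j / Units.mk0 (α i) (hα0 i))) (r'' j i) := by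
    intro j i
    refine monW_of_eig hx hG1 hGm l hGl ?_
    have h1 := hβ j i
    have h2 : (lin A).toLinearMap (r'' j i) =
        (α i)⁻¹ • (α i • (lin A).toLinearMap (r'' j i)) := by
      rw [smul_smul, inv_mul_cancel₀ (hα0 i), one_smul]
    rw [h2]
    have h3 : α i • (lin A).toLinearMap (r'' j i) = (β j : K) • r'' j i := h1
    rw [h3, smul_smul]
    congr 1
    rw [Units.val_div_eq_div_val, Units.val_mk0, div_eq_inv_mul]
  rcases order_bound hGT2 hx hEu cE dE hM P'' hD l (fun i => Units.mk0 (α i) (hα0 i)) β hw with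
    hgen | ⟨N, hN1, hN2, hN⟩
  · exfalso
    apply hno
    refine exists_hom_basis (ω := fun _ => (1 : ℤ)) (δ := AddMonoidHom.id ℤ) (fun _ => rfl) ?_
      hrank
    obtain ⟨m₁, m₂, hm⟩ := hgen
    have hind := hM.gen2_indep hx m₁ m₂ hm
    have hli : LinearIndependent (MvPolynomial (Fin 5) K) ![m₁, m₂] := by
      rw [LinearIndependent.pair_iff]
      exact hind
    have hsp : ⊤ ≤ Submodule.span (MvPolynomial (Fin 5) K) (Set.range ![m₁, m₂]) := by
      intro m _
      rw [Matrix.range_cons, Matrix.range_cons, Matrix.range_empty, Set.union_empty,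
        ← Set.insert_eq]
      obtain ⟨a, e, he⟩ := hm m
      exact Submodule.mem_span_pair.mpr ⟨a, e, he.symm⟩
    exact Module.Free.of_basis (Module.Basis.mk hli hsp)
  · refine ⟨N, hN1, hN2, (l 0 : K) ^ N, ?_⟩
    have hpow : ∀ (n : ℕ) (k : Fin 5),
        Matrix.vecMul (bb k) (A ^ n) = (l k : K) ^ n • bb k := by
      intro n
      induction n with
      | zero => intro k; simp
      | succ n ih =>
        intro k
        rw [pow_succ, ← Matrix.vecMul_vecMul, ih, Matrix.smul_vecMul, hb, smul_smul, pow_succ]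
    have hl : ∀ k, (l k : K) ^ N = (l 0 : K) ^ N := by
      intro k
      have h1 := hN k 0
      rw [div_pow, div_eq_one] at h1
      exact_mod_cast congrArg (Units.val) h1
    have hlin : (Matrix.vecMulLinear (A ^ N) : (Fin 5 → K) →ₗ[K] _) =
        ((l 0 : K) ^ N) • LinearMap.id := by
      refine bb.ext fun k => ?_
      rw [Matrix.vecMulLinear_apply, hpow, hl, LinearMap.smul_apply, LinearMap.id_apply]
    ext i j
    have h1 := congrFun (LinearMap.congr_fun hlin (Pi.single i 1)) j
    rw [Matrix.vecMulLinear_apply, Matrix.single_one_vecMul] at h1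
    have h2 : (A ^ N) i j = ((l 0 : K) ^ N • (LinearMap.id : (Fin 5 → K) →ₗ[K] _))
        (Pi.single i 1) j := h1
    refine h2.trans ?_
    simp [Matrix.one_apply, Pi.single_apply, eq_comm]

end

end Pool.Agent.Lib.MP_745d3a_ag.PF.SB
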