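import Pool.Agent.Lib.MP_745d3a_ag.SB.K0

/-!
Scalars are symmetries: see the docstring of K0.lean (`sym_smul`).
-/

set_option autoImplicit false
set_option linter.unusedSectionVars false
set_option linter.unusedSimpArgs false
set_option linter.unusedVariables false

open MvPolynomial

namespace Pool.Agent.Lib.MP_745d3a_ag.PF.SB

section

variable {K : Type*} [Field K] [CharZero K]

variable {M : Type*} [AddCommGroup M] [Module (MvPolynomial (Fin 5) K) M]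
  (𝓜 : ℤ → AddSubgroup M)

/-- Multiplication by `c ^ d` on the piece of degree `d`. -/
noncomputable def K0b_scl [DirectSum.Decomposition 𝓜] (c : K) : M →+ M :=
  (DirectSum.toAddMonoid (fun d : ℤ =>
    (DistribSMul.toAddMonoidHom M (C (c ^ d) : MvPolynomial (Fin 5) K)).comp
      (𝓜 d).subtype)).comp (DirectSum.decomposeAddEquiv 𝓜).toAddMonoidHom

theorem K0b_scl_of_mem [DirectSum.Decomposition 𝓜] (c : K) {d : ℤ} {m : M} (hm : m ∈ 𝓜 d) :
    K0b_scl 𝓜 c m = (C (c ^ d) : MvPolynomial (Fin 5) K) • m := by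
  have h : DirectSum.decomposeAddEquiv 𝓜 m = DirectSum.of (fun i => 𝓜 i) d ⟨m, hm⟩ :=
    DirectSum.decompose_of_mem 𝓜 hm
  simp only [K0b_scl, AddMonoidHom.comp_apply, AddEquiv.coe_toAddMonoidHom,
    AddEquiv.toAddMonoidHom_eq_coe, AddMonoidHom.coe_coe, h, DirectSum.toAddMonoid_of]
  rfl

theorem K0b_C_mem [DirectSum.Decomposition 𝓜]
    [SetLike.GradedSMul (weightedHomogeneousSubmodule K (fun _ : Fin 5 => (1 : ℤ))) 𝓜]
    (c : K) {d : ℤ} {m : M} (hm : m ∈ 𝓜 d) :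
    (C c : MvPolynomial (Fin 5) K) • m ∈ 𝓜 d := by
  have h : (C c : MvPolynomial (Fin 5) K) ∈
      weightedHomogeneousSubmodule K (fun _ : Fin 5 => (1 : ℤ)) 0 :=
    isWeightedHomogeneous_C _ _
  have := SetLike.GradedSMul.smul_mem h hm
  simpa using this

theorem K0b_scl_scl [DirectSum.Decomposition 𝓜]
    [SetLike.GradedSMul (weightedHomogeneousSubmodule K (fun _ : Fin 5 => (1 : ℤ))) 𝓜]
    {c c' : K} (hc : c * c' = 1) (m : M) : K0b_scl 𝓜 c (K0b_scl 𝓜 c' m) = m := by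
  refine DirectSum.Decomposition.inductionOn 𝓜 (by simp) (fun {d} m => ?_)
    (fun a b ha hb => by simp [ha, hb]) m
  rw [K0b_scl_of_mem 𝓜 c' m.2, K0b_scl_of_mem 𝓜 c (K0b_C_mem 𝓜 _ m.2), smul_smul, ← C_mul,
    ← mul_zpow, hc, one_zpow, C_1, one_smul]

theorem K0b_lin_monomial (c : K) (e : Fin 5 →₀ ℕ) (a : K) :
    lin (c • (1 : Matrix (Fin 5) (Fin 5) K)) (monomial e a) =
      C (c ^ (∑ i, e i)) * monomial e a := by
  have hX : ∀ i : Fin 5, (∑ j, (c • (1 : Matrix (Fin 5) (Fin 5) K)) i j •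
      (X j : MvPolynomial (Fin 5) K)) = C c * X i := by
    intro i
    rw [Finset.sum_eq_single i]
    · simp [C_mul']
    · intro j _ hj
      simp [Matrix.one_apply_ne (Ne.symm hj)]
    · intro h; exact absurd (Finset.mem_univ i) h
  rw [lin, aeval_monomial]
  simp only [hX]
  rw [Finsupp.prod_fintype _ _ (by simp)]
  simp only [mul_pow, Finset.prod_mul_distrib, algebraMap_eq]
  rw [monomial_eq, Finsupp.prod_fintype _ _ (by simp), C_pow, Finset.prod_pow_eq_pow_sum]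
  ring

theorem K0b_scl_smul [DirectSum.Decomposition 𝓜]
    [SetLike.GradedSMul (weightedHomogeneousSubmodule K (fun _ : Fin 5 => (1 : ℤ))) 𝓜]
    {c : K} (hc : c ≠ 0) (f : MvPolynomial (Fin 5) K) (m : M) :
    K0b_scl 𝓜 c (f • m) = lin (c • (1 : Matrix (Fin 5) (Fin 5) K)) f • K0b_scl 𝓜 c m := by
  refine DirectSum.Decomposition.inductionOn 𝓜 (by simp) (fun {d} m => ?_)
    (fun a b ha hb => by simp [ha, hb]) m
  rw [f.as_sum, Finset.sum_smul, map_sum, map_sum, Finset.sum_smul]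
  refine Finset.sum_congr rfl (fun e _ => ?_)
  have hmon : (monomial e (coeff e f) : MvPolynomial (Fin 5) K) ∈
      weightedHomogeneousSubmodule K (fun _ : Fin 5 => (1 : ℤ)) ((∑ i, e i : ℕ) : ℤ) := by
    refine isWeightedHomogeneous_monomial _ _ _ ?_
    rw [Finsupp.weight_apply, Finsupp.sum_fintype _ _ (by simp)]
    simp
  have h1 : (monomial e (coeff e f) : MvPolynomial (Fin 5) K) • (m : M) ∈
      𝓜 (((∑ i, e i : ℕ) : ℤ) + d) := by
    have := SetLike.GradedSMul.smul_mem hmon m.2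
    simpa [vadd_eq_add] using this
  rw [K0b_scl_of_mem 𝓜 c h1, K0b_scl_of_mem 𝓜 c m.2, K0b_lin_monomial, smul_smul, smul_smul,
    zpow_add₀ hc, zpow_natCast, C_mul]
  congr 1
  ring

theorem K0b_sym_scalar [DirectSum.Decomposition 𝓜]
    [SetLike.GradedSMul (weightedHomogeneousSubmodule K (fun _ : Fin 5 => (1 : ℤ))) 𝓜]
    {c : K} (hc : c ≠ 0) : IsSym 𝓜 (c • (1 : Matrix (Fin 5) (Fin 5) K)) := by
  refine ⟨?_, AddMonoidHom.toAddEquiv (K0b_scl 𝓜 c) (K0b_scl 𝓜 c⁻¹) ?_ ?_, ?_, ?_⟩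
  · rw [Matrix.det_smul, Matrix.det_one, mul_one]
    exact (IsUnit.mk0 c hc).pow _
  · ext m
    exact K0b_scl_scl 𝓜 (inv_mul_cancel₀ hc) m
  · ext m
    exact K0b_scl_scl 𝓜 (mul_inv_cancel₀ hc) m
  · intro f m
    exact K0b_scl_smul 𝓜 hc f m
  · intro d m hm
    change K0b_scl 𝓜 c m ∈ 𝓜 d
    rw [K0b_scl_of_mem 𝓜 c hm]
    exact K0b_C_mem 𝓜 _ hm

theorem sym_smul [DirectSum.Decomposition 𝓜]
    [SetLike.GradedSMul (weightedHomogeneousSubmodule K (fun _ : Fin 5 => (1 : ℤ))) 𝓜]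
    {A : Matrix (Fin 5) (Fin 5) K} (h : IsSym 𝓜 A) {c : K} (hc : c ≠ 0) : IsSym 𝓜 (c • A) := by
  have := sym_mul 𝓜 (K0b_sym_scalar 𝓜 hc) h
  rwa [Matrix.smul_mul, one_mul] at this

end

end Pool.Agent.Lib.MP_745d3a_ag.PF.SB
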