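import Mathlib

/-!
The determinant is at most the product of the `l^1`-norms of the rows.

`Matrix.det_apply`: `|det B| ≤ ∑ σ, ∏ i, |B (σ i) i|` (`Finset.abs_sum_le_sum_abs`,
`Finset.abs_prod`); with `B.transpose` (`Matrix.det_transpose`) this is `∑ σ, ∏ i, |B i (σ i)|`.
`Finset.prod_univ_sum`: `∏ i, ∑ j, |B i j| = ∑ f ∈ Fintype.piFinset _, ∏ i, |B i (f i)|`; the
permutations inject into the functions, all terms are nonnegative
(`Finset.sum_le_sum_of_subset_of_nonneg` after `Finset.sum_map`/`sum_image`).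
-/

set_option autoImplicit false
set_option linter.unusedSectionVars false
set_option linter.unusedSimpArgs false
set_option linter.unusedVariables false

namespace Pool.Agent.Lib.MP_745d3a_ag.PF.SB

theorem abs_det_le {n : Type*} [Fintype n] [DecidableEq n] (B : Matrix n n ℤ) :
    |B.det| ≤ ∏ i, ∑ j, |B i j| := by
  classical
  rw [← Matrix.det_transpose, Matrix.det_apply]
  have h1 : |∑ σ : Equiv.Perm n, Equiv.Perm.sign σ • ∏ i, B.transpose (σ i) i|
      ≤ ∑ σ : Equiv.Perm n, ∏ i, |B i (σ i)| := by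
    refine (Finset.abs_sum_le_sum_abs _ _).trans (Finset.sum_le_sum ?_)
    intro σ _
    have h2 : |Equiv.Perm.sign σ • ∏ i, B.transpose (σ i) i| = ∏ i, |B i (σ i)| := by
      rw [← Finset.abs_prod]
      rcases Int.units_eq_one_or (Equiv.Perm.sign σ) with h | h
      · rw [h, one_smul]
        rfl
      · rw [h, Units.neg_smul, one_smul, abs_neg]
        rfl
    exact h2.le
  refine h1.trans ?_
  rw [Finset.prod_univ_sum]
  have h3 : ∑ σ : Equiv.Perm n, ∏ i, |B i (σ i)|
      = ∑ f ∈ Finset.univ.image (fun σ : Equiv.Perm n => (σ : n → n)), ∏ i, |B i (f i)| := by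
    rw [Finset.sum_image]
    intro σ _ τ _ h
    exact Equiv.coe_fn_injective h
  rw [h3]
  refine Finset.sum_le_sum_of_subset_of_nonneg ?_ ?_
  · intro f _
    rw [Fintype.mem_piFinset]
    intro i
    exact Finset.mem_univ _
  · intro f _ _
    exact Finset.prod_nonneg fun i _ => abs_nonneg _

end Pool.Agent.Lib.MP_745d3a_ag.PF.SB
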