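import Pool.Agent.Lib.MP_745d3a_ag.NV.Final
import Pool.Agent.Lib.MP_745d3a_ag.SB.K0b
import Pool.Agent.Lib.MP_745d3a_ag.SB.J3
import Pool.Agent.Lib.MP_745d3a_ag.SB.F1b
import Pool.Agent.Lib.MP_745d3a_ag.SB.P1

/-!
The symmetry group of an indecomposable rank two bundle on projective four-space is finite.
-/

set_option autoImplicit false
set_option linter.unusedSectionVars false
set_option linter.unusedSimpArgs false
set_option linter.unusedVariables false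

open MvPolynomial

namespace Pool.Agent.Lib.MP_745d3a_ag.PF.SB

section

variable (M : Type*) [AddCommGroup M] [Module (MvPolynomial (Fin 5) ℂ) M]
  [Module.Finite (MvPolynomial (Fin 5) ℂ) M] [Module.IsReflexive (MvPolynomial (Fin 5) ℂ) M]
  (hrank : Module.finrank (MvPolynomial (Fin 5) ℂ) M = 2)
  (hfree : ∀ (p : Ideal (MvPolynomial (Fin 5) ℂ)) [p.IsPrime],
    (∃ i, (X i : MvPolynomial (Fin 5) ℂ) ∉ p) →
      Module.Free (Localization.AtPrime p) (LocalizedModule p.primeCompl M))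
  (𝓜 : ℤ → AddSubgroup M) [DirectSum.Decomposition 𝓜]
  [SetLike.GradedSMul (weightedHomogeneousSubmodule ℂ (fun _ : Fin 5 => (1 : ℤ))) 𝓜]
  (hno : ¬ ∃ (b : Module.Basis (Fin 2) (MvPolynomial (Fin 5) ℂ) M) (d : Fin 2 → ℤ),
    ∀ k, b k ∈ 𝓜 (d k))

include hrank hfree hno

/-- The bound for a presentation given by the Euler operator. -/
theorem main_prs [Module ℂ M] [IsScalarTower ℂ (MvPolynomial (Fin 5) ℂ) M]
    {ε : M →ₗ[ℂ] M} (hε : ∀ d, ∀ m ∈ 𝓜 d, ε m = (d : ℂ) • m)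
    {E : Derivation ℂ (MvPolynomial (Fin 5) ℂ) (MvPolynomial (Fin 5) ℂ)}
    (hE : ∀ i, E (X i) = X i) {p q D : ℕ} {m : Fin p → M}
    {r : Fin q → Fin p → MvPolynomial (Fin 5) ℂ} {a : Fin p → ℤ} {b : Fin q → ℤ}
    (P : Prs E ε m r a b) (hD : ∀ i j, b j - a i ≤ (D : ℤ)) :
    (∀ A : Matrix (Fin 5) (Fin 5) ℂ, IsSym 𝓜 A → ∃ N : ℕ, 1 ≤ N ∧ N ≤ (D + 2) ^ (5 + p + q) ∧
      ∃ c : ℂ, A ^ N = c • (1 : Matrix _ _ ℂ)) ∧
    ∃ F : Finset (Matrix (Fin 5) (Fin 5) ℂ), (∀ A ∈ F, IsSym 𝓜 A) ∧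
      F.card ≤ (5 * (D + 2) ^ (5 + p + q)) ^ 250 ∧
      ∀ A, IsSym 𝓜 A → ∃ A' ∈ F, ∃ c : ℂ, A = c • A' := by
  have h1 : ∀ A : Matrix (Fin 5) (Fin 5) ℂ, IsSym 𝓜 A → ∃ N : ℕ, 1 ≤ N ∧
      N ≤ (D + 2) ^ (5 + p + q) ∧ ∃ c : ℂ, A ^ N = c • (1 : Matrix _ _ ℂ) := by
    rintro A ⟨hA, φ, hφ, hd⟩
    let φ₀ : M →ₗ[ℂ] M :=
      { toFun := φ
        map_add' := map_add φ
        map_smul' := fun c m => by
          rw [← algebraMap_smul (MvPolynomial (Fin 5) ℂ) c m, hφ, AlgHom.commutes,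
            algebraMap_smul]
          rfl }
    have hd₀ : ∀ d, ∀ m ∈ 𝓜 d, φ₀ m ∈ 𝓜 d := hd
    exact sym_order 𝓜 GA.gmThm GA.gmThm hrank hfree hno hε hE hA (φ := φ₀) (fun f m => hφ f m)
      (fun u v h => φ.injective h) (gradOp_comm hε φ₀ hd₀) P hD
  refine ⟨h1, ?_⟩
  obtain ⟨F, hF1, hF2, hF3⟩ := finite_mod_scalars (B := (D + 2) ^ (5 + p + q))
    {A : Matrix (Fin 5) (Fin 5) ℂ | IsSym 𝓜 A} (sym_one 𝓜) (fun A hA A' hA' => sym_mul 𝓜 hA hA')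
    (fun A hA c hc => sym_smul 𝓜 hA hc) (fun A hA => hA.1) h1
  exact ⟨F, fun A hA => (hF1 A hA).1, hF2, hF3⟩

/-- **Main theorem.** -/
theorem main :
    (∃ F : Finset (Matrix (Fin 5) (Fin 5) ℂ), (∀ A ∈ F, IsSym 𝓜 A) ∧
      ∀ A, IsSym 𝓜 A → ∃ A' ∈ F, ∃ c : ℂ, A = c • A') ∧
    ∀ (p q D : ℕ) (a : Fin p → ℤ) (b : Fin q → ℤ) (m : Fin p → M)
      (r : Fin q → Fin p → MvPolynomial (Fin 5) ℂ),
      (∀ i, m i ∈ 𝓜 (a i)) →
      Submodule.span (MvPolynomial (Fin 5) ℂ) (Set.range m) = ⊤ →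
      (∀ j i, IsWeightedHomogeneous (fun _ : Fin 5 => (1 : ℤ)) (r j i) (b j - a i)) →
      (∀ j i, b j - a i ≤ (D : ℤ)) →
      (∀ c : Fin p → MvPolynomial (Fin 5) ℂ, ∑ i, c i • m i = 0 ↔
        c ∈ Submodule.span (MvPolynomial (Fin 5) ℂ) (Set.range r)) →
      (∀ A : Matrix (Fin 5) (Fin 5) ℂ, IsSym 𝓜 A → ∃ N : ℕ, 1 ≤ N ∧
        N ≤ (D + 2) ^ (5 + p + q) ∧ ∃ c : ℂ, A ^ N = c • (1 : Matrix _ _ ℂ)) ∧
      ∃ F : Finset (Matrix (Fin 5) (Fin 5) ℂ), (∀ A ∈ F, IsSym 𝓜 A) ∧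
        F.card ≤ (5 * (D + 2) ^ (5 + p + q)) ^ 250 ∧
        ∀ A, IsSym 𝓜 A → ∃ A' ∈ F, ∃ c : ℂ, A = c • A' := by
  classical
  letI _j : Module ℂ M := Module.compHom M (algebraMap ℂ (MvPolynomial (Fin 5) ℂ))
  have _i : IsScalarTower ℂ (MvPolynomial (Fin 5) ℂ) M := ⟨fun a p m => by
    rw [Algebra.smul_def, mul_smul]; rfl⟩
  obtain ⟨ε, hε⟩ := exists_gradOp (K := ℂ) 𝓜
  let E : Derivation ℂ (MvPolynomial (Fin 5) ℂ) (MvPolynomial (Fin 5) ℂ) := mkDerivation ℂ X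
  have hE : ∀ i, E (X i) = X i := fun i => mkDerivation_X ℂ _ i
  have hx : Coord ℂ (X : Fin 5 → MvPolynomial (Fin 5) ℂ) := ⟨by
    rw [aeval_X_left]; exact Function.bijective_id⟩
  have cE : IsConn E ε := gradOp_conn hε hE
  have dE : Diag ε := gradOp_diag hε
  refine ⟨?_, ?_⟩
  · obtain ⟨p, q, m, r, a, b, P⟩ := exists_prs hx hE cE dE
    have hD : ∀ i j, b j - a i ≤ ((∑ i, ∑ j, (b j - a i).toNat : ℕ) : ℤ) := by
      intro i j
      have h1 : (b j - a i).toNat ≤ ∑ i, ∑ j, (b j - a i).toNat := by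
        refine le_trans ?_ (Finset.single_le_sum (f := fun i => ∑ j, (b j - a i).toNat)
          (fun _ _ => Nat.zero_le _) (Finset.mem_univ i))
        exact Finset.single_le_sum (f := fun j => (b j - a i).toNat)
          (fun _ _ => Nat.zero_le _) (Finset.mem_univ j)
      have h2 := Int.self_le_toNat (b j - a i)
      exact h2.trans (by exact_mod_cast h1)
    obtain ⟨-, F, hF1, -, hF3⟩ := main_prs M hrank hfree 𝓜 hno hε hE P hD
    exact ⟨F, hF1, hF3⟩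
  · intro p q D a b m r hm hspan hr hD hker
    have P : Prs E ε m r a b :=
      { hm := fun i => hε _ _ (hm i)
        span := hspan
        hr := fun j i => euler_hom hE (hr j i)
        ker := hker }
    exact main_prs M hrank hfree 𝓜 hno hε hE P (fun i j => hD j i)

end

end Pool.Agent.Lib.MP_745d3a_ag.PF.SB
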