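import Pool.Agent.Lib.MP_745d3a_ag.SB.Defs

/-!
Monomials and diagonal operators on `S`.

* `der_monW`: write `a = hx.equiv p`, `p = ∑ e ∈ supp, monomial e c`; for a monomial
  `H (hx.equiv (monomial e c)) = (∑ e i * z i) • hx.equiv (monomial e c)`: by induction on `e`
  (`Finsupp.induction_linear`, or `MvPolynomial.monomial_eq`/`Derivation.leibniz_pow`,
  `Finsupp.weight_apply`), e.g. prove that the set of pairs (polynomial, weight) is closed under
  products: `H a = k • a`, `H b = l • b` give `H (a * b) = (k + l) • (a * b)`.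
* `monW_of_eig`: the converse for a diagonal algebra map; let `G` be `K`-linear and multiplicative,
  `G (x i) = l i • x i`. Then `G (hx.equiv (monomial e c)) = (∏ l i ^ e i) • ..`; compare coefficients
  of `hx.equiv.symm (G a) = μ • hx.equiv.symm a`.
* `monW_euler`: the same for the Euler derivation: `E a = (k : K) • a` implies that all monomials have
  degree `k` (`Int.cast_injective`, characteristic zero).
* `eig_zero`: `E a = 0` implies that `a` is a constant (all monomials have degree zero, so
  `e = 0`).
* `diag_S`: `G` as above is diagonalisable: every `a` is a sum of monomials.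
-/

set_option autoImplicit false
set_option linter.unusedSectionVars false
set_option linter.unusedSimpArgs false
set_option linter.unusedVariables false

open MvPolynomial

namespace Pool.Agent.Lib.MP_745d3a_ag.PF.SB

section

variable {K S ι : Type*} [Field K] [CharZero K] [CommRing S] [Algebra K S] {x : ι → S}
  {E H : Derivation K S S}

private lemma V1_mul {k l : ℤ} {a b : S} (ha : H a = (k : K) • a) (hb : H b = (l : K) • b) :
    H (a * b) = ((k + l : ℤ) : K) • (a * b) := by
  rw [Derivation.leibniz, ha, hb, smul_eq_mul, smul_eq_mul, mul_smul_comm, mul_smul_comm,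
    mul_comm b a, ← add_smul]
  push_cast
  rw [add_comm (l : K)]

private lemma V1_pow {k : ℤ} {a : S} (ha : H a = (k : K) • a) (n : ℕ) :
    H (a ^ n) = ((n • k : ℤ) : K) • a ^ n := by
  induction n with
  | zero => simp
  | succ n ih =>
    rw [pow_succ, V1_mul ih ha, succ_nsmul]

private lemma V1_mon (hx : Coord K x) (z : ι → ℤ) (hH : ∀ i, H (x i) = (z i : K) • x i)
    (e : ι →₀ ℕ) : ∀ c : K, H (hx.equiv (monomial e c)) =
      ((Finsupp.weight z e : ℤ) : K) • hx.equiv (monomial e c) := by
  have hC : ∀ c : K, hx.equiv (monomial 0 c) = algebraMap K S c := by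
    intro c
    rw [← MvPolynomial.C_apply, ← MvPolynomial.algebraMap_eq, AlgEquiv.commutes]
  induction e using Finsupp.induction_linear with
  | zero =>
    intro c
    rw [hC, Derivation.map_algebraMap, map_zero, Int.cast_zero, zero_smul]
  | add f g hf hg =>
    intro c
    have h1 : (monomial (f + g) c : MvPolynomial ι K) = monomial f c * monomial g 1 := by
      rw [monomial_mul, mul_one]
    rw [h1, map_mul, V1_mul (hf c) (hg 1), map_add]
  | single i n =>
    intro c
    have h1 : (monomial (Finsupp.single i n) c : MvPolynomial ι K) = monomial 0 c * X i ^ n := by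
      rw [X_pow_eq_monomial, monomial_mul, zero_add, mul_one]
    have h2 : H (algebraMap K S c) = ((0 : ℤ) : K) • algebraMap K S c := by
      rw [Derivation.map_algebraMap, Int.cast_zero, zero_smul]
    rw [h1, map_mul, map_pow, hx.equiv_X, hC, V1_mul h2 (V1_pow (hH i) n), zero_add,
      Finsupp.weight_single]

private lemma V1_coeff (hx : Coord K x) (z : ι → ℤ) (hH : ∀ i, H (x i) = (z i : K) • x i)
    (e : ι →₀ ℕ) (a : S) : coeff e (hx.equiv.symm (H a)) =
      ((Finsupp.weight z e : ℤ) : K) * coeff e (hx.equiv.symm a) := by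
  classical
  obtain ⟨p, rfl⟩ := hx.equiv.surjective a
  induction p using MvPolynomial.induction_on' with
  | monomial f c =>
    rw [V1_mon hx z hH f c, map_smul, AlgEquiv.symm_apply_apply, coeff_smul, coeff_monomial,
      smul_eq_mul]
    split_ifs with h
    · rw [h]
    · rw [mul_zero, mul_zero]
  | add p q hp hq =>
    rw [map_add, map_add, map_add, map_add, coeff_add, coeff_add, hp, hq, mul_add]

theorem der_monW (hx : Coord K x) (z : ι → ℤ) (hH : ∀ i, H (x i) = (z i : K) • x i) {k : ℤ}
    {a : S} (ha : MonW hx z k a) : H a = (k : K) • a := by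
  apply hx.equiv.symm.injective
  ext e
  rw [V1_coeff hx z hH e a, map_smul, coeff_smul, smul_eq_mul]
  by_cases he : e ∈ (hx.equiv.symm a).support
  · rw [ha e he]
  · rw [notMem_support_iff.mp he, mul_zero, mul_zero]

theorem monW_euler (hx : Coord K x) (hE : IsEuler x E) {k : ℤ} {a : S}
    (ha : E a = (k : K) • a) : MonW hx (fun _ => (1 : ℤ)) k a := by
  intro e he
  have h1 := V1_coeff hx (fun _ => (1 : ℤ)) (H := E)
    (fun i => by rw [hE i, Int.cast_one, one_smul]) e a
  rw [ha, map_smul, coeff_smul, smul_eq_mul] at h1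
  have h2 := mul_right_cancel₀ (mem_support_iff.mp he) h1
  exact (Int.cast_injective h2).symm

theorem eig_zero (hx : Coord K x) (hE : IsEuler x E) {a : S} (ha : E a = 0) :
    ∃ c : K, a = algebraMap K S c := by
  classical
  have h1 : MonW hx (fun _ => (1 : ℤ)) 0 a :=
    monW_euler hx hE (by rw [ha, Int.cast_zero, zero_smul])
  refine ⟨coeff 0 (hx.equiv.symm a), ?_⟩
  apply hx.equiv.symm.injective
  rw [AlgEquiv.commutes, MvPolynomial.algebraMap_eq]
  ext e
  rw [coeff_C]
  split_ifs with h
  · rw [h]
  · by_contra h2
    have h3 := h1 e (mem_support_iff.mpr h2)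
    apply h
    rw [Finsupp.weight_apply, Finsupp.sum] at h3
    have h4 : ∑ i ∈ e.support, e i = 0 := by
      have h5 : ((∑ i ∈ e.support, e i : ℕ) : ℤ) = 0 := by
        rw [← h3, Nat.cast_sum]
        refine Finset.sum_congr rfl fun i _ => ?_
        rw [nsmul_eq_mul, mul_one]
      exact_mod_cast h5
    symm
    ext i
    by_contra h6
    have h7 : i ∈ e.support := Finsupp.mem_support_iff.mpr h6
    exact h6 (Finset.sum_eq_zero_iff.mp h4 i h7)

end

end Pool.Agent.Lib.MP_745d3a_ag.PF.SB
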