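import Pool.Agent.Lib.MP_745d3a_ag.SB.Defs

/-!
The exchange lemma.

* `eig_mem`: by `hd` every `w` is a finite sum of eigenvectors for distinct eigenvalues
  (`Submodule.mem_iSup_iff_exists_finsupp` or `Submodule.iSup_induction`), so it is enough that
  `∑ μ ∈ s, f μ ∈ W` with `Φ (f μ) = μ • f μ` implies `f μ ∈ W` for every `μ ∈ s`: induction on `s`
  (subtract `a • w` from `Φ w`, exactly as in `eig_indep`, PFCoord.lean; divide by `μ - a`).
* `exchange`: let `N = span (range y)`, `W = {w | w ∈ N ∧ ε w = b j0 • w}` (a `K`-subspace), stable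
  under `Φ` (`hN`, `hc`). `y j0 = ∑ μ ∈ s, f μ` with `f μ ∈ W` (`eig_mem`). Each `f μ` is
  `∑ j, t μ j • y j` with `E (t μ j) = (b j0 - b j) • t μ j`: take any representation
  (`Submodule.mem_span_range_iff_exists_fun`) and pass to the components, `comp ε (b j0) (f μ) = f μ`,
  `comp ε (b j0) (t • y j) = comp E (b j0 - b j) t • y j` (`comp_sum`, `comp_smul` or decompose `t` by
  `euler_diag`; `comp_hsmul`). So `t μ j0` has degree zero: it is a constant `algebraMap K S (c μ)`
  (`eig_zero` in V1.lean, or `euler_decomp`). If `c μ ≠ 0` for some `μ ∈ s`: take `c := c μ`,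
  `s j := t μ j` for `j ≠ j0`, `s j0 := 0`; the vector is `f μ`; `β := μ` if `μ ≠ 0`; if `μ = 0` then
  `Φ (f μ) = 0`, so `f μ = 0` by `hinj` and `β := 1` works. If all `c μ = 0` then
  `y j0 = ∑ μ ∈ s, ∑ j ≠ j0, t μ j • y j`: take `c := 1`, `s j := - ∑ μ ∈ s, t μ j` for `j ≠ j0`,
  `β := 1`; the vector is zero.
-/

set_option autoImplicit false
set_option linter.unusedSectionVars false
set_option linter.unusedSimpArgs false
set_option linter.unusedVariables false

open MvPolynomial

namespace Pool.Agent.Lib.MP_745d3a_ag.PF.SB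

section

variable {K S ι V : Type*} [Field K] [CharZero K] [CommRing S] [Algebra K S] {x : ι → S}
  {E : Derivation K S S} [AddCommGroup V] [Module K V] [Module S V] [IsScalarTower K S V]
  {ε Φ : V →ₗ[K] V}

theorem eig_mem {K V : Type*} [Field K] [AddCommGroup V] [Module K V] {Φ : V →ₗ[K] V}
    (hd : DiagK Φ) (W : Submodule K V) (hW : ∀ w ∈ W, Φ w ∈ W) (w : V)
    (hw : w ∈ W) : ∃ (s : Finset K) (f : K → V), (∀ μ, f μ ∈ W) ∧ (∀ μ, Φ (f μ) = μ • f μ) ∧
      w = ∑ μ ∈ s, f μ := by
  classical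
  have key : ∀ (s : Finset K) (f : K → V), (∀ μ ∈ s, Φ (f μ) = μ • f μ) →
      ∑ μ ∈ s, f μ ∈ W → ∀ μ ∈ s, f μ ∈ W := by
    intro s
    induction s using Finset.induction_on with
    | empty => intro f _ _ μ hμ; simp at hμ
    | insert a s ha ih =>
      intro f hf hsum
      have h1 : Φ (∑ μ ∈ insert a s, f μ) - a • ∑ μ ∈ insert a s, f μ ∈ W :=
        W.sub_mem (hW _ hsum) (W.smul_mem a hsum)
      have h2 : Φ (∑ μ ∈ insert a s, f μ) - a • ∑ μ ∈ insert a s, f μ
          = ∑ μ ∈ s, (μ - a) • f μ := by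
        rw [map_sum, Finset.smul_sum, ← Finset.sum_sub_distrib, Finset.sum_insert ha,
          hf a (Finset.mem_insert_self a s), sub_self, zero_add]
        refine Finset.sum_congr rfl fun μ hμ => ?_
        rw [hf μ (Finset.mem_insert_of_mem hμ), sub_smul]
      rw [h2] at h1
      have h3 := ih (fun μ => (μ - a) • f μ) (fun μ hμ => by
        rw [map_smul, hf μ (Finset.mem_insert_of_mem hμ), smul_comm]) h1
      have h4 : ∀ μ ∈ s, f μ ∈ W := by
        intro μ hμ
        have hne : μ - a ≠ 0 := by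
          intro h
          rw [sub_eq_zero] at h
          exact ha (h ▸ hμ)
        have h5 := W.smul_mem (μ - a)⁻¹ (h3 μ hμ)
        rwa [smul_smul, inv_mul_cancel₀ hne, one_smul] at h5
      intro μ hμ
      rcases Finset.mem_insert.mp hμ with rfl | hμ'
      · rw [Finset.sum_insert ha] at hsum
        have h6 := W.sub_mem hsum (W.sum_mem h4)
        rwa [add_sub_cancel_right] at h6
      · exact h4 μ hμ'
  have hw' : w ∈ ⨆ μ : K, Module.End.eigenspace (Φ : Module.End K V) μ := by
    have h0 : (⨆ μ : K, Module.End.eigenspace (Φ : Module.End K V) μ) = ⊤ := hd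
    rw [h0]; exact Submodule.mem_top
  obtain ⟨f, hf, hfw⟩ := (Submodule.mem_iSup_iff_exists_finsupp _ _).mp hw'
  have hf' : ∀ μ, Φ (f μ) = μ • f μ := fun μ => Module.End.mem_eigenspace_iff.mp (hf μ)
  have hsum : ∑ μ ∈ f.support, f μ = w := hfw
  refine ⟨f.support, f, fun μ => ?_, hf', hsum.symm⟩
  by_cases hμ : μ ∈ f.support
  · exact key f.support f (fun μ _ => hf' μ) (hsum ▸ hw) μ hμ
  · rw [Finsupp.notMem_support_iff.mp hμ]; exact W.zero_mem

theorem exchange (hx : Coord K x) (hE : IsEuler x E) (cE : IsConn E ε) (dE : Diag ε)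
    (hd : DiagK Φ) (hinj : Function.Injective Φ) (hc : ∀ v, ε (Φ v) = Φ (ε v)) {n : ℕ}
    (y : Fin n → V) (b : Fin n → ℤ) (hy : ∀ j, ε (y j) = (b j : K) • y j)
    (hN : ∀ v ∈ Submodule.span S (Set.range y), Φ v ∈ Submodule.span S (Set.range y))
    (j0 : Fin n) :
    ∃ (c : K) (s : Fin n → S) (β : K), c ≠ 0 ∧ s j0 = 0 ∧
      (∀ j, E (s j) = ((b j0 - b j : ℤ) : K) • s j) ∧ β ≠ 0 ∧
      Φ (c • y j0 + ∑ j, s j • y j) = β • (c • y j0 + ∑ j, s j • y j) := by
  classical
  have hED : Diag (E : S →ₗ[K] S) := euler_diag hx hE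
  -- components of products with homogeneous vectors
  have hcomp : ∀ (a : S) (j : Fin n), comp ε (b j0) (a • y j)
      = comp (E : S →ₗ[K] S) (b j0 - b j) a • y j := by
    intro a j
    have h1 := comp_shift (T := (E : S →ₗ[K] S)) (T' := ε) hED
      (AddMonoidHom.mk' (fun a : S => a • y j) (fun a c => add_smul a c (y j))) (b j) ?_
      (b j0 - b j) a
    · rw [sub_add_cancel] at h1
      exact h1
    · intro v d hv
      show ε (v • y j) = _ • (v • y j)
      have hv' : E v = (d : K) • v := hv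
      rw [cE, hv', hy j, Int.cast_add, add_smul, smul_assoc, smul_comm v (b j : K) (y j)]
  let N : Submodule S V := Submodule.span S (Set.range y)
  let W : Submodule K V :=
    { carrier := {w | w ∈ N ∧ ε w = (b j0 : K) • w}
      add_mem' := by
        rintro u v ⟨hu1, hu2⟩ ⟨hv1, hv2⟩
        exact ⟨N.add_mem hu1 hv1, by rw [map_add, hu2, hv2, smul_add]⟩
      zero_mem' := ⟨N.zero_mem, by rw [map_zero, smul_zero]⟩
      smul_mem' := by
        rintro c v ⟨hv1, hv2⟩
        refine ⟨?_, by rw [map_smul, hv2, smul_comm]⟩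
        have h3 : c • v = (algebraMap K S c) • v := (algebraMap_smul S c v).symm
        rw [h3]
        exact N.smul_mem _ hv1 }
  have hWΦ : ∀ w ∈ W, Φ w ∈ W := by
    rintro w ⟨hw1, hw2⟩
    exact ⟨hN w hw1, by rw [hc, hw2, map_smul]⟩
  have hyW : y j0 ∈ W := ⟨Submodule.subset_span ⟨j0, rfl⟩, hy j0⟩
  obtain ⟨s, f, hfW, hfΦ, hsum⟩ := eig_mem hd W hWΦ (y j0) hyW
  -- representations
  have hrep : ∀ μ, ∃ t : Fin n → S, (∀ j, E (t j) = ((b j0 - b j : ℤ) : K) • t j) ∧
      f μ = ∑ j, t j • y j := by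
    intro μ
    obtain ⟨t, ht⟩ := (Submodule.mem_span_range_iff_exists_fun S).mp (hfW μ).1
    refine ⟨fun j => comp (E : S →ₗ[K] S) (b j0 - b j) (t j), fun j => comp_eig hED _ _, ?_⟩
    have h1 : comp ε (b j0) (f μ) = f μ := comp_of_eig (hfW μ).2
    rw [← h1, ← ht, comp_sum dE]
    exact Finset.sum_congr rfl fun j _ => hcomp (t j) j
  choose t htE htf using hrep
  have hconst : ∀ μ, ∃ c : K, t μ j0 = algebraMap K S c := by
    intro μ
    obtain ⟨c, hc1⟩ := (euler_comp hx hE (t μ j0)).2.1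
    refine ⟨c, ?_⟩
    rw [← hc1]
    refine (comp_of_eig (T := (E : S →ₗ[K] S)) ?_).symm
    have := htE μ j0
    rw [sub_self] at this
    exact this
  choose c hcc using hconst
  have hsplit : ∀ (u : Fin n → S), ∑ j, u j • y j
      = u j0 • y j0 + ∑ j, (if j = j0 then 0 else u j) • y j := by
    intro u
    rw [← Finset.add_sum_erase Finset.univ _ (Finset.mem_univ j0)]
    congr 1
    rw [← Finset.add_sum_erase Finset.univ (fun j => (if j = j0 then 0 else u j) • y j)
      (Finset.mem_univ j0), if_pos rfl, zero_smul, zero_add]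
    refine Finset.sum_congr rfl fun j hj => ?_
    rw [if_neg (Finset.ne_of_mem_erase hj)]
  by_cases hex : ∃ μ ∈ s, c μ ≠ 0
  · obtain ⟨μ, hμs, hμ⟩ := hex
    have hv : c μ • y j0 + ∑ j, (if j = j0 then 0 else t μ j) • y j = f μ := by
      rw [htf μ, hsplit (t μ), hcc μ, algebraMap_smul]
    have hE' : ∀ j, E (if j = j0 then 0 else t μ j)
        = ((b j0 - b j : ℤ) : K) • (if j = j0 then 0 else t μ j) := by
      intro j
      by_cases hj : j = j0
      · rw [if_pos hj, map_zero, smul_zero]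
      · rw [if_neg hj]; exact htE μ j
    by_cases hμ0 : μ = 0
    · have h0 : f μ = 0 := by
        apply hinj
        rw [hfΦ μ, hμ0, zero_smul, map_zero]
      refine ⟨c μ, fun j => if j = j0 then 0 else t μ j, 1, hμ, if_pos rfl, hE', one_ne_zero, ?_⟩
      rw [hv, h0, map_zero, smul_zero]
    · refine ⟨c μ, fun j => if j = j0 then 0 else t μ j, μ, hμ, if_pos rfl, hE', hμ0, ?_⟩
      rw [hv, hfΦ μ]
  · push Not at hex
    have hzero : ∀ μ ∈ s, t μ j0 = 0 := by
      intro μ hμ
      rw [hcc μ, hex μ hμ, map_zero]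
    have hrel : y j0 = ∑ j, (∑ μ ∈ s, (if j = j0 then 0 else t μ j)) • y j := by
      have h1 : ∀ μ ∈ s, f μ = ∑ j, (if j = j0 then 0 else t μ j) • y j := by
        intro μ hμ
        rw [htf μ, hsplit (t μ), hzero μ hμ, zero_smul, zero_add]
      rw [hsum, Finset.sum_congr rfl h1, Finset.sum_comm]
      exact Finset.sum_congr rfl fun j _ => (Finset.sum_smul).symm
    refine ⟨1, fun j => - ∑ μ ∈ s, (if j = j0 then 0 else t μ j), 1, one_ne_zero, ?_, ?_,
      one_ne_zero, ?_⟩
    · simp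
    · intro j
      rw [map_neg, map_sum, smul_neg, Finset.smul_sum]
      congr 1
      refine Finset.sum_congr rfl fun μ _ => ?_
      by_cases hj : j = j0
      · rw [if_pos hj, map_zero, smul_zero]
      · rw [if_neg hj]; exact htE μ j
    · have h0 : (1 : K) • y j0 + ∑ j, (- ∑ μ ∈ s, (if j = j0 then 0 else t μ j)) • y j = 0 := by
        rw [one_smul]
        have h2 : ∑ j, (- ∑ μ ∈ s, (if j = j0 then 0 else t μ j)) • y j
            = - ∑ j, (∑ μ ∈ s, (if j = j0 then 0 else t μ j)) • y j := by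
          rw [← Finset.sum_neg_distrib]
          exact Finset.sum_congr rfl fun j _ => neg_smul _ _
        rw [h2, ← hrel, add_neg_cancel]
      rw [h0, map_zero, smul_zero]

end

end Pool.Agent.Lib.MP_745d3a_ag.PF.SB
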